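import Pool.Agent.MP_3ce0a0_al.H46.Peak
import Pool.Agent.MP_3ce0a0_al.H79.Defs

/-! Words coded by natural numbers, tables of endomorphisms and checkers for the relations. -/

namespace Pool.Agent.MP_3ce0a0_al.H46

open FreeGroup

/-- the letter with code `y` -/
def gn (k y : ℕ) : FreeGroup (Fin k) :=
  if h : y / 2 < k then lt (⟨y / 2, h⟩, decide (y % 2 = 0)) else 1

/-- the value of a coded word -/
def ev (k : ℕ) (w : List ℕ) : FreeGroup (Fin k) := (w.map (gn k)).prod

/-- code of the inverse letter -/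
def fl (y : ℕ) : ℕ := Nat.xor y 1

/-- reduced cons -/
noncomputable def cr (y : ℕ) (w : List ℕ) : List ℕ :=
  List.rec [y] (fun z t _ => cond (Nat.beq (fl y) z) t (y :: z :: t)) w

/-- `u * w` -/
noncomputable def mr (u w : List ℕ) : List ℕ := List.rec w (fun y _ acc => cr y acc) u

/-- `u⁻¹ * w` -/
noncomputable def mi (u : List ℕ) : List ℕ → List ℕ :=
  List.rec (fun w => w) (fun y _ f w => f (cr (fl y) w)) u

/-- list lookup -/
noncomputable def gd {α : Type} (l : List α) (d : α) : ℕ → α :=
  List.rec (fun _ => d) (fun x _ f n => Nat.rec x (fun m _ => f m) n) l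

/-- apply a table to a word -/
noncomputable def ap (T : List (List ℕ)) (w : List ℕ) : List ℕ :=
  List.rec [] (fun y _ acc => cond (Nat.beq (Nat.mod y 2) 0) (mr (gd T [] (Nat.div y 2)) acc)
    (mi (gd T [] (Nat.div y 2)) acc)) w

/-- apply a list of tables -/
noncomputable def aps (l : List (List (List ℕ))) (w : List ℕ) : List ℕ :=
  List.rec w (fun T _ acc => ap T acc) l

/-- equality of words -/
noncomputable def eqw (u : List ℕ) : List ℕ → Bool :=
  List.rec (fun w => List.rec true (fun _ _ _ => false) w)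
    (fun y _ f w => List.rec false (fun z t _ => Nat.beq y z && f t) w) u

lemma eqw_eq {u w : List ℕ} (h : eqw u w = true) : u = w := by
  induction u generalizing w with
  | nil => cases w with
    | nil => rfl
    | cons z t => simp [eqw] at h
  | cons y s ih => cases w with
    | nil => simp [eqw] at h
    | cons z t =>
      have h' : (Nat.beq y z && eqw s t) = true := h
      rw [Bool.and_eq_true] at h'
      rw [Nat.eq_of_beq_eq_true h'.1, ih h'.2]

lemma fl_div (y : ℕ) : fl y / 2 = y / 2 := by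
  show (y ^^^ 1) / 2 = _
  rw [Nat.xor_div_two]; simp

lemma fl_mod (y : ℕ) : fl y % 2 = 0 ↔ ¬ y % 2 = 0 := by
  show (y ^^^ 1) % 2 = 0 ↔ _
  have := @Nat.xor_mod_two_eq_one y 1
  omega

lemma gn_fl (k y : ℕ) : gn k (fl y) = (gn k y)⁻¹ := by
  unfold gn
  simp only [fl_div]
  split_ifs with h
  · rw [← lt_iv]; simp only [iv, fl_mod, decide_not]
  · simp

@[simp] lemma ev_nil (k : ℕ) : ev k [] = 1 := rfl

@[simp] lemma ev_cons (k y : ℕ) (w : List ℕ) : ev k (y :: w) = gn k y * ev k w := by simp [ev]

lemma ev_cr (k y : ℕ) (w : List ℕ) : ev k (cr y w) = gn k y * ev k w := by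
  cases w with
  | nil => simp [cr]
  | cons z t =>
    show ev k (cond (Nat.beq (fl y) z) t (y :: z :: t)) = _
    rcases h : Nat.beq (fl y) z with _ | _
    · simp
    · rw [← Nat.eq_of_beq_eq_true h]; simp [gn_fl]

lemma ev_mr (k : ℕ) (u w : List ℕ) : ev k (mr u w) = ev k u * ev k w := by
  induction u with
  | nil => simp [mr]
  | cons y t ih =>
    show ev k (cr y (mr t w)) = _
    rw [ev_cr, ih, ev_cons, mul_assoc]

lemma ev_mi (k : ℕ) (u w : List ℕ) : ev k (mi u w) = (ev k u)⁻¹ * ev k w := by
  induction u generalizing w with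
  | nil => simp [mi]
  | cons y t ih =>
    show ev k (mi t (cr (fl y) w)) = _
    rw [ih, ev_cr, gn_fl, ev_cons, mul_inv_rev, mul_assoc]

lemma gd_big {α : Type} (l : List α) (d : α) (n : ℕ) (h : l.length ≤ n) : gd l d n = d := by
  induction l generalizing n with
  | nil => rfl
  | cons x t ih => cases n with
    | zero => simp at h
    | succ m => exact ih m (by simpa using h)

/-- the endomorphism of a table -/
noncomputable def hm (k : ℕ) (T : List (List ℕ)) : FreeGroup (Fin k) →* FreeGroup (Fin k) :=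
  lift fun i => ev k (gd T [] i.val)

lemma hm_gn {k : ℕ} {T : List (List ℕ)} (h : T.length ≤ k) (y : ℕ) :
    hm k T (gn k y) = if y % 2 = 0 then ev k (gd T [] (y / 2)) else (ev k (gd T [] (y / 2)))⁻¹ := by
  unfold gn
  by_cases a : y / 2 < k
  · by_cases b : y % 2 = 0 <;> simp [a, b, lt_true, lt_false, hm]
  · simp [a, gd_big T [] (y / 2) (by omega)]

lemma ev_ap {k : ℕ} {T : List (List ℕ)} (h : T.length ≤ k) (w : List ℕ) :
    ev k (ap T w) = hm k T (ev k w) := by
  induction w with
  | nil => simp [ap]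
  | cons y t ih =>
    show ev k (cond (Nat.beq (y % 2) 0) (mr (gd T [] (y / 2)) (ap T t))
      (mi (gd T [] (y / 2)) (ap T t))) = _
    rw [ev_cons, _root_.map_mul, hm_gn h, ← ih]
    rcases b : Nat.beq (y % 2) 0 with _ | _
    · rw [if_neg (Nat.ne_of_beq_eq_false b)]; exact ev_mi ..
    · rw [if_pos (Nat.eq_of_beq_eq_true b)]; exact ev_mr ..

/-- the composite endomorphism -/
noncomputable def hms (k : ℕ) (l : List (List (List ℕ))) : FreeGroup (Fin k) →* FreeGroup (Fin k) :=
  l.foldr (fun T g => (hm k T).comp g) (MonoidHom.id _)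

lemma ev_aps {k : ℕ} {l : List (List (List ℕ))} (h : ∀ T ∈ l, T.length ≤ k) (w : List ℕ) :
    ev k (aps l w) = hms k l (ev k w) := by
  induction l with
  | nil => rfl
  | cons T t ih =>
    show ev k (ap T (aps t w)) = hm k T (hms k t (ev k w))
    rw [ev_ap (h T (by simp)), ih fun S hS => h S (by simp [hS])]

lemma gn_two {k : ℕ} (i : Fin k) : gn k (2 * i.val) = of i := by
  have : 2 * i.val / 2 = i.val := by omega
  simp [gn, this, lt_true]

/-- the composite is conjugation by `u` -/
noncomputable def chkU (k : ℕ) (l : List (List (List ℕ))) (u : List ℕ) : Bool :=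
  l.all (fun T => Nat.ble T.length k) &&
    (List.range k).all fun i => eqw (aps l [2 * i]) (mr u (cr (2 * i) (mi u [])))

lemma chkU_sound {k : ℕ} {l : List (List (List ℕ))} {u : List ℕ} (h : chkU k l u = true)
    (x : FreeGroup (Fin k)) : hms k l x = ev k u * x * (ev k u)⁻¹ := by
  simp only [chkU, Bool.and_eq_true, List.all_eq_true, Nat.ble_eq, List.mem_range] at h
  have : hms k l = (MulAut.conj (ev k u)).toMonoidHom := FreeGroup.ext_hom _ _ fun i => by
    have := congrArg (ev k) (eqw_eq (h.2 i i.2))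
    rw [ev_aps h.1, ev_mr, ev_cr, ev_mi] at this
    simpa [gn_two, mul_assoc] using this
  rw [this]; rfl

/-- the composite is the identity -/
noncomputable def chkE (k : ℕ) (l : List (List (List ℕ))) : Bool := chkU k l []

/-- candidate conjugator -/
noncomputable def cand (u v : List ℕ) : List ℕ :=
  cond (Nat.ble u.length v.length) (v.take (Nat.div v.length 2)) (u.take (Nat.div u.length 2))

/-- the composite is inner -/
noncomputable def chkI (k : ℕ) (l : List (List (List ℕ))) : Bool :=
  chkU k l (cand (aps l [0]) (aps l [2]))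

/-- the table is bijective -/
def Good (k : ℕ) (T : List (List ℕ)) : Prop := Function.Bijective (hm k T)

open Classical in
/-- the automorphism of a table -/
noncomputable def tA (k : ℕ) (T : List (List ℕ)) : MulAut (FreeGroup (Fin k)) :=
  if h : Good k T then MulEquiv.ofBijective (hm k T) h else 1

lemma tA_apply {k : ℕ} {T : List (List ℕ)} (h : Good k T) (x : FreeGroup (Fin k)) :
    tA k T x = hm k T x := by
  rw [tA, dif_pos h]; rfl

lemma good_of {k : ℕ} {T T' : List (List ℕ)} {u v : List ℕ} (h : chkU k [T, T'] u = true)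
    (h' : chkU k [T', T] v = true) : Good k T := by
  constructor
  · intro x y e
    have a := chkU_sound h' x
    have b := chkU_sound h' y
    change hm k T' (hm k T x) = _ at a
    change hm k T' (hm k T y) = _ at b
    rw [e, b] at a
    simpa using a.symm
  · intro x
    refine ⟨hm k T' ((ev k u)⁻¹ * x * ev k u), ?_⟩
    have a := chkU_sound h ((ev k u)⁻¹ * x * ev k u)
    change hm k T (hm k T' _) = _ at a
    rw [a]; group

lemma prod_tA {k : ℕ} {l : List (List (List ℕ))} (g : ∀ T ∈ l, Good k T) (x : FreeGroup (Fin k)) :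
    (l.map (tA k)).prod x = hms k l x := by
  induction l with
  | nil => rfl
  | cons T t ih =>
    rw [List.map_cons, List.prod_cons, MulAut.mul_apply, ih fun S hS => g S (by simp [hS]),
      tA_apply (g T (by simp))]
    rfl

/-- a sound checker for products in a group -/
structure Sound (k : ℕ) {H : Type} [Group H] (I : List (List ℕ) → H)
    (chk : List (List (List ℕ)) → Bool) : Prop where
  good : ∀ T T', chk [T, T'] = true → chk [T', T] = true → Good k T
  prod : ∀ l, (∀ T ∈ l, Good k T) → chk l = true → (l.map I).prod = 1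

lemma soundE (k : ℕ) : Sound k (tA k) (chkE k) where
  good _ _ h h' := good_of h h'
  prod l g h := by
    ext1 x
    rw [prod_tA g, chkU_sound h]; simp

/-- the outer automorphism of a table -/
noncomputable def tO (k : ℕ) (T : List (List ℕ)) : H79.Out (FreeGroup (Fin k)) :=
  QuotientGroup.mk (tA k T)

lemma soundI (k : ℕ) : Sound k (tO k) (chkI k) where
  good _ _ h h' := good_of h h'
  prod l g h := by
    have : (l.map (tO k)).prod = QuotientGroup.mk' (H79.Inn _) (l.map (tA k)).prod := by
      rw [map_list_prod, List.map_map]; rfl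
    rw [this]
    refine (QuotientGroup.eq_one_iff _).2 ⟨ev k (cand (aps l [0]) (aps l [2])), ?_⟩
    ext1 x
    rw [prod_tA g, chkU_sound h]; rfl

/-- all letters -/
def allL : List (Fin 3 × Bool) :=
  [(0, true), (0, false), (1, true), (1, false), (2, true), (2, false)]

lemma mem_allL (y : Fin 3 × Bool) : y ∈ allL := by revert y; decide

/-- a signed permutation from three letters -/
def mkW (t : (Fin 3 × Bool) × (Fin 3 × Bool) × (Fin 3 × Bool)) : Fin 3 → Fin 3 × Bool :=
  fun i => cond (Nat.beq i.val 0) t.1 (cond (Nat.beq i.val 1) t.2.1 t.2.2)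

/-- all valid triples with first letter `u` -/
def allT (u : Fin 3 × Bool) : List ((Fin 3 × Bool) × (Fin 3 × Bool) × (Fin 3 × Bool)) :=
  (allL.flatMap fun v => allL.map fun w => (u, v, w)).filter
    fun t => decide (t.1.1 ≠ t.2.1.1 ∧ t.1.1 ≠ t.2.2.1 ∧ t.2.1.1 ≠ t.2.2.1)

lemma mem_allT {π : Fin 3 → Fin 3 × Bool} (v : VW π) : ∃ t ∈ allT (π 0), mkW t = π := by
  refine ⟨(π 0, π 1, π 2), ?_, funext fun i => by fin_cases i <;> rfl⟩
  simp only [allT, List.mem_filter, List.mem_flatMap, List.mem_map, decide_eq_true_eq]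
  exact ⟨⟨π 1, mem_allL _, π 2, mem_allL _, rfl⟩, fun h => absurd (v h) (by decide),
    fun h => absurd (v h) (by decide), fun h => absurd (v h) (by decide)⟩

/-- inverse signed permutation -/
def winv (π : Fin 3 → Fin 3 × Bool) : Fin 3 → Fin 3 × Bool :=
  fun i => (allL.find? fun x => decide (act π x = (i, true))).getD (i, true)

/-- three generators of the signed permutations -/
def gW (n : ℕ) : Fin 3 → Fin 3 × Bool :=
  cond (Nat.beq n 0) (mkW ((1, true), (0, true), (2, true)))
    (cond (Nat.beq n 1) (mkW ((0, true), (2, true), (1, true)))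
      (mkW ((0, false), (1, true), (2, true))))

/-- value of a word in the three generators -/
def evW (l : List ℕ) : Fin 3 → Fin 3 × Bool := l.foldr (fun n π => wmul (gW n) π) wone

/-- words for all signed permutations -/
def wordsW : List (List ℕ) :=
  [[], [0], [1], [2], [1, 0], [2, 0], [0, 1], [2, 1], [0, 2], [0, 1, 0], [2, 1, 0], [0, 2, 0],
   [2, 0, 1], [0, 2, 1], [1, 0, 2], [2, 0, 2], [2, 0, 1, 0], [0, 2, 1, 0], [1, 0, 2, 0], [2, 0, 2,
   0], [0, 2, 0, 1], [1, 0, 2, 1], [2, 0, 2, 1], [2, 1, 0, 2], [0, 2, 0, 1, 0], [1, 0, 2, 1, 0],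
   [2, 0, 2, 1, 0], [2, 1, 0, 2, 0], [1, 0, 2, 0, 1], [2, 0, 2, 0, 1], [2, 1, 0, 2, 1], [0, 2, 1,
   0, 2], [1, 0, 2, 0, 1, 0], [2, 0, 2, 0, 1, 0], [2, 1, 0, 2, 1, 0], [0, 2, 1, 0, 2, 0], [2, 1,
   0, 2, 0, 1], [0, 2, 1, 0, 2, 1], [2, 0, 2, 1, 0, 2], [2, 1, 0, 2, 0, 1, 0], [0, 2, 1, 0, 2, 1,
   0], [2, 0, 2, 1, 0, 2, 0], [0, 2, 1, 0, 2, 0, 1], [2, 0, 2, 1, 0, 2, 1], [0, 2, 1, 0, 2, 0, 1,
   0], [2, 0, 2, 1, 0, 2, 1, 0], [2, 0, 2, 1, 0, 2, 0, 1], [2, 0, 2, 1, 0, 2, 0, 1, 0]]

lemma VW_gW (n : ℕ) : VW (gW n) := by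
  unfold gW VW
  cases Nat.beq n 0 <;> cases Nat.beq n 1 <;> decide

lemma VW_evW (l : List ℕ) : VW (evW l) := by
  induction l with
  | nil => exact VW_one
  | cons n l ih => exact (VW_gW n).mul ih

lemma gW_mem (n : ℕ) : ∃ m ∈ [0, 1, 2], gW m = gW n := by
  unfold gW
  rcases h : Nat.beq n 0 with _ | _
  · rcases h' : Nat.beq n 1 with _ | _
    · exact ⟨2, by simp, rfl⟩
    · exact ⟨1, by simp, rfl⟩
  · exact ⟨0, by simp, rfl⟩

lemma exists_word {π : Fin 3 → Fin 3 × Bool} (v : VW π) : ∃ l, evW l = π := by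
  have : ∀ u ∈ allL, ∀ t ∈ allT u, ∃ l ∈ wordsW,
      evW l 0 = mkW t 0 ∧ evW l 1 = mkW t 1 ∧ evW l 2 = mkW t 2 := by decide +kernel
  obtain ⟨t, ht, e⟩ := mem_allT v
  obtain ⟨l, -, h⟩ := this _ (mem_allL _) t ht
  refine ⟨l, e ▸ funext fun i => ?_⟩
  fin_cases i
  exacts [h.1, h.2.1, h.2.2]

lemma wmul_assoc (a b c : Fin 3 → Fin 3 × Bool) : wmul (wmul a b) c = wmul a (wmul b c) :=
  funext fun _ => act_wmul ..

section glue
variable {P : Type} [DecidableEq P] (j : Fin 3 × Bool → P) (ac : (Fin 3 → Fin 3 × Bool) → P → P)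
  (allP : List P) (allA : List (P → Bool)) (S : (Fin 3 → Fin 3 × Bool) → List (List ℕ))
  (E : (P → Bool) → Fin 3 × Bool → List (List ℕ)) (chk : List (List (List ℕ)) → Bool)

/-- validity test -/
def vdB (A : P → Bool) (a : Fin 3 × Bool) : Bool := A (j a) && !A (j (iv a))

/-- disjointness test -/
def djB (A B : P → Bool) : Bool := allP.all fun p => !(A p && B p)

/-- relations in one Whitehead datum -/
def cOne (a : Fin 3 × Bool) : Bool :=
  chk [E (sgl j a) a] && allA.all fun A => !vdB j A a ||
    (chk [E (flp j A a) (iv a), E A a] && chk [E A a, E (flp j A a) (iv a)] &&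
      chk [E (flp j A a) (iv a), E (cmp A) (iv a)] &&
      allL.all fun c => !vdB j A c || decide (c.1 = a.1) ||
        chk [S (rot a c), E (flp j A a) c, E A a, E (flp j A c) (iv c)])

/-- relations among signed permutations -/
def cHom : Bool :=
  chk [S wone] && allL.all fun u => (allT u).all fun t =>
    chk [S (mkW t), S (winv (mkW t))] && chk [S (winv (mkW t)), S (mkW t)] &&
    [0, 1, 2].all fun n => chk [S (gW n), S (mkW t), S (winv (wmul (gW n) (mkW t)))]

/-- conjugation relations -/
def cPerm (a : Fin 3 × Bool) : Bool :=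
  [0, 1, 2].all fun n => allA.all fun A => !vdB j (A ∘ ac (gW n)) a ||
    chk [S (gW n), E (A ∘ ac (gW n)) a, S (winv (gW n)),
      E (flp j A (act (gW n) a)) (iv (act (gW n) a))]

/-- relations for disjoint data -/
def cTwo (a : Fin 3 × Bool) : Bool :=
  allA.all fun A => !vdB j A a || allA.all fun B => !djB allP A B ||
    ((!vdB j B (iv a) || chk [E (rest j A B a) a, E A a, E (flp j B (iv a)) (iv (iv a))]) &&
      allL.all fun b => !vdB j B b || (B (j (iv a)) && A (j (iv b))) ||
        chk [E (star j A a B) b, E A a, E (flp j B b) (iv b), E (flp j (star j B b A) a) (iv a)])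

variable {j ac allP allA S E chk}

omit [DecidableEq P] in
lemma vdB_of {A : P → Bool} {a : Fin 3 × Bool} (v : Vd j A a) : vdB j A a = true := by
  simp [vdB, v.1, v.2]

lemma vd_star (ji : Function.Injective j) {A B : P → Bool} {a b : Fin 3 × Bool} (va : Vd j A a)
    (vb : Vd j B b) (d : Dj A B)
    (n : ¬ (B (j (iv a)) = true ∧ A (j (iv b)) = true)) : Vd j (star j A a B) b := by
  have : b ≠ a := fun k => by
    have := d _ va.1
    rw [← k, vb.1] at this; simp at this
  unfold Vd H46.star
  rcases h : B (j (iv a)) with _ | _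
  · simpa [Vd] using vb
  · have : A (j (iv b)) = false := by simpa [h] using n
    simp [*, vb.1, vb.2, ji.eq_iff]

theorem rel_of {k : ℕ} {H : Type} [Group H] {I : List (List ℕ) → H} (sd : Sound k I chk)
    (ji : Function.Injective j) (hac : ∀ π y, ac π (j y) = j (act π y))
    (hac1 : ∀ p, ac wone p = p) (hac2 : ∀ π π' p, ac (wmul π π') p = ac π (ac π' p))
    (hA : ∀ A, A ∈ allA) (h1 : ∀ a, cOne j allA S E chk a = true)
    (h2 : cHom S chk = true) (h3 : ∀ a, cPerm j ac allA S E chk a = true)
    (h4 : ∀ a, cTwo j allP allA E chk a = true) :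
    (∀ π, VW π → Good k (S π)) ∧ (∀ A a, Vd j A a → Good k (E A a)) ∧
      Rel j ac (fun π => I (S π)) (fun A a => I (E A a)) := by
  simp only [cOne, cHom, cPerm, cTwo, Bool.and_eq_true, List.all_eq_true, Bool.or_eq_true,
    Bool.not_eq_true', decide_eq_true_eq] at h1 h2 h3 h4
  have o1 := fun A a (v : Vd j A a) =>
    ((h1 a).2 A (hA A)).resolve_left (by simp [vdB_of v])
  have o2 : ∀ π, VW π → (chk [S π, S (winv π)] = true ∧ chk [S (winv π), S π] = true) ∧
      ∀ n, chk [S (gW n), S π, S (winv (wmul (gW n) π))] = true := by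
    intro π v
    obtain ⟨t, ht, e⟩ := mem_allT v
    have := h2.2 _ (mem_allL _) t ht
    rw [e] at this
    refine ⟨this.1, fun n => ?_⟩
    obtain ⟨m, hm, e'⟩ := gW_mem n
    rw [← e']
    exact this.2 m hm
  have gS : ∀ π, VW π → Good k (S π) := fun π v => sd.good _ _ (o2 π v).1.1 (o2 π v).1.2
  have gS' : ∀ π, VW π → Good k (S (winv π)) := fun π v => sd.good _ _ (o2 π v).1.2 (o2 π v).1.1
  have gE : ∀ A a, Vd j A a → Good k (E A a) := fun A a v =>
    sd.good _ _ (o1 A a v).1.1.2 (o1 A a v).1.1.1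
  have gE' : ∀ A a, Vd j A a → Good k (E (flp j A a) (iv a)) := fun A a v =>
    sd.good _ _ (o1 A a v).1.1.1 (o1 A a v).1.1.2
  have iS : ∀ π, VW π → I (S (winv π)) = (I (S π))⁻¹ := fun π v => by
    have := sd.prod _ (by simp [gS π v, gS' π v]) (o2 π v).1.1
    simp only [List.map_cons, List.map_nil, List.prod_cons, List.prod_nil, mul_one] at this
    exact eq_inv_of_mul_eq_one_right this
  have iE : ∀ A a, Vd j A a → I (E (flp j A a) (iv a)) = (I (E A a))⁻¹ := fun A a v => by
    have := sd.prod _ (by simp [gE A a v, gE' A a v]) (o1 A a v).1.1.2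
    simp only [List.map_cons, List.map_nil, List.prod_cons, List.prod_nil, mul_one] at this
    exact eq_inv_of_mul_eq_one_right this
  have s1 : I (S wone) = 1 := by simpa using sd.prod _ (by simp [gS _ VW_one]) h2.1
  have hg : ∀ n π, VW π → I (S (wmul (gW n) π)) = I (S (gW n)) * I (S π) := fun n π v => by
    have := sd.prod _ (by simp [gS π v, gS _ (VW_gW n), gS' _ ((VW_gW n).mul v)]) ((o2 π v).2 n)
    simp only [List.map_cons, List.map_nil, List.prod_cons, List.prod_nil, mul_one,
      iS _ ((VW_gW n).mul v)] at this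
    rw [← mul_assoc, mul_inv_eq_one] at this
    exact this.symm
  have vt : ∀ π A a, Vd j (A ∘ ac π) a → Vd j A (act π a) := fun π A a w => by
    have w1 := w.1
    have w2 := w.2
    simp only [Function.comp, hac, act_iv] at w1 w2
    exact ⟨w1, w2⟩
  have pg : ∀ n A a, Vd j (A ∘ ac (gW n)) a →
      I (S (gW n)) * I (E (A ∘ ac (gW n)) a) = I (E A (act (gW n) a)) * I (S (gW n)) := by
    intro n A a w
    obtain ⟨m, hm, e'⟩ := gW_mem n
    have := h3 a m hm A (hA A)
    rw [e'] at this
    have w' := vt _ _ _ w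
    have v := VW_gW n
    have := sd.prod _ (by simp [gS _ v, gS' _ v, gE _ _ w, gE' _ _ w'])
      (this.resolve_left (by simp [vdB_of w]))
    simp only [List.map_cons, List.map_nil, List.prod_cons, List.prod_nil, mul_one,
      iS _ v, iE _ _ w'] at this
    rw [← mul_inv_eq_one, ← this]; group
  refine ⟨gS, gE, ⟨fun π π' v v' => ?_, fun π A a v w => ?_, fun A a v => ?_, fun A a v => ?_,
    fun a => ?_, fun A a B b v w d n => ?_, fun A a B v w d => ?_, fun A a c v w n => ?_⟩⟩
  · obtain ⟨l, rfl⟩ := exists_word v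
    clear v
    induction l with
    | nil =>
      show I (S (wmul wone π')) = I (S wone) * _
      rw [s1, one_mul, show wmul wone π' = π' from funext fun i => act_wone _]
    | cons n l ih =>
      show I (S (wmul (wmul (gW n) (evW l)) π')) = I (S (wmul (gW n) (evW l))) * _
      rw [wmul_assoc, hg n _ ((VW_evW l).mul v'), ih, hg n _ (VW_evW l), mul_assoc]
  · obtain ⟨l, rfl⟩ := exists_word v
    clear v
    induction l generalizing A with
    | nil =>
      show I (S wone) * I (E (A ∘ ac wone) a) = I (E A (act wone a)) * I (S wone)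
      rw [s1, act_wone, show A ∘ ac wone = A from funext fun p => congrArg A (hac1 p)]
      simp
    | cons n l ih =>
      have e : A ∘ ac (evW (n :: l)) = (A ∘ ac (gW n)) ∘ ac (evW l) :=
        funext fun p => congrArg A (hac2 _ _ p)
      rw [e] at w ⊢
      show I (S (wmul (gW n) (evW l))) * _ =
        I (E A (act (wmul (gW n) (evW l)) a)) * I (S (wmul (gW n) (evW l)))
      rw [hg n _ (VW_evW l), mul_assoc, ih _ w, ← mul_assoc, pg n A _ (vt _ _ _ w), act_wmul,
        mul_assoc]
  · simp [iE A a v]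
  · have := sd.prod _ (by simp [gE _ _ v.cmp, gE' A a v]) (o1 A a v).1.2
    simp only [List.map_cons, List.map_nil, List.prod_cons, List.prod_nil, mul_one,
      iE _ _ v] at this
    exact (inv_mul_eq_one.1 this).symm
  · have v : Vd j (sgl j a) a := by simp [Vd, sgl, ji.eq_iff, iv_ne]
    simpa using sd.prod _ (by simp [gE _ _ v]) (h1 a).1
  · have dj : djB allP A B = true := by
      simp only [djB, List.all_eq_true]
      intro p _
      rcases h : A p with _ | _ <;> simp [d p, h]
    have := (((h4 a A (hA A)).resolve_left (by simp [vdB_of v]) B (hA B)).resolve_left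
      (by simp [dj])).2 b (mem_allL b)
    have v1 := vd_star ji v w d n
    have v2 := vd_star ji w v d.symm fun t => n t.symm
    have := sd.prod _ (by simp [gE _ _ v, gE _ _ v1, gE' _ _ w, gE' _ _ v2])
      (this.resolve_left (by simp only [vdB_of w]; simpa using n))
    simp only [List.map_cons, List.map_nil, List.prod_cons, List.prod_nil, mul_one,
      iE _ _ w, iE _ _ v2] at this
    rw [← mul_inv_eq_one, ← this]; group
  · have dj : djB allP A B = true := by
      simp only [djB, List.all_eq_true]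
      intro p _
      rcases h : A p with _ | _ <;> simp [d p, h]
    have := (((h4 a A (hA A)).resolve_left (by simp [vdB_of v]) B (hA B)).resolve_left
      (by simp [dj])).1
    have v1 : Vd j (rest j A B a) a := by simp [Vd, rest, w.1, ji.eq_iff, iv_ne]
    have := sd.prod _ (by simpa [gE _ _ v, gE _ _ v1] using gE' _ _ w)
      (this.resolve_left (by simp [vdB_of w]))
    simp only [List.map_cons, List.map_nil, List.prod_cons, List.prod_nil, mul_one,
      iE _ _ w] at this
    rw [← mul_assoc, mul_inv_eq_one] at this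
    exact this.symm
  · have := (o1 A a v).2 c (mem_allL c)
    have v1 : Vd j (flp j A a) c := by
      have n1 : c ≠ a := fun k => n (by rw [k])
      have n2 : iv c ≠ iv a := fun k => n (by rw [iv_inj k])
      simp [Vd, flp, w.1, w.2, ji.eq_iff, n1, n2]
    have := sd.prod _ (by simp [gE _ _ v, gE _ _ v1, gE' _ _ w, gS _ (VW_rot n)])
      (this.resolve_left (by simp [vdB_of w, n]))
    simp only [List.map_cons, List.map_nil, List.prod_cons, List.prod_nil, mul_one,
      iE _ _ w] at this
    rw [eq_comm, ← mul_inv_eq_one, ← this]; group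

end glue

end Pool.Agent.MP_3ce0a0_al.H46
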