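import Mathlib

namespace Pool.Agent.MP_3ce0a0_al.H46

/-- data -/
def d10E0 : List (List (List ℕ)) :=
  [[],
   [[0], [2], [4], [6], [8], [10], [12], [14], [16], [18]],
   [],
   [],
   [],
   [[7, 0, 6], [7, 0, 2, 6], [7, 0, 4, 1, 6], [7, 0], [7, 0, 8], [7, 0, 10], [7, 14], [7, 0, 12], [7, 0, 16], [7, 0, 18]],
   [],
   [],
   [],
   [[0], [1, 2], [4], [6], [1, 10], [8], [12], [14], [1, 18], [16]],
   [],
   [],
   [],
   [[7, 0, 6], [7, 2, 6], [7, 0, 4, 1, 6], [7, 0], [7, 10], [7, 0, 8], [7, 14], [7, 0, 12], [7, 18], [7, 0, 16]],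
   [],
   [],
   [],
   [[7, 0, 6], [7, 0, 2, 1, 6], [7, 0, 4, 6], [7, 0], [7, 10], [7, 0, 8], [7, 0, 12], [7, 0, 14], [7, 0, 16], [7, 0, 18]],
   [],
   [],
   [],
   [[0], [0, 2], [0, 4], [6], [10], [0, 8], [14], [0, 12], [0, 16], [0, 18]],
   [],
   [],
   [],
   [[7, 0, 6], [7, 2, 1, 6], [7, 0, 4, 6], [7, 0], [7, 8], [7, 10], [7, 0, 12], [7, 0, 14], [7, 18], [7, 0, 16]],
   [],
   [],
   [],
   [[0], [2], [0, 4], [6], [8], [10], [14], [0, 12], [18], [0, 16]],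
   [],
   [],
   [],
   [[0], [2], [1, 4], [6], [8], [10], [1, 14], [12], [1, 18], [16]],
   [],
   [],
   [],
   [[7, 0, 6], [7, 0, 2, 6], [7, 4, 1, 6], [7, 0], [7, 0, 8], [7, 0, 10], [7, 12], [7, 14], [7, 18], [7, 0, 16]],
   [],
   [],
   [],
   [[0], [1, 2], [1, 4], [6], [1, 10], [8], [1, 14], [12], [1, 16], [1, 18]],
   [],
   [],
   [],
   [[7, 0, 6], [7, 2, 6], [7, 4, 1, 6], [7, 0], [7, 10], [7, 0, 8], [7, 12], [7, 14], [7, 16], [7, 18]],
   [],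
   [],
   [],
   [[7, 0, 6], [7, 0, 2, 1, 6], [7, 4, 6], [7, 0], [7, 10], [7, 0, 8], [7, 14], [7, 0, 12], [7, 18], [7, 0, 16]],
   [],
   [],
   [],
   [[0], [0, 2], [4], [6], [10], [0, 8], [12], [14], [18], [0, 16]],
   [],
   [],
   [],
   [[7, 0, 6], [7, 2, 1, 6], [7, 4, 6], [7, 0], [7, 8], [7, 10], [7, 14], [7, 0, 12], [7, 16], [7, 18]],
   [],
   [],
   [],
   [[0], [2], [4], [6], [8], [10], [12], [14], [16], [18]],
   [],
   []]

/-- data -/
def d10E1 : List (List (List ℕ)) :=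
  [[],
   [],
   [[0], [2], [4], [6], [8], [10], [12], [14], [16], [18]],
   [],
   [],
   [],
   [[7, 0, 6], [7, 2, 1, 6], [7, 4, 6], [7, 0], [7, 8], [7, 10], [7, 14], [7, 0, 12], [7, 16], [7, 18]],
   [],
   [],
   [],
   [[0], [0, 2], [4], [6], [10], [0, 8], [12], [14], [18], [0, 16]],
   [],
   [],
   [],
   [[7, 0, 6], [7, 0, 2, 1, 6], [7, 4, 6], [7, 0], [7, 10], [7, 0, 8], [7, 14], [7, 0, 12], [7, 18], [7, 0, 16]],
   [],
   [],
   [],
   [[7, 0, 6], [7, 2, 6], [7, 4, 1, 6], [7, 0], [7, 10], [7, 0, 8], [7, 12], [7, 14], [7, 16], [7, 18]],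
   [],
   [],
   [],
   [[0], [1, 2], [1, 4], [6], [1, 10], [8], [1, 14], [12], [1, 16], [1, 18]],
   [],
   [],
   [],
   [[7, 0, 6], [7, 0, 2, 6], [7, 4, 1, 6], [7, 0], [7, 0, 8], [7, 0, 10], [7, 12], [7, 14], [7, 18], [7, 0, 16]],
   [],
   [],
   [],
   [[0], [2], [1, 4], [6], [8], [10], [1, 14], [12], [1, 18], [16]],
   [],
   [],
   [],
   [[0], [2], [0, 4], [6], [8], [10], [14], [0, 12], [18], [0, 16]],
   [],
   [],
   [],
   [[7, 0, 6], [7, 2, 1, 6], [7, 0, 4, 6], [7, 0], [7, 8], [7, 10], [7, 0, 12], [7, 0, 14], [7, 18], [7, 0, 16]],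
   [],
   [],
   [],
   [[0], [0, 2], [0, 4], [6], [10], [0, 8], [14], [0, 12], [0, 16], [0, 18]],
   [],
   [],
   [],
   [[7, 0, 6], [7, 0, 2, 1, 6], [7, 0, 4, 6], [7, 0], [7, 10], [7, 0, 8], [7, 0, 12], [7, 0, 14], [7, 0, 16], [7, 0, 18]],
   [],
   [],
   [],
   [[7, 0, 6], [7, 2, 6], [7, 0, 4, 1, 6], [7, 0], [7, 10], [7, 0, 8], [7, 14], [7, 0, 12], [7, 18], [7, 0, 16]],
   [],
   [],
   [],
   [[0], [1, 2], [4], [6], [1, 10], [8], [12], [14], [1, 18], [16]],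
   [],
   [],
   [],
   [[7, 0, 6], [7, 0, 2, 6], [7, 0, 4, 1, 6], [7, 0], [7, 0, 8], [7, 0, 10], [7, 14], [7, 0, 12], [7, 0, 16], [7, 0, 18]],
   [],
   [],
   [],
   [[0], [2], [4], [6], [8], [10], [12], [14], [16], [18]],
   []]

/-- data -/
def d10E2 : List (List (List ℕ)) :=
  [[],
   [],
   [],
   [],
   [[0], [2], [4], [6], [8], [10], [12], [14], [16], [18]],
   [[9, 2, 0, 8], [9, 2, 8], [9, 2, 4, 3, 8], [9, 2, 6], [9, 2], [9, 2, 10], [9, 16], [9, 2, 14], [9, 2, 12], [9, 2, 18]],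
   [[3, 0], [2], [4], [3, 10], [8], [6], [12], [3, 18], [16], [14]],
   [[9, 0, 8], [9, 2, 8], [9, 2, 4, 3, 8], [9, 10], [9, 2], [9, 2, 6], [9, 16], [9, 18], [9, 2, 12], [9, 2, 14]],
   [],
   [],
   [],
   [],
   [],
   [],
   [],
   [],
   [],
   [],
   [],
   [],
   [[9, 2, 0, 3, 8], [9, 2, 8], [9, 2, 4, 8], [9, 10], [9, 2], [9, 2, 6], [9, 2, 12], [9, 2, 14], [9, 2, 16], [9, 2, 18]],
   [[2, 0], [2], [2, 4], [10], [8], [2, 6], [16], [2, 14], [2, 12], [2, 18]],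
   [[9, 0, 3, 8], [9, 2, 8], [9, 2, 4, 8], [9, 6], [9, 2], [9, 10], [9, 2, 12], [9, 18], [9, 2, 16], [9, 2, 14]],
   [[0], [2], [2, 4], [6], [8], [10], [16], [18], [2, 12], [2, 14]],
   [],
   [],
   [],
   [],
   [],
   [],
   [],
   [],
   [],
   [],
   [],
   [],
   [[0], [2], [3, 4], [6], [8], [10], [3, 16], [3, 18], [12], [14]],
   [[9, 2, 0, 8], [9, 2, 8], [9, 4, 3, 8], [9, 2, 6], [9, 2], [9, 2, 10], [9, 12], [9, 18], [9, 16], [9, 2, 14]],
   [[3, 0], [2], [3, 4], [3, 10], [8], [6], [3, 16], [3, 14], [12], [3, 18]],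
   [[9, 0, 8], [9, 2, 8], [9, 4, 3, 8], [9, 10], [9, 2], [9, 2, 6], [9, 12], [9, 14], [9, 16], [9, 18]],
   [],
   [],
   [],
   [],
   [],
   [],
   [],
   [],
   [],
   [],
   [],
   [],
   [[9, 2, 0, 3, 8], [9, 2, 8], [9, 4, 8], [9, 10], [9, 2], [9, 2, 6], [9, 16], [9, 18], [9, 2, 12], [9, 2, 14]],
   [[2, 0], [2], [4], [10], [8], [2, 6], [12], [18], [16], [2, 14]],
   [[9, 0, 3, 8], [9, 2, 8], [9, 4, 8], [9, 6], [9, 2], [9, 10], [9, 16], [9, 14], [9, 2, 12], [9, 18]],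
   [[0], [2], [4], [6], [8], [10], [12], [14], [16], [18]],
   [],
   [],
   [],
   [],
   [],
   [],
   [],
   []]

/-- data -/
def d10E3 : List (List (List ℕ)) :=
  [[],
   [],
   [],
   [],
   [],
   [],
   [],
   [],
   [[0], [2], [4], [6], [8], [10], [12], [14], [16], [18]],
   [[9, 0, 3, 8], [9, 2, 8], [9, 4, 8], [9, 6], [9, 2], [9, 10], [9, 16], [9, 14], [9, 2, 12], [9, 18]],
   [[2, 0], [2], [4], [10], [8], [2, 6], [12], [18], [16], [2, 14]],
   [[9, 2, 0, 3, 8], [9, 2, 8], [9, 4, 8], [9, 10], [9, 2], [9, 2, 6], [9, 16], [9, 18], [9, 2, 12], [9, 2, 14]],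
   [],
   [],
   [],
   [],
   [],
   [],
   [],
   [],
   [],
   [],
   [],
   [],
   [[9, 0, 8], [9, 2, 8], [9, 4, 3, 8], [9, 10], [9, 2], [9, 2, 6], [9, 12], [9, 14], [9, 16], [9, 18]],
   [[3, 0], [2], [3, 4], [3, 10], [8], [6], [3, 16], [3, 14], [12], [3, 18]],
   [[9, 2, 0, 8], [9, 2, 8], [9, 4, 3, 8], [9, 2, 6], [9, 2], [9, 2, 10], [9, 12], [9, 18], [9, 16], [9, 2, 14]],
   [[0], [2], [3, 4], [6], [8], [10], [3, 16], [3, 18], [12], [14]],
   [],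
   [],
   [],
   [],
   [],
   [],
   [],
   [],
   [],
   [],
   [],
   [],
   [[0], [2], [2, 4], [6], [8], [10], [16], [18], [2, 12], [2, 14]],
   [[9, 0, 3, 8], [9, 2, 8], [9, 2, 4, 8], [9, 6], [9, 2], [9, 10], [9, 2, 12], [9, 18], [9, 2, 16], [9, 2, 14]],
   [[2, 0], [2], [2, 4], [10], [8], [2, 6], [16], [2, 14], [2, 12], [2, 18]],
   [[9, 2, 0, 3, 8], [9, 2, 8], [9, 2, 4, 8], [9, 10], [9, 2], [9, 2, 6], [9, 2, 12], [9, 2, 14], [9, 2, 16], [9, 2, 18]],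
   [],
   [],
   [],
   [],
   [],
   [],
   [],
   [],
   [],
   [],
   [],
   [],
   [[9, 0, 8], [9, 2, 8], [9, 2, 4, 3, 8], [9, 10], [9, 2], [9, 2, 6], [9, 16], [9, 18], [9, 2, 12], [9, 2, 14]],
   [[3, 0], [2], [4], [3, 10], [8], [6], [12], [3, 18], [16], [14]],
   [[9, 2, 0, 8], [9, 2, 8], [9, 2, 4, 3, 8], [9, 2, 6], [9, 2], [9, 2, 10], [9, 16], [9, 2, 14], [9, 2, 12], [9, 2, 18]],
   [[0], [2], [4], [6], [8], [10], [12], [14], [16], [18]],
   [],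
   [],
   [],
   []]

/-- data -/
def d10E4 : List (List (List ℕ)) :=
  [[],
   [],
   [],
   [],
   [],
   [],
   [],
   [],
   [],
   [],
   [],
   [],
   [],
   [],
   [],
   [],
   [[0], [2], [4], [6], [8], [10], [12], [14], [16], [18]],
   [[13, 4, 0, 12], [13, 4, 2, 5, 12], [13, 4, 12], [13, 4, 6], [13, 16], [13, 4, 10], [13, 4], [13, 4, 14], [13, 4, 8], [13, 4, 18]],
   [[5, 0], [2], [4], [5, 14], [8], [5, 18], [12], [6], [16], [10]],
   [[13, 0, 12], [13, 4, 2, 5, 12], [13, 4, 12], [13, 14], [13, 16], [13, 18], [13, 4], [13, 4, 6], [13, 4, 8], [13, 4, 10]],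
   [[13, 4, 0, 5, 12], [13, 4, 2, 12], [13, 4, 12], [13, 14], [13, 4, 8], [13, 4, 10], [13, 4], [13, 4, 6], [13, 4, 16], [13, 4, 18]],
   [[4, 0], [4, 2], [4], [14], [16], [4, 10], [12], [4, 6], [4, 8], [4, 18]],
   [[13, 0, 5, 12], [13, 4, 2, 12], [13, 4, 12], [13, 6], [13, 4, 8], [13, 18], [13, 4], [13, 14], [13, 4, 16], [13, 4, 10]],
   [[0], [4, 2], [4], [6], [16], [18], [12], [14], [4, 8], [4, 10]],
   [[0], [5, 2], [4], [6], [5, 16], [5, 18], [12], [14], [8], [10]],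
   [[13, 4, 0, 12], [13, 2, 5, 12], [13, 4, 12], [13, 4, 6], [13, 8], [13, 18], [13, 4], [13, 4, 14], [13, 16], [13, 4, 10]],
   [[5, 0], [5, 2], [4], [5, 14], [5, 16], [5, 10], [12], [6], [8], [5, 18]],
   [[13, 0, 12], [13, 2, 5, 12], [13, 4, 12], [13, 14], [13, 8], [13, 10], [13, 4], [13, 4, 6], [13, 16], [13, 18]],
   [[13, 4, 0, 5, 12], [13, 2, 12], [13, 4, 12], [13, 14], [13, 16], [13, 18], [13, 4], [13, 4, 6], [13, 4, 8], [13, 4, 10]],
   [[4, 0], [2], [4], [14], [8], [18], [12], [4, 6], [16], [4, 10]],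
   [[13, 0, 5, 12], [13, 2, 12], [13, 4, 12], [13, 6], [13, 16], [13, 10], [13, 4], [13, 14], [13, 4, 8], [13, 18]],
   [[0], [2], [4], [6], [8], [10], [12], [14], [16], [18]],
   [],
   [],
   [],
   [],
   [],
   [],
   [],
   [],
   [],
   [],
   [],
   [],
   [],
   [],
   [],
   [],
   [],
   [],
   [],
   [],
   [],
   [],
   [],
   [],
   [],
   [],
   [],
   [],
   [],
   [],
   [],
   []]

/-- data -/
def d10E5 : List (List (List ℕ)) :=
  [[],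
   [],
   [],
   [],
   [],
   [],
   [],
   [],
   [],
   [],
   [],
   [],
   [],
   [],
   [],
   [],
   [],
   [],
   [],
   [],
   [],
   [],
   [],
   [],
   [],
   [],
   [],
   [],
   [],
   [],
   [],
   [],
   [[0], [2], [4], [6], [8], [10], [12], [14], [16], [18]],
   [[13, 0, 5, 12], [13, 2, 12], [13, 4, 12], [13, 6], [13, 16], [13, 10], [13, 4], [13, 14], [13, 4, 8], [13, 18]],
   [[4, 0], [2], [4], [14], [8], [18], [12], [4, 6], [16], [4, 10]],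
   [[13, 4, 0, 5, 12], [13, 2, 12], [13, 4, 12], [13, 14], [13, 16], [13, 18], [13, 4], [13, 4, 6], [13, 4, 8], [13, 4, 10]],
   [[13, 0, 12], [13, 2, 5, 12], [13, 4, 12], [13, 14], [13, 8], [13, 10], [13, 4], [13, 4, 6], [13, 16], [13, 18]],
   [[5, 0], [5, 2], [4], [5, 14], [5, 16], [5, 10], [12], [6], [8], [5, 18]],
   [[13, 4, 0, 12], [13, 2, 5, 12], [13, 4, 12], [13, 4, 6], [13, 8], [13, 18], [13, 4], [13, 4, 14], [13, 16], [13, 4, 10]],
   [[0], [5, 2], [4], [6], [5, 16], [5, 18], [12], [14], [8], [10]],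
   [[0], [4, 2], [4], [6], [16], [18], [12], [14], [4, 8], [4, 10]],
   [[13, 0, 5, 12], [13, 4, 2, 12], [13, 4, 12], [13, 6], [13, 4, 8], [13, 18], [13, 4], [13, 14], [13, 4, 16], [13, 4, 10]],
   [[4, 0], [4, 2], [4], [14], [16], [4, 10], [12], [4, 6], [4, 8], [4, 18]],
   [[13, 4, 0, 5, 12], [13, 4, 2, 12], [13, 4, 12], [13, 14], [13, 4, 8], [13, 4, 10], [13, 4], [13, 4, 6], [13, 4, 16], [13, 4, 18]],
   [[13, 0, 12], [13, 4, 2, 5, 12], [13, 4, 12], [13, 14], [13, 16], [13, 18], [13, 4], [13, 4, 6], [13, 4, 8], [13, 4, 10]],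
   [[5, 0], [2], [4], [5, 14], [8], [5, 18], [12], [6], [16], [10]],
   [[13, 4, 0, 12], [13, 4, 2, 5, 12], [13, 4, 12], [13, 4, 6], [13, 16], [13, 4, 10], [13, 4], [13, 4, 14], [13, 4, 8], [13, 4, 18]],
   [[0], [2], [4], [6], [8], [10], [12], [14], [16], [18]],
   [],
   [],
   [],
   [],
   [],
   [],
   [],
   [],
   [],
   [],
   [],
   [],
   [],
   [],
   [],
   []]

/-- data -/
def d10E : List (List (List (List ℕ))) := [d10E0, d10E1, d10E2, d10E3, d10E4, d10E5]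

/-- data -/
def d10S0 : List (List (List ℕ)) :=
  [[],
   [],
   [],
   [],
   [],
   [],
   [],
   [],
   [],
   [],
   [],
   [],
   [],
   [],
   [],
   [],
   [[0], [2], [4], [6], [8], [10], [12], [14], [16], [18]],
   [[13, 0, 12], [13, 2, 12], [13, 5, 12], [13, 14], [13, 16], [13, 18], [13], [13, 6], [13, 8], [13, 10]],
   [],
   [],
   [],
   [],
   [[9, 0, 8], [9, 3, 8], [9, 4, 8], [9, 10], [9], [9, 6], [9, 16], [9, 18], [9, 12], [9, 14]],
   [[17, 0, 16], [17, 3, 16], [17, 5, 16], [17, 18], [17, 12], [17, 14], [17, 8], [17, 10], [17], [17, 6]],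
   [],
   [],
   [[0], [4], [2], [6], [12], [14], [8], [10], [16], [18]],
   [[9, 0, 8], [9, 4, 8], [9, 3, 8], [9, 10], [9, 16], [9, 18], [9], [9, 6], [9, 12], [9, 14]],
   [],
   [],
   [],
   [],
   [[13, 0, 12], [13, 5, 12], [13, 2, 12], [13, 14], [13], [13, 6], [13, 16], [13, 18], [13, 8], [13, 10]],
   [[17, 0, 16], [17, 5, 16], [17, 3, 16], [17, 18], [17, 8], [17, 10], [17, 12], [17, 14], [17], [17, 6]],
   [],
   []]

/-- data -/
def d10S1 : List (List (List ℕ)) :=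
  [[],
   [],
   [],
   [],
   [],
   [],
   [],
   [],
   [],
   [],
   [],
   [],
   [],
   [],
   [],
   [],
   [[7, 1, 6], [7, 2, 6], [7, 4, 6], [7], [7, 10], [7, 8], [7, 14], [7, 12], [7, 18], [7, 16]],
   [[15, 1, 14], [15, 2, 14], [15, 5, 14], [15, 12], [15, 18], [15, 16], [15, 6], [15], [15, 10], [15, 8]],
   [],
   [],
   [],
   [],
   [[11, 1, 10], [11, 3, 10], [11, 4, 10], [11, 8], [11, 6], [11], [11, 18], [11, 16], [11, 14], [11, 12]],
   [[19, 1, 18], [19, 3, 18], [19, 5, 18], [19, 16], [19, 14], [19, 12], [19, 10], [19, 8], [19, 6], [19]],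
   [],
   [],
   [[7, 1, 6], [7, 4, 6], [7, 2, 6], [7], [7, 14], [7, 12], [7, 10], [7, 8], [7, 18], [7, 16]],
   [[11, 1, 10], [11, 4, 10], [11, 3, 10], [11, 8], [11, 18], [11, 16], [11, 6], [11], [11, 14], [11, 12]],
   [],
   [],
   [],
   [],
   [[15, 1, 14], [15, 5, 14], [15, 2, 14], [15, 12], [15, 6], [15], [15, 18], [15, 16], [15, 10], [15, 8]],
   [[19, 1, 18], [19, 5, 18], [19, 3, 18], [19, 16], [19, 10], [19, 8], [19, 14], [19, 12], [19, 6], [19]],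
   [],
   []]

/-- data -/
def d10S2 : List (List (List ℕ)) :=
  [[],
   [],
   [],
   [],
   [[2], [0], [4], [8], [6], [10], [12], [16], [14], [18]],
   [[13, 2, 12], [13, 0, 12], [13, 5, 12], [13, 16], [13, 14], [13, 18], [13], [13, 8], [13, 6], [13, 10]],
   [],
   [],
   [],
   [],
   [[7, 2, 6], [7, 1, 6], [7, 4, 6], [7, 10], [7], [7, 8], [7, 14], [7, 18], [7, 12], [7, 16]],
   [[15, 2, 14], [15, 1, 14], [15, 5, 14], [15, 18], [15, 12], [15, 16], [15, 6], [15, 10], [15], [15, 8]],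
   [],
   [],
   [],
   [],
   [],
   [],
   [],
   [],
   [],
   [],
   [],
   [],
   [[2], [4], [0], [8], [12], [16], [6], [10], [14], [18]],
   [[7, 2, 6], [7, 4, 6], [7, 1, 6], [7, 10], [7, 14], [7, 18], [7], [7, 8], [7, 12], [7, 16]],
   [],
   [],
   [],
   [],
   [[13, 2, 12], [13, 5, 12], [13, 0, 12], [13, 16], [13], [13, 8], [13, 14], [13, 18], [13, 6], [13, 10]],
   [[15, 2, 14], [15, 5, 14], [15, 1, 14], [15, 18], [15, 6], [15, 10], [15, 12], [15, 16], [15], [15, 8]],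
   [],
   [],
   [],
   []]

/-- data -/
def d10S3 : List (List (List ℕ)) :=
  [[],
   [],
   [],
   [],
   [[9, 3, 8], [9, 0, 8], [9, 4, 8], [9], [9, 10], [9, 6], [9, 16], [9, 12], [9, 18], [9, 14]],
   [[17, 3, 16], [17, 0, 16], [17, 5, 16], [17, 12], [17, 18], [17, 14], [17, 8], [17], [17, 10], [17, 6]],
   [],
   [],
   [],
   [],
   [[11, 3, 10], [11, 1, 10], [11, 4, 10], [11, 6], [11, 8], [11], [11, 18], [11, 14], [11, 16], [11, 12]],
   [[19, 3, 18], [19, 1, 18], [19, 5, 18], [19, 14], [19, 16], [19, 12], [19, 10], [19, 6], [19, 8], [19]],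
   [],
   [],
   [],
   [],
   [],
   [],
   [],
   [],
   [],
   [],
   [],
   [],
   [[9, 3, 8], [9, 4, 8], [9, 0, 8], [9], [9, 16], [9, 12], [9, 10], [9, 6], [9, 18], [9, 14]],
   [[11, 3, 10], [11, 4, 10], [11, 1, 10], [11, 6], [11, 18], [11, 14], [11, 8], [11], [11, 16], [11, 12]],
   [],
   [],
   [],
   [],
   [[17, 3, 16], [17, 5, 16], [17, 0, 16], [17, 12], [17, 8], [17], [17, 18], [17, 14], [17, 10], [17, 6]],
   [[19, 3, 18], [19, 5, 18], [19, 1, 18], [19, 14], [19, 10], [19, 6], [19, 16], [19, 12], [19, 8], [19]],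
   [],
   [],
   [],
   []]

/-- data -/
def d10S4 : List (List (List ℕ)) :=
  [[],
   [],
   [[4], [0], [2], [12], [6], [14], [8], [16], [10], [18]],
   [[9, 4, 8], [9, 0, 8], [9, 3, 8], [9, 16], [9, 10], [9, 18], [9], [9, 12], [9, 6], [9, 14]],
   [],
   [],
   [],
   [],
   [[7, 4, 6], [7, 1, 6], [7, 2, 6], [7, 14], [7], [7, 12], [7, 10], [7, 18], [7, 8], [7, 16]],
   [[11, 4, 10], [11, 1, 10], [11, 3, 10], [11, 18], [11, 8], [11, 16], [11, 6], [11, 14], [11], [11, 12]],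
   [],
   [],
   [[4], [2], [0], [12], [8], [16], [6], [14], [10], [18]],
   [[7, 4, 6], [7, 2, 6], [7, 1, 6], [7, 14], [7, 10], [7, 18], [7], [7, 12], [7, 8], [7, 16]],
   [],
   [],
   [],
   [],
   [[9, 4, 8], [9, 3, 8], [9, 0, 8], [9, 16], [9], [9, 12], [9, 10], [9, 18], [9, 6], [9, 14]],
   [[11, 4, 10], [11, 3, 10], [11, 1, 10], [11, 18], [11, 6], [11, 14], [11, 8], [11, 16], [11], [11, 12]],
   [],
   [],
   [],
   [],
   [],
   [],
   [],
   [],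
   [],
   [],
   [],
   [],
   [],
   [],
   [],
   []]

/-- data -/
def d10S5 : List (List (List ℕ)) :=
  [[],
   [],
   [[13, 5, 12], [13, 0, 12], [13, 2, 12], [13], [13, 14], [13, 6], [13, 16], [13, 8], [13, 18], [13, 10]],
   [[17, 5, 16], [17, 0, 16], [17, 3, 16], [17, 8], [17, 18], [17, 10], [17, 12], [17], [17, 14], [17, 6]],
   [],
   [],
   [],
   [],
   [[15, 5, 14], [15, 1, 14], [15, 2, 14], [15, 6], [15, 12], [15], [15, 18], [15, 10], [15, 16], [15, 8]],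
   [[19, 5, 18], [19, 1, 18], [19, 3, 18], [19, 10], [19, 16], [19, 8], [19, 14], [19, 6], [19, 12], [19]],
   [],
   [],
   [[13, 5, 12], [13, 2, 12], [13, 0, 12], [13], [13, 16], [13, 8], [13, 14], [13, 6], [13, 18], [13, 10]],
   [[15, 5, 14], [15, 2, 14], [15, 1, 14], [15, 6], [15, 18], [15, 10], [15, 12], [15], [15, 16], [15, 8]],
   [],
   [],
   [],
   [],
   [[17, 5, 16], [17, 3, 16], [17, 0, 16], [17, 8], [17, 12], [17], [17, 18], [17, 10], [17, 14], [17, 6]],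
   [[19, 5, 18], [19, 3, 18], [19, 1, 18], [19, 10], [19, 14], [19, 6], [19, 16], [19, 8], [19, 12], [19]],
   [],
   [],
   [],
   [],
   [],
   [],
   [],
   [],
   [],
   [],
   [],
   [],
   [],
   [],
   [],
   []]

/-- data -/
def d10S : List (List (List (List ℕ))) := [d10S0, d10S1, d10S2, d10S3, d10S4, d10S5]

/-- data -/
def c10E0 : List (List (List ℕ)) :=
  [[],
   [[0], [1], [2], [3], [4], [5], [6], [7]],
   [],
   [],
   [],
   [[1, 1], [0], [2], [3], [5, 1], [4], [6], [7]],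
   [],
   [],
   [],
   [[0], [1], [3, 1], [2], [4], [5], [7, 1], [6]],
   [],
   [],
   [],
   [[1, 1], [0], [3, 1], [2], [5, 1], [4], [7, 1], [6]],
   [],
   [],
   [],
   [[1, 1], [0], [3, 1], [2], [4], [5], [6], [7]],
   [],
   [],
   [],
   [[0, 1], [1, 1], [3, 1], [2], [5, 1], [4], [6], [7]],
   [],
   [],
   [],
   [[1, 1], [0], [2, 1], [3, 1], [4], [5], [7, 1], [6]],
   [],
   [],
   [],
   [[0, 1], [1, 1], [2, 1], [3, 1], [5, 1], [4], [7, 1], [6]],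
   [],
   [],
   [],
   [[0], [1], [2], [3], [5, 1], [4], [7, 1], [6]],
   [],
   [],
   [],
   [[1, 1], [0], [2], [3], [4, 1], [5, 1], [7, 1], [6]],
   [],
   [],
   [],
   [[0], [1], [3, 1], [2], [5, 1], [4], [6, 1], [7, 1]],
   [],
   [],
   [],
   [[1, 1], [0], [3, 1], [2], [4, 1], [5, 1], [6, 1], [7, 1]],
   [],
   [],
   [],
   [[1, 1], [0], [3, 1], [2], [5, 1], [4], [7, 1], [6]],
   [],
   [],
   [],
   [[0, 1], [1, 1], [3, 1], [2], [4, 1], [5, 1], [7, 1], [6]],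
   [],
   [],
   [],
   [[1, 1], [0], [2, 1], [3, 1], [5, 1], [4], [6, 1], [7, 1]],
   [],
   [],
   [],
   [[0, 1], [1, 1], [2, 1], [3, 1], [4, 1], [5, 1], [6, 1], [7, 1]],
   [],
   [],
   [],
   [[0, 0], [1, 0], [2, 0], [3, 0], [4, 0], [5, 0], [6, 0], [7, 0]],
   [],
   [],
   [],
   [[1], [0, 0], [2, 0], [3, 0], [5], [4, 0], [6, 0], [7, 0]],
   [],
   [],
   [],
   [[0, 0], [1, 0], [3], [2, 0], [4, 0], [5, 0], [7], [6, 0]],
   [],
   [],
   [],
   [[1], [0, 0], [3], [2, 0], [5], [4, 0], [7], [6, 0]],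
   [],
   [],
   [],
   [[1], [0, 0], [3], [2, 0], [4, 0], [5, 0], [6, 0], [7, 0]],
   [],
   [],
   [],
   [[0], [1], [3], [2, 0], [5], [4, 0], [6, 0], [7, 0]],
   [],
   [],
   [],
   [[1], [0, 0], [2], [3], [4, 0], [5, 0], [7], [6, 0]],
   [],
   [],
   [],
   [[0], [1], [2], [3], [5], [4, 0], [7], [6, 0]],
   [],
   [],
   [],
   [[0, 0], [1, 0], [2, 0], [3, 0], [5], [4, 0], [7], [6, 0]],
   [],
   [],
   [],
   [[1], [0, 0], [2, 0], [3, 0], [4], [5], [7], [6, 0]],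
   [],
   [],
   [],
   [[0, 0], [1, 0], [3], [2, 0], [5], [4, 0], [6], [7]],
   [],
   [],
   [],
   [[1], [0, 0], [3], [2, 0], [4], [5], [6], [7]],
   [],
   [],
   [],
   [[1], [0, 0], [3], [2, 0], [5], [4, 0], [7], [6, 0]],
   [],
   [],
   [],
   [[0], [1], [3], [2, 0], [4], [5], [7], [6, 0]],
   [],
   [],
   [],
   [[1], [0, 0], [2], [3], [5], [4, 0], [6], [7]],
   [],
   [],
   [],
   [[0], [1], [2], [3], [4], [5], [6], [7]],
   [],
   []]

/-- data -/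
def c10E1 : List (List (List ℕ)) :=
  [[],
   [],
   [[0], [1], [2], [3], [4], [5], [6], [7]],
   [],
   [],
   [],
   [[1], [0, 0], [2], [3], [5], [4, 0], [6], [7]],
   [],
   [],
   [],
   [[0], [1], [3], [2, 0], [4], [5], [7], [6, 0]],
   [],
   [],
   [],
   [[1], [0, 0], [3], [2, 0], [5], [4, 0], [7], [6, 0]],
   [],
   [],
   [],
   [[1], [0, 0], [3], [2, 0], [4], [5], [6], [7]],
   [],
   [],
   [],
   [[0, 0], [1, 0], [3], [2, 0], [5], [4, 0], [6], [7]],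
   [],
   [],
   [],
   [[1], [0, 0], [2, 0], [3, 0], [4], [5], [7], [6, 0]],
   [],
   [],
   [],
   [[0, 0], [1, 0], [2, 0], [3, 0], [5], [4, 0], [7], [6, 0]],
   [],
   [],
   [],
   [[0], [1], [2], [3], [5], [4, 0], [7], [6, 0]],
   [],
   [],
   [],
   [[1], [0, 0], [2], [3], [4, 0], [5, 0], [7], [6, 0]],
   [],
   [],
   [],
   [[0], [1], [3], [2, 0], [5], [4, 0], [6, 0], [7, 0]],
   [],
   [],
   [],
   [[1], [0, 0], [3], [2, 0], [4, 0], [5, 0], [6, 0], [7, 0]],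
   [],
   [],
   [],
   [[1], [0, 0], [3], [2, 0], [5], [4, 0], [7], [6, 0]],
   [],
   [],
   [],
   [[0, 0], [1, 0], [3], [2, 0], [4, 0], [5, 0], [7], [6, 0]],
   [],
   [],
   [],
   [[1], [0, 0], [2, 0], [3, 0], [5], [4, 0], [6, 0], [7, 0]],
   [],
   [],
   [],
   [[0, 0], [1, 0], [2, 0], [3, 0], [4, 0], [5, 0], [6, 0], [7, 0]],
   [],
   [],
   [],
   [[0, 1], [1, 1], [2, 1], [3, 1], [4, 1], [5, 1], [6, 1], [7, 1]],
   [],
   [],
   [],
   [[1, 1], [0], [2, 1], [3, 1], [5, 1], [4], [6, 1], [7, 1]],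
   [],
   [],
   [],
   [[0, 1], [1, 1], [3, 1], [2], [4, 1], [5, 1], [7, 1], [6]],
   [],
   [],
   [],
   [[1, 1], [0], [3, 1], [2], [5, 1], [4], [7, 1], [6]],
   [],
   [],
   [],
   [[1, 1], [0], [3, 1], [2], [4, 1], [5, 1], [6, 1], [7, 1]],
   [],
   [],
   [],
   [[0], [1], [3, 1], [2], [5, 1], [4], [6, 1], [7, 1]],
   [],
   [],
   [],
   [[1, 1], [0], [2], [3], [4, 1], [5, 1], [7, 1], [6]],
   [],
   [],
   [],
   [[0], [1], [2], [3], [5, 1], [4], [7, 1], [6]],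
   [],
   [],
   [],
   [[0, 1], [1, 1], [2, 1], [3, 1], [5, 1], [4], [7, 1], [6]],
   [],
   [],
   [],
   [[1, 1], [0], [2, 1], [3, 1], [4], [5], [7, 1], [6]],
   [],
   [],
   [],
   [[0, 1], [1, 1], [3, 1], [2], [5, 1], [4], [6], [7]],
   [],
   [],
   [],
   [[1, 1], [0], [3, 1], [2], [4], [5], [6], [7]],
   [],
   [],
   [],
   [[1, 1], [0], [3, 1], [2], [5, 1], [4], [7, 1], [6]],
   [],
   [],
   [],
   [[0], [1], [3, 1], [2], [4], [5], [7, 1], [6]],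
   [],
   [],
   [],
   [[1, 1], [0], [2], [3], [5, 1], [4], [6], [7]],
   [],
   [],
   [],
   [[0], [1], [2], [3], [4], [5], [6], [7]],
   []]

/-- data -/
def c10E2 : List (List (List ℕ)) :=
  [[],
   [],
   [],
   [],
   [[0], [1], [2], [3], [4], [5], [6], [7]],
   [[2, 3], [1], [0], [3], [6, 3], [5], [4], [7]],
   [[0], [3, 3], [2], [1], [4], [7, 3], [6], [5]],
   [[2, 3], [3, 3], [0], [1], [6, 3], [7, 3], [4], [5]],
   [],
   [],
   [],
   [],
   [],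
   [],
   [],
   [],
   [],
   [],
   [],
   [],
   [[2, 3], [3, 3], [0], [1], [4], [5], [6], [7]],
   [[0, 3], [3, 3], [2, 3], [1], [6, 3], [5], [4], [7]],
   [[2, 3], [1, 3], [0], [3, 3], [4], [7, 3], [6], [5]],
   [[0, 3], [1, 3], [2, 3], [3, 3], [6, 3], [7, 3], [4], [5]],
   [],
   [],
   [],
   [],
   [],
   [],
   [],
   [],
   [],
   [],
   [],
   [],
   [[0], [1], [2], [3], [6, 3], [7, 3], [4], [5]],
   [[2, 3], [1], [0], [3], [4, 3], [7, 3], [6, 3], [5]],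
   [[0], [3, 3], [2], [1], [6, 3], [5, 3], [4], [7, 3]],
   [[2, 3], [3, 3], [0], [1], [4, 3], [5, 3], [6, 3], [7, 3]],
   [],
   [],
   [],
   [],
   [],
   [],
   [],
   [],
   [],
   [],
   [],
   [],
   [[2, 3], [3, 3], [0], [1], [6, 3], [7, 3], [4], [5]],
   [[0, 3], [3, 3], [2, 3], [1], [4, 3], [7, 3], [6, 3], [5]],
   [[2, 3], [1, 3], [0], [3, 3], [6, 3], [5, 3], [4], [7, 3]],
   [[0, 3], [1, 3], [2, 3], [3, 3], [4, 3], [5, 3], [6, 3], [7, 3]],
   [],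
   [],
   [],
   [],
   [],
   [],
   [],
   [],
   [],
   [],
   [],
   [],
   [[0, 2], [1, 2], [2, 2], [3, 2], [4, 2], [5, 2], [6, 2], [7, 2]],
   [[2], [1, 2], [0, 2], [3, 2], [6], [5, 2], [4, 2], [7, 2]],
   [[0, 2], [3], [2, 2], [1, 2], [4, 2], [7], [6, 2], [5, 2]],
   [[2], [3], [0, 2], [1, 2], [6], [7], [4, 2], [5, 2]],
   [],
   [],
   [],
   [],
   [],
   [],
   [],
   [],
   [],
   [],
   [],
   [],
   [[2], [3], [0, 2], [1, 2], [4, 2], [5, 2], [6, 2], [7, 2]],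
   [[0], [3], [2], [1, 2], [6], [5, 2], [4, 2], [7, 2]],
   [[2], [1], [0, 2], [3], [4, 2], [7], [6, 2], [5, 2]],
   [[0], [1], [2], [3], [6], [7], [4, 2], [5, 2]],
   [],
   [],
   [],
   [],
   [],
   [],
   [],
   [],
   [],
   [],
   [],
   [],
   [[0, 2], [1, 2], [2, 2], [3, 2], [6], [7], [4, 2], [5, 2]],
   [[2], [1, 2], [0, 2], [3, 2], [4], [7], [6], [5, 2]],
   [[0, 2], [3], [2, 2], [1, 2], [6], [5], [4, 2], [7]],
   [[2], [3], [0, 2], [1, 2], [4], [5], [6], [7]],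
   [],
   [],
   [],
   [],
   [],
   [],
   [],
   [],
   [],
   [],
   [],
   [],
   [[2], [3], [0, 2], [1, 2], [6], [7], [4, 2], [5, 2]],
   [[0], [3], [2], [1, 2], [4], [7], [6], [5, 2]],
   [[2], [1], [0, 2], [3], [6], [5], [4, 2], [7]],
   [[0], [1], [2], [3], [4], [5], [6], [7]],
   [],
   [],
   [],
   [],
   [],
   [],
   [],
   []]

/-- data -/
def c10E3 : List (List (List ℕ)) :=
  [[],
   [],
   [],
   [],
   [],
   [],
   [],
   [],
   [[0], [1], [2], [3], [4], [5], [6], [7]],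
   [[2], [1], [0, 2], [3], [6], [5], [4, 2], [7]],
   [[0], [3], [2], [1, 2], [4], [7], [6], [5, 2]],
   [[2], [3], [0, 2], [1, 2], [6], [7], [4, 2], [5, 2]],
   [],
   [],
   [],
   [],
   [],
   [],
   [],
   [],
   [],
   [],
   [],
   [],
   [[2], [3], [0, 2], [1, 2], [4], [5], [6], [7]],
   [[0, 2], [3], [2, 2], [1, 2], [6], [5], [4, 2], [7]],
   [[2], [1, 2], [0, 2], [3, 2], [4], [7], [6], [5, 2]],
   [[0, 2], [1, 2], [2, 2], [3, 2], [6], [7], [4, 2], [5, 2]],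
   [],
   [],
   [],
   [],
   [],
   [],
   [],
   [],
   [],
   [],
   [],
   [],
   [[0], [1], [2], [3], [6], [7], [4, 2], [5, 2]],
   [[2], [1], [0, 2], [3], [4, 2], [7], [6, 2], [5, 2]],
   [[0], [3], [2], [1, 2], [6], [5, 2], [4, 2], [7, 2]],
   [[2], [3], [0, 2], [1, 2], [4, 2], [5, 2], [6, 2], [7, 2]],
   [],
   [],
   [],
   [],
   [],
   [],
   [],
   [],
   [],
   [],
   [],
   [],
   [[2], [3], [0, 2], [1, 2], [6], [7], [4, 2], [5, 2]],
   [[0, 2], [3], [2, 2], [1, 2], [4, 2], [7], [6, 2], [5, 2]],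
   [[2], [1, 2], [0, 2], [3, 2], [6], [5, 2], [4, 2], [7, 2]],
   [[0, 2], [1, 2], [2, 2], [3, 2], [4, 2], [5, 2], [6, 2], [7, 2]],
   [],
   [],
   [],
   [],
   [],
   [],
   [],
   [],
   [],
   [],
   [],
   [],
   [[0, 3], [1, 3], [2, 3], [3, 3], [4, 3], [5, 3], [6, 3], [7, 3]],
   [[2, 3], [1, 3], [0], [3, 3], [6, 3], [5, 3], [4], [7, 3]],
   [[0, 3], [3, 3], [2, 3], [1], [4, 3], [7, 3], [6, 3], [5]],
   [[2, 3], [3, 3], [0], [1], [6, 3], [7, 3], [4], [5]],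
   [],
   [],
   [],
   [],
   [],
   [],
   [],
   [],
   [],
   [],
   [],
   [],
   [[2, 3], [3, 3], [0], [1], [4, 3], [5, 3], [6, 3], [7, 3]],
   [[0], [3, 3], [2], [1], [6, 3], [5, 3], [4], [7, 3]],
   [[2, 3], [1], [0], [3], [4, 3], [7, 3], [6, 3], [5]],
   [[0], [1], [2], [3], [6, 3], [7, 3], [4], [5]],
   [],
   [],
   [],
   [],
   [],
   [],
   [],
   [],
   [],
   [],
   [],
   [],
   [[0, 3], [1, 3], [2, 3], [3, 3], [6, 3], [7, 3], [4], [5]],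
   [[2, 3], [1, 3], [0], [3, 3], [4], [7, 3], [6], [5]],
   [[0, 3], [3, 3], [2, 3], [1], [6, 3], [5], [4], [7]],
   [[2, 3], [3, 3], [0], [1], [4], [5], [6], [7]],
   [],
   [],
   [],
   [],
   [],
   [],
   [],
   [],
   [],
   [],
   [],
   [],
   [[2, 3], [3, 3], [0], [1], [6, 3], [7, 3], [4], [5]],
   [[0], [3, 3], [2], [1], [4], [7, 3], [6], [5]],
   [[2, 3], [1], [0], [3], [6, 3], [5], [4], [7]],
   [[0], [1], [2], [3], [4], [5], [6], [7]],
   [],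
   [],
   [],
   []]

/-- data -/
def c10E4 : List (List (List ℕ)) :=
  [[],
   [],
   [],
   [],
   [],
   [],
   [],
   [],
   [],
   [],
   [],
   [],
   [],
   [],
   [],
   [],
   [[0], [1], [2], [3], [4], [5], [6], [7]],
   [[4, 5], [1], [6, 5], [3], [0], [5], [2], [7]],
   [[0], [5, 5], [2], [7, 5], [4], [1], [6], [3]],
   [[4, 5], [5, 5], [6, 5], [7, 5], [0], [1], [2], [3]],
   [[4, 5], [5, 5], [2], [3], [0], [1], [6], [7]],
   [[0, 5], [5, 5], [6, 5], [3], [4, 5], [1], [2], [7]],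
   [[4, 5], [1, 5], [2], [7, 5], [0], [5, 5], [6], [3]],
   [[0, 5], [1, 5], [6, 5], [7, 5], [4, 5], [5, 5], [2], [3]],
   [[0], [1], [6, 5], [7, 5], [4], [5], [2], [3]],
   [[4, 5], [1], [2, 5], [7, 5], [0], [5], [6, 5], [3]],
   [[0], [5, 5], [6, 5], [3, 5], [4], [1], [2], [7, 5]],
   [[4, 5], [5, 5], [2, 5], [3, 5], [0], [1], [6, 5], [7, 5]],
   [[4, 5], [5, 5], [6, 5], [7, 5], [0], [1], [2], [3]],
   [[0, 5], [5, 5], [2, 5], [7, 5], [4, 5], [1], [6, 5], [3]],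
   [[4, 5], [1, 5], [6, 5], [3, 5], [0], [5, 5], [2], [7, 5]],
   [[0, 5], [1, 5], [2, 5], [3, 5], [4, 5], [5, 5], [6, 5], [7, 5]],
   [],
   [],
   [],
   [],
   [],
   [],
   [],
   [],
   [],
   [],
   [],
   [],
   [],
   [],
   [],
   [],
   [],
   [],
   [],
   [],
   [],
   [],
   [],
   [],
   [],
   [],
   [],
   [],
   [],
   [],
   [],
   [],
   [],
   [],
   [],
   [],
   [],
   [],
   [],
   [],
   [],
   [],
   [],
   [],
   [],
   [],
   [],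
   [],
   [[0, 4], [1, 4], [2, 4], [3, 4], [4, 4], [5, 4], [6, 4], [7, 4]],
   [[4], [1, 4], [6], [3, 4], [0, 4], [5, 4], [2, 4], [7, 4]],
   [[0, 4], [5], [2, 4], [7], [4, 4], [1, 4], [6, 4], [3, 4]],
   [[4], [5], [6], [7], [0, 4], [1, 4], [2, 4], [3, 4]],
   [[4], [5], [2, 4], [3, 4], [0, 4], [1, 4], [6, 4], [7, 4]],
   [[0], [5], [6], [3, 4], [4], [1, 4], [2, 4], [7, 4]],
   [[4], [1], [2, 4], [7], [0, 4], [5], [6, 4], [3, 4]],
   [[0], [1], [6], [7], [4], [5], [2, 4], [3, 4]],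
   [[0, 4], [1, 4], [6], [7], [4, 4], [5, 4], [2, 4], [3, 4]],
   [[4], [1, 4], [2], [7], [0, 4], [5, 4], [6], [3, 4]],
   [[0, 4], [5], [6], [3], [4, 4], [1, 4], [2, 4], [7]],
   [[4], [5], [2], [3], [0, 4], [1, 4], [6], [7]],
   [[4], [5], [6], [7], [0, 4], [1, 4], [2, 4], [3, 4]],
   [[0], [5], [2], [7], [4], [1, 4], [6], [3, 4]],
   [[4], [1], [6], [3], [0, 4], [5], [2, 4], [7]],
   [[0], [1], [2], [3], [4], [5], [6], [7]],
   [],
   [],
   [],
   [],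
   [],
   [],
   [],
   [],
   [],
   [],
   [],
   [],
   [],
   [],
   [],
   [],
   [],
   [],
   [],
   [],
   [],
   [],
   [],
   [],
   [],
   [],
   [],
   [],
   [],
   [],
   [],
   []]

/-- data -/
def c10E5 : List (List (List ℕ)) :=
  [[],
   [],
   [],
   [],
   [],
   [],
   [],
   [],
   [],
   [],
   [],
   [],
   [],
   [],
   [],
   [],
   [],
   [],
   [],
   [],
   [],
   [],
   [],
   [],
   [],
   [],
   [],
   [],
   [],
   [],
   [],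
   [],
   [[0], [1], [2], [3], [4], [5], [6], [7]],
   [[4], [1], [6], [3], [0, 4], [5], [2, 4], [7]],
   [[0], [5], [2], [7], [4], [1, 4], [6], [3, 4]],
   [[4], [5], [6], [7], [0, 4], [1, 4], [2, 4], [3, 4]],
   [[4], [5], [2], [3], [0, 4], [1, 4], [6], [7]],
   [[0, 4], [5], [6], [3], [4, 4], [1, 4], [2, 4], [7]],
   [[4], [1, 4], [2], [7], [0, 4], [5, 4], [6], [3, 4]],
   [[0, 4], [1, 4], [6], [7], [4, 4], [5, 4], [2, 4], [3, 4]],
   [[0], [1], [6], [7], [4], [5], [2, 4], [3, 4]],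
   [[4], [1], [2, 4], [7], [0, 4], [5], [6, 4], [3, 4]],
   [[0], [5], [6], [3, 4], [4], [1, 4], [2, 4], [7, 4]],
   [[4], [5], [2, 4], [3, 4], [0, 4], [1, 4], [6, 4], [7, 4]],
   [[4], [5], [6], [7], [0, 4], [1, 4], [2, 4], [3, 4]],
   [[0, 4], [5], [2, 4], [7], [4, 4], [1, 4], [6, 4], [3, 4]],
   [[4], [1, 4], [6], [3, 4], [0, 4], [5, 4], [2, 4], [7, 4]],
   [[0, 4], [1, 4], [2, 4], [3, 4], [4, 4], [5, 4], [6, 4], [7, 4]],
   [],
   [],
   [],
   [],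
   [],
   [],
   [],
   [],
   [],
   [],
   [],
   [],
   [],
   [],
   [],
   [],
   [],
   [],
   [],
   [],
   [],
   [],
   [],
   [],
   [],
   [],
   [],
   [],
   [],
   [],
   [],
   [],
   [],
   [],
   [],
   [],
   [],
   [],
   [],
   [],
   [],
   [],
   [],
   [],
   [],
   [],
   [],
   [],
   [[0, 5], [1, 5], [2, 5], [3, 5], [4, 5], [5, 5], [6, 5], [7, 5]],
   [[4, 5], [1, 5], [6, 5], [3, 5], [0], [5, 5], [2], [7, 5]],
   [[0, 5], [5, 5], [2, 5], [7, 5], [4, 5], [1], [6, 5], [3]],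
   [[4, 5], [5, 5], [6, 5], [7, 5], [0], [1], [2], [3]],
   [[4, 5], [5, 5], [2, 5], [3, 5], [0], [1], [6, 5], [7, 5]],
   [[0], [5, 5], [6, 5], [3, 5], [4], [1], [2], [7, 5]],
   [[4, 5], [1], [2, 5], [7, 5], [0], [5], [6, 5], [3]],
   [[0], [1], [6, 5], [7, 5], [4], [5], [2], [3]],
   [[0, 5], [1, 5], [6, 5], [7, 5], [4, 5], [5, 5], [2], [3]],
   [[4, 5], [1, 5], [2], [7, 5], [0], [5, 5], [6], [3]],
   [[0, 5], [5, 5], [6, 5], [3], [4, 5], [1], [2], [7]],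
   [[4, 5], [5, 5], [2], [3], [0], [1], [6], [7]],
   [[4, 5], [5, 5], [6, 5], [7, 5], [0], [1], [2], [3]],
   [[0], [5, 5], [2], [7, 5], [4], [1], [6], [3]],
   [[4, 5], [1], [6, 5], [3], [0], [5], [2], [7]],
   [[0], [1], [2], [3], [4], [5], [6], [7]],
   [],
   [],
   [],
   [],
   [],
   [],
   [],
   [],
   [],
   [],
   [],
   [],
   [],
   [],
   [],
   []]

/-- data -/
def c10E : List (List (List (List ℕ))) := [c10E0, c10E1, c10E2, c10E3, c10E4, c10E5]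

/-- data -/
def c10S0 : List (List (List ℕ)) :=
  [[],
   [],
   [],
   [],
   [],
   [],
   [],
   [],
   [],
   [],
   [],
   [],
   [],
   [],
   [],
   [],
   [[0], [1], [2], [3], [4], [5], [6], [7]],
   [[4], [5], [6], [7], [0], [1], [2], [3]],
   [],
   [],
   [],
   [],
   [[2], [3], [0], [1], [6], [7], [4], [5]],
   [[6], [7], [4], [5], [2], [3], [0], [1]],
   [],
   [],
   [[0], [1], [4], [5], [2], [3], [6], [7]],
   [[2], [3], [6], [7], [0], [1], [4], [5]],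
   [],
   [],
   [],
   [],
   [[4], [5], [0], [1], [6], [7], [2], [3]],
   [[6], [7], [2], [3], [4], [5], [0], [1]],
   [],
   []]

/-- data -/
def c10S1 : List (List (List ℕ)) :=
  [[],
   [],
   [],
   [],
   [],
   [],
   [],
   [],
   [],
   [],
   [],
   [],
   [],
   [],
   [],
   [],
   [[1], [0], [3], [2], [5], [4], [7], [6]],
   [[5], [4], [7], [6], [1], [0], [3], [2]],
   [],
   [],
   [],
   [],
   [[3], [2], [1], [0], [7], [6], [5], [4]],
   [[7], [6], [5], [4], [3], [2], [1], [0]],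
   [],
   [],
   [[1], [0], [5], [4], [3], [2], [7], [6]],
   [[3], [2], [7], [6], [1], [0], [5], [4]],
   [],
   [],
   [],
   [],
   [[5], [4], [1], [0], [7], [6], [3], [2]],
   [[7], [6], [3], [2], [5], [4], [1], [0]],
   [],
   []]

/-- data -/
def c10S2 : List (List (List ℕ)) :=
  [[],
   [],
   [],
   [],
   [[0], [2], [1], [3], [4], [6], [5], [7]],
   [[4], [6], [5], [7], [0], [2], [1], [3]],
   [],
   [],
   [],
   [],
   [[1], [3], [0], [2], [5], [7], [4], [6]],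
   [[5], [7], [4], [6], [1], [3], [0], [2]],
   [],
   [],
   [],
   [],
   [],
   [],
   [],
   [],
   [],
   [],
   [],
   [],
   [[0], [2], [4], [6], [1], [3], [5], [7]],
   [[1], [3], [5], [7], [0], [2], [4], [6]],
   [],
   [],
   [],
   [],
   [[4], [6], [0], [2], [5], [7], [1], [3]],
   [[5], [7], [1], [3], [4], [6], [0], [2]],
   [],
   [],
   [],
   []]

/-- data -/
def c10S3 : List (List (List ℕ)) :=
  [[],
   [],
   [],
   [],
   [[2], [0], [3], [1], [6], [4], [7], [5]],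
   [[6], [4], [7], [5], [2], [0], [3], [1]],
   [],
   [],
   [],
   [],
   [[3], [1], [2], [0], [7], [5], [6], [4]],
   [[7], [5], [6], [4], [3], [1], [2], [0]],
   [],
   [],
   [],
   [],
   [],
   [],
   [],
   [],
   [],
   [],
   [],
   [],
   [[2], [0], [6], [4], [3], [1], [7], [5]],
   [[3], [1], [7], [5], [2], [0], [6], [4]],
   [],
   [],
   [],
   [],
   [[6], [4], [2], [0], [7], [5], [3], [1]],
   [[7], [5], [3], [1], [6], [4], [2], [0]],
   [],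
   [],
   [],
   []]

/-- data -/
def c10S4 : List (List (List ℕ)) :=
  [[],
   [],
   [[0], [4], [1], [5], [2], [6], [3], [7]],
   [[2], [6], [3], [7], [0], [4], [1], [5]],
   [],
   [],
   [],
   [],
   [[1], [5], [0], [4], [3], [7], [2], [6]],
   [[3], [7], [2], [6], [1], [5], [0], [4]],
   [],
   [],
   [[0], [4], [2], [6], [1], [5], [3], [7]],
   [[1], [5], [3], [7], [0], [4], [2], [6]],
   [],
   [],
   [],
   [],
   [[2], [6], [0], [4], [3], [7], [1], [5]],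
   [[3], [7], [1], [5], [2], [6], [0], [4]],
   [],
   [],
   [],
   [],
   [],
   [],
   [],
   [],
   [],
   [],
   [],
   [],
   [],
   [],
   [],
   []]

/-- data -/
def c10S5 : List (List (List ℕ)) :=
  [[],
   [],
   [[4], [0], [5], [1], [6], [2], [7], [3]],
   [[6], [2], [7], [3], [4], [0], [5], [1]],
   [],
   [],
   [],
   [],
   [[5], [1], [4], [0], [7], [3], [6], [2]],
   [[7], [3], [6], [2], [5], [1], [4], [0]],
   [],
   [],
   [[4], [0], [6], [2], [5], [1], [7], [3]],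
   [[5], [1], [7], [3], [4], [0], [6], [2]],
   [],
   [],
   [],
   [],
   [[6], [2], [4], [0], [7], [3], [5], [1]],
   [[7], [3], [5], [1], [6], [2], [4], [0]],
   [],
   [],
   [],
   [],
   [],
   [],
   [],
   [],
   [],
   [],
   [],
   [],
   [],
   [],
   [],
   []]

/-- data -/
def c10S : List (List (List (List ℕ))) := [c10S0, c10S1, c10S2, c10S3, c10S4, c10S5]

end Pool.Agent.MP_3ce0a0_al.H46
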