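import Mathlib

namespace Pool.Agent.MP_3ce0a0_al.H46

/-- data -/
def d7E0 : List (List (List ℕ)) :=
  [[],
   [[0], [2], [4], [6], [8], [10], [12]],
   [],
   [],
   [],
   [[1, 11], [2], [4], [12, 7], [8], [10], [12]],
   [],
   [],
   [],
   [[0], [10, 9, 3], [5, 8, 13], [6], [8], [10], [12]],
   [],
   [],
   [],
   [[1, 11], [10, 9, 3], [5, 8, 13], [12, 7], [8], [10], [12]],
   [],
   [],
   [],
   [[11, 1], [3, 10, 9], [4], [6], [8], [10], [12]],
   [],
   [],
   [],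
   [[0], [3, 10, 9], [4], [12, 7], [8], [10], [12]],
   [],
   [],
   [],
   [[11, 1], [2], [5, 8, 13], [6], [8], [10], [12]],
   [],
   [],
   [],
   [[0], [2], [5, 8, 13], [12, 7], [8], [10], [12]],
   [],
   [],
   [],
   [[0], [2], [8, 13, 5], [7, 12], [8], [10], [12]],
   [],
   [],
   [],
   [[1, 11], [2], [8, 13, 5], [6], [8], [10], [12]],
   [],
   [],
   [],
   [[0], [10, 9, 3], [4], [7, 12], [8], [10], [12]],
   [],
   [],
   [],
   [[1, 11], [10, 9, 3], [4], [6], [8], [10], [12]],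
   [],
   [],
   [],
   [[11, 1], [3, 10, 9], [8, 13, 5], [7, 12], [8], [10], [12]],
   [],
   [],
   [],
   [[0], [3, 10, 9], [8, 13, 5], [6], [8], [10], [12]],
   [],
   [],
   [],
   [[11, 1], [2], [4], [7, 12], [8], [10], [12]],
   [],
   [],
   [],
   [[0], [2], [4], [6], [8], [10], [12]],
   [],
   []]

/-- data -/
def d7E1 : List (List (List ℕ)) :=
  [[],
   [],
   [[0], [2], [4], [6], [8], [10], [12]],
   [],
   [],
   [],
   [[11, 1], [2], [4], [7, 12], [8], [10], [12]],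
   [],
   [],
   [],
   [[0], [3, 10, 9], [8, 13, 5], [6], [8], [10], [12]],
   [],
   [],
   [],
   [[11, 1], [3, 10, 9], [8, 13, 5], [7, 12], [8], [10], [12]],
   [],
   [],
   [],
   [[1, 11], [10, 9, 3], [4], [6], [8], [10], [12]],
   [],
   [],
   [],
   [[0], [10, 9, 3], [4], [7, 12], [8], [10], [12]],
   [],
   [],
   [],
   [[1, 11], [2], [8, 13, 5], [6], [8], [10], [12]],
   [],
   [],
   [],
   [[0], [2], [8, 13, 5], [7, 12], [8], [10], [12]],
   [],
   [],
   [],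
   [[0], [2], [5, 8, 13], [12, 7], [8], [10], [12]],
   [],
   [],
   [],
   [[11, 1], [2], [5, 8, 13], [6], [8], [10], [12]],
   [],
   [],
   [],
   [[0], [3, 10, 9], [4], [12, 7], [8], [10], [12]],
   [],
   [],
   [],
   [[11, 1], [3, 10, 9], [4], [6], [8], [10], [12]],
   [],
   [],
   [],
   [[1, 11], [10, 9, 3], [5, 8, 13], [12, 7], [8], [10], [12]],
   [],
   [],
   [],
   [[0], [10, 9, 3], [5, 8, 13], [6], [8], [10], [12]],
   [],
   [],
   [],
   [[1, 11], [2], [4], [12, 7], [8], [10], [12]],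
   [],
   [],
   [],
   [[0], [2], [4], [6], [8], [10], [12]],
   []]

/-- data -/
def d7E2 : List (List (List ℕ)) :=
  [[],
   [],
   [],
   [],
   [[0], [2], [4], [6], [8], [10], [12]],
   [[0, 2, 1], [0], [6], [7, 4, 6], [8], [0, 3, 10], [7, 4, 12]],
   [[0], [2], [4], [6], [8], [2, 8, 11, 1], [5, 8, 13, 6]],
   [[0, 2, 1], [0], [6], [7, 4, 6], [8], [0, 8, 11, 1], [7, 8, 13, 6]],
   [],
   [],
   [],
   [],
   [],
   [],
   [],
   [],
   [],
   [],
   [],
   [],
   [[2], [3, 0, 2], [4], [6], [8], [3, 11, 2, 8], [12]],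
   [[0], [2], [6], [7, 4, 6], [8], [1, 11, 2, 8], [7, 4, 12]],
   [[2], [3, 0, 2], [4], [6], [8], [3, 0, 10], [5, 8, 13, 6]],
   [[0], [2], [6], [7, 4, 6], [8], [10], [7, 8, 13, 6]],
   [],
   [],
   [],
   [],
   [],
   [],
   [],
   [],
   [],
   [],
   [],
   [],
   [[0], [2], [4, 6, 5], [4], [8], [10], [4, 13, 5, 8]],
   [[0, 2, 1], [0], [4], [6], [8], [0, 3, 10], [6, 13, 5, 8]],
   [[0], [2], [4, 6, 5], [4], [8], [2, 8, 11, 1], [4, 7, 12]],
   [[0, 2, 1], [0], [4], [6], [8], [0, 8, 11, 1], [12]],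
   [],
   [],
   [],
   [],
   [],
   [],
   [],
   [],
   [],
   [],
   [],
   [],
   [[2], [3, 0, 2], [4, 6, 5], [4], [8], [3, 11, 2, 8], [4, 13, 5, 8]],
   [[0], [2], [4], [6], [8], [1, 11, 2, 8], [6, 13, 5, 8]],
   [[2], [3, 0, 2], [4, 6, 5], [4], [8], [3, 0, 10], [4, 7, 12]],
   [[0], [2], [4], [6], [8], [10], [12]],
   [],
   [],
   [],
   [],
   [],
   [],
   [],
   []]

/-- data -/
def d7E3 : List (List (List ℕ)) :=
  [[],
   [],
   [],
   [],
   [],
   [],
   [],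
   [],
   [[0], [2], [4], [6], [8], [10], [12]],
   [[2], [3, 0, 2], [4, 6, 5], [4], [8], [3, 0, 10], [4, 7, 12]],
   [[0], [2], [4], [6], [8], [1, 11, 2, 8], [6, 13, 5, 8]],
   [[2], [3, 0, 2], [4, 6, 5], [4], [8], [3, 11, 2, 8], [4, 13, 5, 8]],
   [],
   [],
   [],
   [],
   [],
   [],
   [],
   [],
   [],
   [],
   [],
   [],
   [[0, 2, 1], [0], [4], [6], [8], [0, 8, 11, 1], [12]],
   [[0], [2], [4, 6, 5], [4], [8], [2, 8, 11, 1], [4, 7, 12]],
   [[0, 2, 1], [0], [4], [6], [8], [0, 3, 10], [6, 13, 5, 8]],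
   [[0], [2], [4, 6, 5], [4], [8], [10], [4, 13, 5, 8]],
   [],
   [],
   [],
   [],
   [],
   [],
   [],
   [],
   [],
   [],
   [],
   [],
   [[0], [2], [6], [7, 4, 6], [8], [10], [7, 8, 13, 6]],
   [[2], [3, 0, 2], [4], [6], [8], [3, 0, 10], [5, 8, 13, 6]],
   [[0], [2], [6], [7, 4, 6], [8], [1, 11, 2, 8], [7, 4, 12]],
   [[2], [3, 0, 2], [4], [6], [8], [3, 11, 2, 8], [12]],
   [],
   [],
   [],
   [],
   [],
   [],
   [],
   [],
   [],
   [],
   [],
   [],
   [[0, 2, 1], [0], [6], [7, 4, 6], [8], [0, 8, 11, 1], [7, 8, 13, 6]],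
   [[0], [2], [4], [6], [8], [2, 8, 11, 1], [5, 8, 13, 6]],
   [[0, 2, 1], [0], [6], [7, 4, 6], [8], [0, 3, 10], [7, 4, 12]],
   [[0], [2], [4], [6], [8], [10], [12]],
   [],
   [],
   [],
   []]

/-- data -/
def d7E4 : List (List (List ℕ)) :=
  [[],
   [],
   [],
   [],
   [],
   [],
   [],
   [],
   [],
   [],
   [],
   [],
   [],
   [],
   [],
   [],
   [[0], [2], [4], [6], [8], [10], [12]],
   [[1, 6, 0], [2, 4, 3], [2], [0], [2, 5, 8, 7, 0], [10, 7, 0], [12, 7, 0]],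
   [[0], [2], [4], [6], [4, 12, 9, 3, 1, 13, 6], [1, 13, 6], [12, 11, 1, 13, 6]],
   [[1, 6, 0], [2, 4, 3], [2], [0], [2, 12, 9, 3, 1, 13, 0], [1, 13, 0], [12, 11, 1, 13, 0]],
   [[6], [2], [4], [6, 0, 7], [8, 13, 6, 11, 7], [10, 13, 6, 11, 7], [6, 11, 7]],
   [[0], [2, 4, 3], [2], [6], [2, 5, 8, 13, 6, 11, 1], [10, 13, 6, 11, 1], [6, 11, 1]],
   [[6], [2], [4], [6, 0, 7], [4, 12, 9, 3, 10, 0, 7], [10, 0, 7], [12, 0, 7]],
   [[0], [2, 4, 3], [2], [6], [2, 12, 9, 3, 10], [10], [12]],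
   [[0], [4], [5, 2, 4], [6], [5, 10, 9, 4, 12], [10], [12]],
   [[1, 6, 0], [2], [4], [0], [3, 10, 9, 4, 12, 7, 0], [10, 7, 0], [12, 7, 0]],
   [[0], [4], [5, 2, 4], [6], [5, 2, 8, 11, 1, 13, 6], [1, 13, 6], [12, 11, 1, 13, 6]],
   [[1, 6, 0], [2], [4], [0], [8, 11, 1, 13, 0], [1, 13, 0], [12, 11, 1, 13, 0]],
   [[6], [4], [5, 2, 4], [6, 0, 7], [5, 10, 9, 4, 6, 11, 7], [10, 13, 6, 11, 7], [6, 11, 7]],
   [[0], [2], [4], [6], [3, 10, 9, 4, 6, 11, 1], [10, 13, 6, 11, 1], [6, 11, 1]],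
   [[6], [4], [5, 2, 4], [6, 0, 7], [5, 2, 8, 0, 7], [10, 0, 7], [12, 0, 7]],
   [[0], [2], [4], [6], [8], [10], [12]],
   [],
   [],
   [],
   [],
   [],
   [],
   [],
   [],
   [],
   [],
   [],
   [],
   [],
   [],
   [],
   [],
   [],
   [],
   [],
   [],
   [],
   [],
   [],
   [],
   [],
   [],
   [],
   [],
   [],
   [],
   [],
   []]

/-- data -/
def d7E5 : List (List (List ℕ)) :=
  [[],
   [],
   [],
   [],
   [],
   [],
   [],
   [],
   [],
   [],
   [],
   [],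
   [],
   [],
   [],
   [],
   [],
   [],
   [],
   [],
   [],
   [],
   [],
   [],
   [],
   [],
   [],
   [],
   [],
   [],
   [],
   [],
   [[0], [2], [4], [6], [8], [10], [12]],
   [[6], [4], [5, 2, 4], [6, 0, 7], [5, 2, 8, 0, 7], [10, 0, 7], [12, 0, 7]],
   [[0], [2], [4], [6], [3, 10, 9, 4, 6, 11, 1], [10, 13, 6, 11, 1], [6, 11, 1]],
   [[6], [4], [5, 2, 4], [6, 0, 7], [5, 10, 9, 4, 6, 11, 7], [10, 13, 6, 11, 7], [6, 11, 7]],
   [[1, 6, 0], [2], [4], [0], [8, 11, 1, 13, 0], [1, 13, 0], [12, 11, 1, 13, 0]],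
   [[0], [4], [5, 2, 4], [6], [5, 2, 8, 11, 1, 13, 6], [1, 13, 6], [12, 11, 1, 13, 6]],
   [[1, 6, 0], [2], [4], [0], [3, 10, 9, 4, 12, 7, 0], [10, 7, 0], [12, 7, 0]],
   [[0], [4], [5, 2, 4], [6], [5, 10, 9, 4, 12], [10], [12]],
   [[0], [2, 4, 3], [2], [6], [2, 12, 9, 3, 10], [10], [12]],
   [[6], [2], [4], [6, 0, 7], [4, 12, 9, 3, 10, 0, 7], [10, 0, 7], [12, 0, 7]],
   [[0], [2, 4, 3], [2], [6], [2, 5, 8, 13, 6, 11, 1], [10, 13, 6, 11, 1], [6, 11, 1]],
   [[6], [2], [4], [6, 0, 7], [8, 13, 6, 11, 7], [10, 13, 6, 11, 7], [6, 11, 7]],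
   [[1, 6, 0], [2, 4, 3], [2], [0], [2, 12, 9, 3, 1, 13, 0], [1, 13, 0], [12, 11, 1, 13, 0]],
   [[0], [2], [4], [6], [4, 12, 9, 3, 1, 13, 6], [1, 13, 6], [12, 11, 1, 13, 6]],
   [[1, 6, 0], [2, 4, 3], [2], [0], [2, 5, 8, 7, 0], [10, 7, 0], [12, 7, 0]],
   [[0], [2], [4], [6], [8], [10], [12]],
   [],
   [],
   [],
   [],
   [],
   [],
   [],
   [],
   [],
   [],
   [],
   [],
   [],
   [],
   [],
   []]

/-- data -/
def d7E : List (List (List (List ℕ))) := [d7E0, d7E1, d7E2, d7E3, d7E4, d7E5]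

/-- data -/
def d7S0 : List (List (List ℕ)) :=
  [[],
   [],
   [],
   [],
   [],
   [],
   [],
   [],
   [],
   [],
   [],
   [],
   [],
   [],
   [],
   [],
   [[0], [2], [4], [6], [8], [10], [12]],
   [[7], [5], [3], [1], [8], [12], [10]],
   [],
   [],
   [],
   [],
   [[3], [1], [7], [5], [9], [10, 9], [12, 9]],
   [[4], [6], [0], [2], [9], [12, 9], [10, 9]],
   [],
   [],
   [[1], [7], [5], [3], [12, 11], [11], [8, 11]],
   [[2], [4], [6], [0], [12, 11], [8, 11], [11]],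
   [],
   [],
   [],
   [],
   [[6], [0], [2], [4], [10, 13], [13], [8, 13]],
   [[5], [3], [1], [7], [10, 13], [8, 13], [13]],
   [],
   []]

/-- data -/
def d7S1 : List (List (List ℕ)) :=
  [[],
   [],
   [],
   [],
   [],
   [],
   [],
   [],
   [],
   [],
   [],
   [],
   [],
   [],
   [],
   [],
   [[0, 10], [11, 2, 8], [9, 4, 12], [13, 6], [9], [11], [13]],
   [[7, 12], [13, 5, 8], [9, 3, 10], [11, 1], [9], [13], [11]],
   [],
   [],
   [],
   [],
   [[9, 3, 10], [11, 1], [7, 12], [13, 5, 8], [8], [11, 8], [13, 8]],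
   [[9, 4, 12], [13, 6], [0, 10], [11, 2, 8], [8], [13, 8], [11, 8]],
   [],
   [],
   [[11, 1], [7, 12], [13, 5, 8], [9, 3, 10], [13, 10], [10], [9, 10]],
   [[11, 2, 8], [9, 4, 12], [13, 6], [0, 10], [13, 10], [9, 10], [10]],
   [],
   [],
   [],
   [],
   [[13, 6], [0, 10], [11, 2, 8], [9, 4, 12], [11, 12], [12], [9, 12]],
   [[13, 5, 8], [9, 3, 10], [11, 1], [7, 12], [11, 12], [9, 12], [12]],
   [],
   []]

/-- data -/
def d7S2 : List (List (List ℕ)) :=
  [[],
   [],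
   [],
   [],
   [[1], [0, 10], [13, 6], [7], [9], [0, 2], [7, 5]],
   [[6], [7, 12], [11, 1], [0], [9], [7, 5], [0, 2]],
   [],
   [],
   [],
   [],
   [[11, 1], [0], [6], [7, 12], [8], [0, 2, 8], [7, 5, 8]],
   [[13, 6], [7], [1], [0, 10], [8], [7, 5, 8], [0, 2, 8]],
   [],
   [],
   [],
   [],
   [],
   [],
   [],
   [],
   [],
   [],
   [],
   [],
   [[0], [6], [7, 12], [11, 1], [7, 5, 3, 1], [3, 1], [9, 3, 1]],
   [[0, 10], [13, 6], [7], [1], [7, 5, 3, 1], [9, 3, 1], [3, 1]],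
   [],
   [],
   [],
   [],
   [[7], [1], [0, 10], [13, 6], [0, 2, 4, 6], [4, 6], [9, 4, 6]],
   [[7, 12], [11, 1], [0], [6], [0, 2, 4, 6], [9, 4, 6], [4, 6]],
   [],
   [],
   [],
   []]

/-- data -/
def d7S3 : List (List (List ℕ)) :=
  [[],
   [],
   [],
   [],
   [[2], [3, 10, 9], [8, 13, 5], [4], [8], [3, 1], [4, 6]],
   [[5], [4, 12, 9], [8, 11, 2], [3], [8], [4, 6], [3, 1]],
   [],
   [],
   [],
   [],
   [[8, 11, 2], [3], [5], [4, 12, 9], [9], [3, 1, 9], [4, 6, 9]],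
   [[8, 13, 5], [4], [2], [3, 10, 9], [9], [4, 6, 9], [3, 1, 9]],
   [],
   [],
   [],
   [],
   [],
   [],
   [],
   [],
   [],
   [],
   [],
   [],
   [[3], [5], [4, 12, 9], [8, 11, 2], [4, 6, 0, 2], [0, 2], [8, 0, 2]],
   [[3, 10, 9], [8, 13, 5], [4], [2], [4, 6, 0, 2], [8, 0, 2], [0, 2]],
   [],
   [],
   [],
   [],
   [[4], [2], [3, 10, 9], [8, 13, 5], [3, 1, 7, 5], [7, 5], [8, 7, 5]],
   [[4, 12, 9], [8, 11, 2], [3], [5], [3, 1, 7, 5], [8, 7, 5], [7, 5]],
   [],
   [],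
   [],
   []]

/-- data -/
def d7S4 : List (List (List ℕ)) :=
  [[],
   [],
   [[0], [1, 11], [10, 9, 3], [2], [10, 13], [1, 7], [2, 4]],
   [[3], [2, 8, 11], [10, 0], [1], [10, 13], [2, 4], [1, 7]],
   [],
   [],
   [],
   [],
   [[10, 0], [1], [3], [2, 8, 11], [12, 11], [1, 7, 12, 11], [2, 4, 12, 11]],
   [[10, 9, 3], [2], [0], [1, 11], [12, 11], [2, 4, 12, 11], [1, 7, 12, 11]],
   [],
   [],
   [[1], [3], [2, 8, 11], [10, 0], [2, 4, 6, 0], [6, 0], [10, 13, 6, 0]],
   [[1, 11], [10, 9, 3], [2], [0], [2, 4, 6, 0], [10, 13, 6, 0], [6, 0]],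
   [],
   [],
   [],
   [],
   [[2], [0], [1, 11], [10, 9, 3], [1, 7, 5, 3], [5, 3], [10, 13, 5, 3]],
   [[2, 8, 11], [10, 0], [1], [3], [1, 7, 5, 3], [10, 13, 5, 3], [5, 3]],
   [],
   [],
   [],
   [],
   [],
   [],
   [],
   [],
   [],
   [],
   [],
   [],
   [],
   [],
   [],
   []]

/-- data -/
def d7S5 : List (List (List ℕ)) :=
  [[],
   [],
   [[7], [6, 13], [12, 9, 4], [5], [12, 11], [6, 0], [5, 3]],
   [[4], [5, 8, 13], [12, 7], [6], [12, 11], [5, 3], [6, 0]],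
   [],
   [],
   [],
   [],
   [[12, 7], [6], [4], [5, 8, 13], [10, 13], [6, 0, 10, 13], [5, 3, 10, 13]],
   [[12, 9, 4], [5], [7], [6, 13], [10, 13], [5, 3, 10, 13], [6, 0, 10, 13]],
   [],
   [],
   [[6], [4], [5, 8, 13], [12, 7], [5, 3, 1, 7], [1, 7], [12, 11, 1, 7]],
   [[6, 13], [12, 9, 4], [5], [7], [5, 3, 1, 7], [12, 11, 1, 7], [1, 7]],
   [],
   [],
   [],
   [],
   [[5], [7], [6, 13], [12, 9, 4], [6, 0, 2, 4], [2, 4], [12, 11, 2, 4]],
   [[5, 8, 13], [12, 7], [6], [4], [6, 0, 2, 4], [12, 11, 2, 4], [2, 4]],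
   [],
   [],
   [],
   [],
   [],
   [],
   [],
   [],
   [],
   [],
   [],
   [],
   [],
   [],
   [],
   []]

/-- data -/
def d7S : List (List (List (List ℕ))) := [d7S0, d7S1, d7S2, d7S3, d7S4, d7S5]

/-- data -/
def c7E0 : List (List (List ℕ)) :=
  [[],
   [[0], [], []],
   [],
   [],
   [],
   [[0], [0], []],
   [],
   [],
   [],
   [[0], [], []],
   [],
   [],
   [],
   [[0], [0], []],
   [],
   [],
   [],
   [[0], [], [0]],
   [],
   [],
   [],
   [[0], [0], [0]],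
   [],
   [],
   [],
   [[0], [], [0]],
   [],
   [],
   [],
   [[0], [0], [0]],
   [],
   [],
   [],
   [[0], [], []],
   [],
   [],
   [],
   [[0], [0], []],
   [],
   [],
   [],
   [[0], [], []],
   [],
   [],
   [],
   [[0], [0], []],
   [],
   [],
   [],
   [[0], [], [0]],
   [],
   [],
   [],
   [[0], [0], [0]],
   [],
   [],
   [],
   [[0], [], [0]],
   [],
   [],
   [],
   [[0], [0], [0]],
   [],
   [],
   [],
   [[0], [1], [1]],
   [],
   [],
   [],
   [[0], [], [1]],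
   [],
   [],
   [],
   [[0], [1], [1]],
   [],
   [],
   [],
   [[0], [], [1]],
   [],
   [],
   [],
   [[0], [1], []],
   [],
   [],
   [],
   [[0], [], []],
   [],
   [],
   [],
   [[0], [1], []],
   [],
   [],
   [],
   [[0], [], []],
   [],
   [],
   [],
   [[0], [1], [1]],
   [],
   [],
   [],
   [[0], [], [1]],
   [],
   [],
   [],
   [[0], [1], [1]],
   [],
   [],
   [],
   [[0], [], [1]],
   [],
   [],
   [],
   [[0], [1], []],
   [],
   [],
   [],
   [[0], [], []],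
   [],
   [],
   [],
   [[0], [1], []],
   [],
   [],
   [],
   [[0], [], []],
   [],
   []]

/-- data -/
def c7E1 : List (List (List ℕ)) :=
  [[],
   [],
   [[0], [], []],
   [],
   [],
   [],
   [[0], [1], []],
   [],
   [],
   [],
   [[0], [], []],
   [],
   [],
   [],
   [[0], [1], []],
   [],
   [],
   [],
   [[0], [], [1]],
   [],
   [],
   [],
   [[0], [1], [1]],
   [],
   [],
   [],
   [[0], [], [1]],
   [],
   [],
   [],
   [[0], [1], [1]],
   [],
   [],
   [],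
   [[0], [], []],
   [],
   [],
   [],
   [[0], [1], []],
   [],
   [],
   [],
   [[0], [], []],
   [],
   [],
   [],
   [[0], [1], []],
   [],
   [],
   [],
   [[0], [], [1]],
   [],
   [],
   [],
   [[0], [1], [1]],
   [],
   [],
   [],
   [[0], [], [1]],
   [],
   [],
   [],
   [[0], [1], [1]],
   [],
   [],
   [],
   [[0], [0], [0]],
   [],
   [],
   [],
   [[0], [], [0]],
   [],
   [],
   [],
   [[0], [0], [0]],
   [],
   [],
   [],
   [[0], [], [0]],
   [],
   [],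
   [],
   [[0], [0], []],
   [],
   [],
   [],
   [[0], [], []],
   [],
   [],
   [],
   [[0], [0], []],
   [],
   [],
   [],
   [[0], [], []],
   [],
   [],
   [],
   [[0], [0], [0]],
   [],
   [],
   [],
   [[0], [], [0]],
   [],
   [],
   [],
   [[0], [0], [0]],
   [],
   [],
   [],
   [[0], [], [0]],
   [],
   [],
   [],
   [[0], [0], []],
   [],
   [],
   [],
   [[0], [], []],
   [],
   [],
   [],
   [[0], [0], []],
   [],
   [],
   [],
   [[0], [], []],
   []]

/-- data -/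
def c7E2 : List (List (List ℕ)) :=
  [[],
   [],
   [],
   [],
   [[0], [], []],
   [[0], [2], []],
   [[0], [], []],
   [[0], [2], []],
   [],
   [],
   [],
   [],
   [],
   [],
   [],
   [],
   [],
   [],
   [],
   [],
   [[0], [], [2]],
   [[0], [2], [2]],
   [[0], [], [2]],
   [[0], [2], [2]],
   [],
   [],
   [],
   [],
   [],
   [],
   [],
   [],
   [],
   [],
   [],
   [],
   [[0], [], []],
   [[0], [2], []],
   [[0], [], []],
   [[0], [2], []],
   [],
   [],
   [],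
   [],
   [],
   [],
   [],
   [],
   [],
   [],
   [],
   [],
   [[0], [], [2]],
   [[0], [2], [2]],
   [[0], [], [2]],
   [[0], [2], [2]],
   [],
   [],
   [],
   [],
   [],
   [],
   [],
   [],
   [],
   [],
   [],
   [],
   [[0], [3], [3]],
   [[0], [], [3]],
   [[0], [3], [3]],
   [[0], [], [3]],
   [],
   [],
   [],
   [],
   [],
   [],
   [],
   [],
   [],
   [],
   [],
   [],
   [[0], [3], []],
   [[0], [], []],
   [[0], [3], []],
   [[0], [], []],
   [],
   [],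
   [],
   [],
   [],
   [],
   [],
   [],
   [],
   [],
   [],
   [],
   [[0], [3], [3]],
   [[0], [], [3]],
   [[0], [3], [3]],
   [[0], [], [3]],
   [],
   [],
   [],
   [],
   [],
   [],
   [],
   [],
   [],
   [],
   [],
   [],
   [[0], [3], []],
   [[0], [], []],
   [[0], [3], []],
   [[0], [], []],
   [],
   [],
   [],
   [],
   [],
   [],
   [],
   []]

/-- data -/
def c7E3 : List (List (List ℕ)) :=
  [[],
   [],
   [],
   [],
   [],
   [],
   [],
   [],
   [[0], [], []],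
   [[0], [3], []],
   [[0], [], []],
   [[0], [3], []],
   [],
   [],
   [],
   [],
   [],
   [],
   [],
   [],
   [],
   [],
   [],
   [],
   [[0], [], [3]],
   [[0], [3], [3]],
   [[0], [], [3]],
   [[0], [3], [3]],
   [],
   [],
   [],
   [],
   [],
   [],
   [],
   [],
   [],
   [],
   [],
   [],
   [[0], [], []],
   [[0], [3], []],
   [[0], [], []],
   [[0], [3], []],
   [],
   [],
   [],
   [],
   [],
   [],
   [],
   [],
   [],
   [],
   [],
   [],
   [[0], [], [3]],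
   [[0], [3], [3]],
   [[0], [], [3]],
   [[0], [3], [3]],
   [],
   [],
   [],
   [],
   [],
   [],
   [],
   [],
   [],
   [],
   [],
   [],
   [[0], [2], [2]],
   [[0], [], [2]],
   [[0], [2], [2]],
   [[0], [], [2]],
   [],
   [],
   [],
   [],
   [],
   [],
   [],
   [],
   [],
   [],
   [],
   [],
   [[0], [2], []],
   [[0], [], []],
   [[0], [2], []],
   [[0], [], []],
   [],
   [],
   [],
   [],
   [],
   [],
   [],
   [],
   [],
   [],
   [],
   [],
   [[0], [2], [2]],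
   [[0], [], [2]],
   [[0], [2], [2]],
   [[0], [], [2]],
   [],
   [],
   [],
   [],
   [],
   [],
   [],
   [],
   [],
   [],
   [],
   [],
   [[0], [2], []],
   [[0], [], []],
   [[0], [2], []],
   [[0], [], []],
   [],
   [],
   [],
   []]

/-- data -/
def c7E4 : List (List (List ℕ)) :=
  [[],
   [],
   [],
   [],
   [],
   [],
   [],
   [],
   [],
   [],
   [],
   [],
   [],
   [],
   [],
   [],
   [[0], [], []],
   [[0], [], [4]],
   [[0], [], []],
   [[0], [], [4]],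
   [[0], [4], []],
   [[0], [4], [4]],
   [[0], [4], []],
   [[0], [4], [4]],
   [[0], [], []],
   [[0], [], [4]],
   [[0], [], []],
   [[0], [], [4]],
   [[0], [4], []],
   [[0], [4], [4]],
   [[0], [4], []],
   [[0], [4], [4]],
   [],
   [],
   [],
   [],
   [],
   [],
   [],
   [],
   [],
   [],
   [],
   [],
   [],
   [],
   [],
   [],
   [],
   [],
   [],
   [],
   [],
   [],
   [],
   [],
   [],
   [],
   [],
   [],
   [],
   [],
   [],
   [],
   [],
   [],
   [],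
   [],
   [],
   [],
   [],
   [],
   [],
   [],
   [],
   [],
   [],
   [],
   [],
   [],
   [[0], [5], [5]],
   [[0], [5], []],
   [[0], [5], [5]],
   [[0], [5], []],
   [[0], [], [5]],
   [[0], [], []],
   [[0], [], [5]],
   [[0], [], []],
   [[0], [5], [5]],
   [[0], [5], []],
   [[0], [5], [5]],
   [[0], [5], []],
   [[0], [], [5]],
   [[0], [], []],
   [[0], [], [5]],
   [[0], [], []],
   [],
   [],
   [],
   [],
   [],
   [],
   [],
   [],
   [],
   [],
   [],
   [],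
   [],
   [],
   [],
   [],
   [],
   [],
   [],
   [],
   [],
   [],
   [],
   [],
   [],
   [],
   [],
   [],
   [],
   [],
   [],
   []]

/-- data -/
def c7E5 : List (List (List ℕ)) :=
  [[],
   [],
   [],
   [],
   [],
   [],
   [],
   [],
   [],
   [],
   [],
   [],
   [],
   [],
   [],
   [],
   [],
   [],
   [],
   [],
   [],
   [],
   [],
   [],
   [],
   [],
   [],
   [],
   [],
   [],
   [],
   [],
   [[0], [], []],
   [[0], [], [5]],
   [[0], [], []],
   [[0], [], [5]],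
   [[0], [5], []],
   [[0], [5], [5]],
   [[0], [5], []],
   [[0], [5], [5]],
   [[0], [], []],
   [[0], [], [5]],
   [[0], [], []],
   [[0], [], [5]],
   [[0], [5], []],
   [[0], [5], [5]],
   [[0], [5], []],
   [[0], [5], [5]],
   [],
   [],
   [],
   [],
   [],
   [],
   [],
   [],
   [],
   [],
   [],
   [],
   [],
   [],
   [],
   [],
   [],
   [],
   [],
   [],
   [],
   [],
   [],
   [],
   [],
   [],
   [],
   [],
   [],
   [],
   [],
   [],
   [],
   [],
   [],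
   [],
   [],
   [],
   [],
   [],
   [],
   [],
   [],
   [],
   [],
   [],
   [],
   [],
   [[0], [4], [4]],
   [[0], [4], []],
   [[0], [4], [4]],
   [[0], [4], []],
   [[0], [], [4]],
   [[0], [], []],
   [[0], [], [4]],
   [[0], [], []],
   [[0], [4], [4]],
   [[0], [4], []],
   [[0], [4], [4]],
   [[0], [4], []],
   [[0], [], [4]],
   [[0], [], []],
   [[0], [], [4]],
   [[0], [], []],
   [],
   [],
   [],
   [],
   [],
   [],
   [],
   [],
   [],
   [],
   [],
   [],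
   [],
   [],
   [],
   []]

/-- data -/
def c7E : List (List (List (List ℕ))) := [c7E0, c7E1, c7E2, c7E3, c7E4, c7E5]

/-- data -/
def c7S0 : List (List (List ℕ)) :=
  [[],
   [],
   [],
   [],
   [],
   [],
   [],
   [],
   [],
   [],
   [],
   [],
   [],
   [],
   [],
   [],
   [[0], [], []],
   [[0], [], [5]],
   [],
   [],
   [],
   [],
   [[0], [3], []],
   [[0], [3], [5]],
   [],
   [],
   [[1], [], []],
   [[1], [], [3]],
   [],
   [],
   [],
   [],
   [[1], [5], []],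
   [[1], [5], [3]],
   [],
   []]

/-- data -/
def c7S1 : List (List (List ℕ)) :=
  [[],
   [],
   [],
   [],
   [],
   [],
   [],
   [],
   [],
   [],
   [],
   [],
   [],
   [],
   [],
   [],
   [[0], [1], []],
   [[0], [1], [5]],
   [],
   [],
   [],
   [],
   [[0], [1, 3], []],
   [[0], [1, 3], [5]],
   [],
   [],
   [[1], [], [1]],
   [[1], [], [1, 3]],
   [],
   [],
   [],
   [],
   [[1], [5], [1]],
   [[1], [5], [1, 3]],
   [],
   []]

/-- data -/
def c7S2 : List (List (List ℕ)) :=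
  [[],
   [],
   [],
   [],
   [[0], [], []],
   [[0], [], [5]],
   [],
   [],
   [],
   [],
   [[0], [1], []],
   [[0], [1], [5]],
   [],
   [],
   [],
   [],
   [],
   [],
   [],
   [],
   [],
   [],
   [],
   [],
   [[1], [], []],
   [[1], [], [1]],
   [],
   [],
   [],
   [],
   [[1], [5], []],
   [[1], [5], [1]],
   [],
   [],
   [],
   []]

/-- data -/
def c7S3 : List (List (List ℕ)) :=
  [[],
   [],
   [],
   [],
   [[0], [3], []],
   [[0], [3], [5]],
   [],
   [],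
   [],
   [],
   [[0], [3, 1], []],
   [[0], [3, 1], [5]],
   [],
   [],
   [],
   [],
   [],
   [],
   [],
   [],
   [],
   [],
   [],
   [],
   [[1], [], [3]],
   [[1], [], [3, 1]],
   [],
   [],
   [],
   [],
   [[1], [5], [3]],
   [[1], [5], [3, 1]],
   [],
   [],
   [],
   []]

/-- data -/
def c7S4 : List (List (List ℕ)) :=
  [[],
   [],
   [[1], [], []],
   [[1], [], [3]],
   [],
   [],
   [],
   [],
   [[1], [1], []],
   [[1], [1], [3]],
   [],
   [],
   [[0], [], []],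
   [[0], [], [1]],
   [],
   [],
   [],
   [],
   [[0], [3], []],
   [[0], [3], [1]],
   [],
   [],
   [],
   [],
   [],
   [],
   [],
   [],
   [],
   [],
   [],
   [],
   [],
   [],
   [],
   []]

/-- data -/
def c7S5 : List (List (List ℕ)) :=
  [[],
   [],
   [[1], [5], []],
   [[1], [5], [3]],
   [],
   [],
   [],
   [],
   [[1], [5, 1], []],
   [[1], [5, 1], [3]],
   [],
   [],
   [[0], [], [5]],
   [[0], [], [5, 1]],
   [],
   [],
   [],
   [],
   [[0], [3], [5]],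
   [[0], [3], [5, 1]],
   [],
   [],
   [],
   [],
   [],
   [],
   [],
   [],
   [],
   [],
   [],
   [],
   [],
   [],
   [],
   []]

/-- data -/
def c7S : List (List (List (List ℕ))) := [c7S0, c7S1, c7S2, c7S3, c7S4, c7S5]

end Pool.Agent.MP_3ce0a0_al.H46
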