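import Mathlib

/-! Directions in the Cayley tree of a free group, Whitehead automorphisms and cut functions. -/

namespace Pool.Agent.MP_3ce0a0_al.H46

open FreeGroup

variable {ι : Type}

/-- inverse letter -/
def iv (y : ι × Bool) : ι × Bool := (y.1, !y.2)

/-- a letter as a group element -/
def lt (y : ι × Bool) : FreeGroup ι := mk [y]

@[simp] lemma iv_iv (y : ι × Bool) : iv (iv y) = y := by simp [iv]

@[simp] lemma iv_fst (y : ι × Bool) : (iv y).1 = y.1 := rfl

lemma iv_ne (y : ι × Bool) : iv y ≠ y := by
  rcases y with ⟨i, _ | _⟩ <;> simp [iv]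

lemma iv_inj {y z : ι × Bool} (h : iv y = iv z) : y = z := by
  rw [← iv_iv y, h, iv_iv]

lemma eq_or_iv {y a : ι × Bool} (h : y.1 = a.1) : y = a ∨ y = iv a := by
  rcases y with ⟨i, _ | _⟩ <;> rcases a with ⟨k, _ | _⟩ <;> simp_all [iv]

lemma lt_iv (y : ι × Bool) : lt (iv y) = (lt y)⁻¹ := by
  simp [lt, iv, inv_mk, invRev]

lemma lt_true (i : ι) : lt (i, true) = of i := rfl

lemma lt_false (i : ι) : lt (i, false) = (of i)⁻¹ := lt_iv (i, true)

/-- `lt a` or `1` -/
def pw (b : Bool) (a : ι × Bool) : FreeGroup ι := cond b (lt a) 1

@[simp] lemma pw_true (a : ι × Bool) : pw true a = lt a := rfl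
@[simp] lemma pw_false (a : ι × Bool) : pw false a = 1 := rfl

section ops
variable {P : Type} [DecidableEq P] (j : ι × Bool → P)

/-- the image of `B` after the move `(A,a)` -/
def star (A : P → Bool) (a : ι × Bool) (B : P → Bool) : P → Bool :=
  fun p => cond (B (j (iv a))) ((A p || B p) && !decide (p = j a)) (B p)

/-- the set of the inverse move -/
def flp (A : P → Bool) (a : ι × Bool) : P → Bool :=
  fun p => (A p && !decide (p = j a)) || decide (p = j (iv a))

/-- complement -/
def cmp (A : P → Bool) : P → Bool := fun p => !A p

/-- singleton -/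
def sgl (a : ι × Bool) : P → Bool := fun p => decide (p = j a)

/-- complement of the union, with `a` added -/
def rest (A B : P → Bool) (a : ι × Bool) : P → Bool :=
  fun p => (!A p && !B p) || decide (p = j a)

/-- valid Whitehead datum -/
def Vd (A : P → Bool) (a : ι × Bool) : Prop := A (j a) = true ∧ A (j (iv a)) = false

/-- disjoint -/
def Dj (A B : P → Bool) : Prop := ∀ p, A p = true → B p = false

end ops

/-- signed permutation acting on letters -/
def act (π : ι → ι × Bool) (y : ι × Bool) : ι × Bool := cond y.2 (π y.1) (iv (π y.1))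

/-- valid signed permutation -/
def VW (π : ι → ι × Bool) : Prop := Function.Injective fun i => (π i).1

/-- product of signed permutations -/
def wmul (π π' : ι → ι × Bool) : ι → ι × Bool := fun i => act π (π' i)

/-- the identity -/
def wone : ι → ι × Bool := fun i => (i, true)

lemma act_iv (π : ι → ι × Bool) (y : ι × Bool) : act π (iv y) = iv (act π y) := by
  rcases y with ⟨i, _ | _⟩ <;> simp [act, iv]

lemma act_fst (π : ι → ι × Bool) (y : ι × Bool) : (act π y).1 = (π y.1).1 := by
  rcases y with ⟨i, _ | _⟩ <;> simp [act, iv]

lemma act_inj {π : ι → ι × Bool} (h : VW π) : Function.Injective (act π) := by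
  intro y z e
  have e1 : y.1 = z.1 := h (by simpa [act_fst] using congrArg Prod.fst e)
  rcases eq_or_iv e1 with k | k
  · exact k
  · rw [k, act_iv] at e; exact absurd e (iv_ne _)

lemma act_wmul (π π' : ι → ι × Bool) (y : ι × Bool) :
    act (wmul π π') y = act π (act π' y) := by
  rcases y with ⟨i, _ | _⟩ <;> simp [act, wmul]
  · have := act_iv π (π' i); simp [act] at this; simp [this]

lemma act_wone (y : ι × Bool) : act wone y = y := by
  rcases y with ⟨i, _ | _⟩ <;> simp [act, wone, iv]

lemma VW.mul {π π' : ι → ι × Bool} (h : VW π) (h' : VW π') : VW (wmul π π') := by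
  intro i k e
  simp only [wmul, act_fst] at e
  exact h' (h e)

lemma VW_one : VW (wone : ι → ι × Bool) := fun _ _ e => e

variable [DecidableEq ι]

/-- the rotation `a ↦ c`, `c ↦ a⁻¹` -/
def rot (a c : ι × Bool) : ι → ι × Bool := fun i =>
  if i = a.1 then cond a.2 c (iv c) else if i = c.1 then cond c.2 (iv a) a else (i, true)

lemma VW_rot {a c : ι × Bool} (h : c.1 ≠ a.1) : VW (rot a c) := by
  have f : ∀ i, (rot a c i).1 = Equiv.swap a.1 c.1 i := by
    intro i
    unfold rot
    by_cases h1 : i = a.1
    · subst h1; cases a.2 <;> simp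
    · by_cases h2 : i = c.1
      · subst h2; cases c.2 <;> simp [h]
      · simp [h1, h2, Equiv.swap_apply_of_ne_of_ne h1 h2]
  intro i k e
  simp only [f] at e
  exact (Equiv.swap a.1 c.1).injective e

/-- the half-edge at the identity through which the geodesic to `h` leaves -/
def dir (h : FreeGroup ι) : Option (ι × Bool) := (h.toWord.head?).map iv

@[simp] lemma dir_one : dir (1 : FreeGroup ι) = none := by simp [dir]

lemma word_mul {y : ι × Bool} {g : FreeGroup ι} (h : dir g ≠ some y) :
    (lt y * g).toWord = y :: g.toWord := by
  have e : lt y * g = mk (y :: g.toWord) := by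
    conv_lhs => rw [← mk_toWord (x := g), lt, mul_mk]
    rfl
  rw [e, toWord_mk, reduce.cons, reduce_toWord]
  unfold dir at h
  rcases hw : g.toWord with _ | ⟨z, t⟩
  · rfl
  · rw [hw] at h
    have : ¬ (y.1 = z.1 ∧ y.2 = !z.2) := fun k => h (by
      simp only [List.head?_cons, Option.map_some, iv, Option.some.injEq]
      exact Prod.ext k.1.symm k.2.symm)
    simp [this]

lemma dir_mul {y : ι × Bool} {g : FreeGroup ι} (h : dir g ≠ some y) :
    dir (lt y * g) = some (iv y) := by
  unfold dir; rw [word_mul h]; rfl

lemma ind {Q : FreeGroup ι → Prop} (h1 : Q 1)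
    (hs : ∀ y g, dir g ≠ some y → Q g → Q (lt y * g)) (h : FreeGroup ι) : Q h := by
  suffices a : ∀ w : List (ι × Bool), IsReduced w → Q (mk w) by
    simpa [mk_toWord] using a h.toWord isReduced_toWord
  intro w
  induction w with
  | nil => intro _; exact h1
  | cons y t ih =>
    intro r
    have rt : IsReduced t := List.IsChain.tail r
    have e : mk (y :: t) = lt y * mk t := by rw [lt, mul_mk]; rfl
    rw [e]
    refine hs y _ ?_ (ih rt)
    unfold dir
    rw [toWord_mk, rt.reduce_eq]
    rcases t with _ | ⟨z, t⟩
    · simp
    · intro k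
      simp only [List.head?_cons, Option.map_some, Option.some.injEq] at k
      have := (List.isChain_cons_cons.1 r).1
      subst k
      simp [iv] at this

lemma dir_iv (y : ι × Bool) (g : FreeGroup ι) :
    dir g = some (iv y) ↔ dir ((lt y)⁻¹ * g) ≠ some y := by
  constructor
  · induction g using ind with
    | h1 => simp
    | hs z g h _ =>
      rw [dir_mul h]
      intro k
      have : z = y := iv_inj (Option.some.inj k)
      subst this
      simpa using h
  · intro h
    simpa using dir_mul h

lemma dir_mul_right (y : ι × Bool) (g : FreeGroup ι) :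
    g = 1 ∨ g = (lt y)⁻¹ ∨ dir (g * lt y) = dir g := by
  induction g using ind with
  | h1 => simp
  | hs z g h ih =>
    right
    rcases ih with k | k | k
    · subst k
      by_cases e : z = iv y
      · left; simp [e, lt_iv]
      · right
        have : dir (lt y) = some (iv y) := by simpa using dir_mul (y := y) (g := 1) (by simp)
        rw [dir_mul h, mul_one, dir_mul]
        rw [this]; exact fun k => e (Option.some.inj k).symm
    · right
      rw [dir_mul h, k, inv_mul_cancel_right]
      simpa using dir_mul (y := z) (g := 1) (by simp)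
    · right
      rw [dir_mul h, mul_assoc, dir_mul (by rw [k]; exact h)]

lemma fin_dir (w : FreeGroup ι) : {g : FreeGroup ι | dir g ≠ dir (g * w)}.Finite := by
  induction w using ind with
  | h1 => simp
  | hs y w _ ih =>
    refine (((Set.finite_singleton (1 : FreeGroup ι)).union (Set.finite_singleton (lt y)⁻¹)).union
      (ih.preimage (f := fun g => g * lt y) (mul_left_injective _).injOn)).subset ?_
    intro g hg
    rcases dir_mul_right y g with k | k | k
    · simp [k]
    · simp [k]
    · right
      simp only [Set.mem_preimage, Set.mem_ofPred_eq] at hg ⊢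
      rw [k, mul_assoc]; exact hg

/-- `σ` is the Whitehead automorphism with datum `(A,a)` -/
def IsWh (σ : MulAut (FreeGroup ι)) (A : Option (ι × Bool) → Bool) (a : ι × Bool) : Prop :=
  σ (lt a) = lt a ∧ ∀ y : ι × Bool, y.1 ≠ a.1 → σ (lt y) =
    pw (A none) a * (pw (A (some (iv y))) a)⁻¹ * lt y * pw (A (some y)) a * (pw (A none) a)⁻¹

/-- `σ` is the signed permutation `π` -/
def IsPm (σ : MulAut (FreeGroup ι)) (π : ι → ι × Bool) : Prop := ∀ y, σ (lt y) = lt (act π y)

lemma dir_pm {σ : MulAut (FreeGroup ι)} {π : ι → ι × Bool} (v : VW π) (h : IsPm σ π)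
    (g : FreeGroup ι) : dir (σ g) = (dir g).map (act π) := by
  induction g using ind with
  | h1 => simp
  | hs y g k ih =>
    rw [_root_.map_mul, h, dir_mul k, dir_mul, Option.map_some, act_iv]
    rw [ih]
    intro e
    rcases hd : dir g with _ | z
    · simp [hd] at e
    · rw [hd] at e k
      exact k (congrArg some (act_inj v (Option.some.inj e)))

section wh
variable {σ : MulAut (FreeGroup ι)} {A : Option (ι × Bool) → Bool} {a : ι × Bool}

/-- the invariant of the induction -/
def Inv (A : Option (ι × Bool) → Bool) (a : ι × Bool) (d n : Option (ι × Bool)) : Prop :=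
  (d ≠ some a → d ≠ some (iv a) → n = d) ∧
  (d = some a → n = some a ∨ (A n = false ∧ n ≠ some (iv a))) ∧
  (d = some (iv a) → n = some (iv a) ∨ (A n = true ∧ n ≠ some a))

lemma f1 (v : Vd some A a) {d : Option (ι × Bool)} {m : FreeGroup ι}
    (I : Inv A a d (dir (pw (A d) a * m))) (h : A d = true) : dir m = some a := by
  rw [h, pw_true] at I
  have : dir (lt a * m) ≠ some (iv a) := by
    by_cases e : d = some a
    · rcases I.2.1 e with k | k
      · rw [k]; exact fun k => iv_ne a (Option.some.inj k).symm
      · exact k.2
    · have e2 : d ≠ some (iv a) := fun k => by rw [k, v.2] at h; simp at h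
      rw [I.1 e e2]; exact e2
  simpa [lt_iv] using dir_mul this

lemma f2 (v : Vd some A a) {d : Option (ι × Bool)} {m : FreeGroup ι}
    (I : Inv A a d (dir (pw (A d) a * m))) (h : A d = false) : dir (lt a * m) = some (iv a) := by
  rw [h, pw_false, one_mul] at I
  apply dir_mul
  by_cases e : d = some (iv a)
  · rcases I.2.2 e with k | k
    · rw [k]; exact fun k => iv_ne a (Option.some.inj k)
    · exact k.2
  · have e2 : d ≠ some a := fun k => by rw [k, v.1] at h; simp at h
    rw [I.1 e2 e]; exact e2

lemma inv_wh (v : Vd some A a) (w : IsWh σ A a) (h : FreeGroup ι) :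
    Inv A a (dir h) (dir (pw (A (dir h)) a * ((pw (A none) a)⁻¹ * σ h))) := by
  have c : (pw (A none) a)⁻¹ * lt a = lt a * (pw (A none) a)⁻¹ := by
    cases A none <;> simp
  induction h using ind with
  | h1 => simp [Inv]
  | hs y g k I =>
    rw [dir_mul k, _root_.map_mul]
    set m := (pw (A none) a)⁻¹ * σ g with hm
    by_cases hy : y.1 = a.1
    · rcases eq_or_iv hy with e | e
      · subst e
        have e1 : pw (A (some (iv y))) y * ((pw (A none) y)⁻¹ * (σ (lt y) * σ g)) = lt y * m := by
          rw [v.2, w.1, hm, pw_false, one_mul, ← mul_assoc, c, mul_assoc]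
        rw [e1]
        refine ⟨fun _ h => absurd rfl h, fun h => absurd (Option.some.inj h) (iv_ne y), fun _ => ?_⟩
        rcases hA : A (dir g) with _ | _
        · left; exact f2 v I hA
        · right
          have e2 : dir g ≠ some (iv y) := fun k => by rw [k, v.2] at hA; simp at hA
          have := I.1 k e2
          rw [hA, pw_true] at this
          rw [this]; exact ⟨hA, k⟩
      · subst e
        have c' : (pw (A none) a)⁻¹ * (lt a)⁻¹ = (lt a)⁻¹ * (pw (A none) a)⁻¹ := by
          cases A none <;> simp
        have e1 : pw (A (some (iv (iv a)))) a * ((pw (A none) a)⁻¹ * (σ (lt (iv a)) * σ g)) = m := by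
          rw [iv_iv, v.1, lt_iv, _root_.map_inv, w.1, hm, pw_true, ← mul_assoc _ _ (σ g), c']
          group
        rw [e1, iv_iv]
        refine ⟨fun h _ => absurd rfl h, fun _ => ?_,
          fun h => absurd (Option.some.inj h).symm (iv_ne a)⟩
        rcases hA : A (dir g) with _ | _
        · right
          have e2 : dir g ≠ some a := fun k => by rw [k, v.1] at hA; simp at hA
          have := I.1 e2 k
          rw [hA, pw_false, one_mul] at this
          rw [this]; exact ⟨hA, k⟩
        · left; exact f1 v I hA
    · have e1 : pw (A (some (iv y))) a * ((pw (A none) a)⁻¹ * (σ (lt y) * σ g)) =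
          lt y * (pw (A (some y)) a * m) := by
        rw [w.2 y hy, hm]; group
      have n1 : some y ≠ some a := fun h => hy (congrArg Prod.fst (Option.some.inj h))
      have n2 : some y ≠ some (iv a) := fun h =>
        hy (by rw [Option.some.inj h]; rfl)
      have e2 : dir (pw (A (some y)) a * m) ≠ some y := by
        by_cases hA : A (dir g) = A (some y)
        · rw [← hA]
          by_cases d1 : dir g = some a
          · rcases I.2.1 d1 with t | t
            · rw [t]; exact n1.symm
            · intro u; rw [u, ← hA, d1, v.1] at t; simp at t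
          · by_cases d2 : dir g = some (iv a)
            · rcases I.2.2 d2 with t | t
              · rw [t]; exact n2.symm
              · intro u; rw [u, ← hA, d2, v.2] at t; simp at t
            · rw [I.1 d1 d2]; exact k
        · rcases hB : A (dir g) with _ | _
          · have : A (some y) = true := by rw [hB] at hA; simpa using hA
            rw [this, pw_true, f2 v I hB]; exact n2.symm
          · have : A (some y) = false := by rw [hB] at hA; simpa using hA
            rw [this, pw_false, one_mul, f1 v I hB]; exact n1.symm
      rw [e1, dir_mul e2]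
      refine ⟨fun _ _ => rfl, fun h => ?_, fun h => ?_⟩
      · exact absurd (congrArg Prod.fst (Option.some.inj h)) hy
      · exact absurd (congrArg Prod.fst (Option.some.inj h)) hy

lemma star_dir (v : Vd some A a) (w : IsWh σ A a) {B : Option (ι × Bool) → Bool} (dj : Dj A B)
    (h : FreeGroup ι) : star some A a B (dir ((pw (A none) a)⁻¹ * σ h)) = B (dir h) := by
  have I := inv_wh v w h
  have Ba : B (some a) = false := dj _ v.1
  rcases hA : A (dir h) with _ | _
  · rw [hA, pw_false, one_mul] at I
    have e2 : dir h ≠ some a := fun k => by rw [k, v.1] at hA; simp at hA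
    by_cases e : dir h = some (iv a)
    · rw [e]
      rcases I.2.2 e with t | t
      · rw [t]
        have : iv a ≠ a := iv_ne a
        unfold star
        cases hB : B (some (iv a)) <;> simp [this]
      · have := dj _ t.1
        unfold star
        cases hB : B (some (iv a)) <;> simp [this, t.1, t.2]
    · rw [I.1 e2 e]
      unfold star
      cases hB : B (some (iv a)) <;> simp [hA, e2]
  · rw [f1 v I hA, dj _ hA]
    unfold star
    cases hB : B (some (iv a)) <;> simp [Ba]

end wh

end Pool.Agent.MP_3ce0a0_al.H46
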