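import Pool.Agent.MP_3ce0a0_al.H46.Dir

/-! The cut function of a based marked rose and the height of an automorphism. -/

namespace Pool.Agent.MP_3ce0a0_al.H46

open FreeGroup

variable {ι : Type} [DecidableEq ι]

/-- edges of the standard tree labelled `i` that are cut by `B` in the tree of `φ` -/
def cutS (φ : MulAut (FreeGroup ι)) (B : Option (ι × Bool) → Bool) (i : ι) : Set (FreeGroup ι) :=
  {g | B (dir (φ g)) ≠ B (dir (φ (g * of i)))}

lemma cutS_fin (φ : MulAut (FreeGroup ι)) (B : Option (ι × Bool) → Bool) (i : ι) :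
    (cutS φ B i).Finite := by
  refine ((fin_dir (φ (of i))).preimage (f := φ) φ.injective.injOn).subset ?_
  intro g hg e
  apply hg
  rw [_root_.map_mul, ← e]

omit [DecidableEq ι] in
lemma IsWh.cmp {σ : MulAut (FreeGroup ι)} {A : Option (ι × Bool) → Bool} {a : ι × Bool}
    (w : IsWh σ A a) : IsWh σ (cmp A) (iv a) := by
  refine ⟨by rw [lt_iv, _root_.map_inv, w.1], fun y hy => ?_⟩
  rw [w.2 y hy]
  unfold H46.cmp
  cases A none <;> cases A (some (iv y)) <;> cases A (some y) <;> simp [lt_iv, mul_assoc]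

omit [DecidableEq ι] in
lemma Vd.cmp {P : Type} {j : ι × Bool → P} {A : P → Bool} {a : ι × Bool} (v : Vd j A a) :
    Vd j (cmp A) (iv a) := by
  unfold H46.cmp Vd
  simp [v.1, v.2]

lemma Vd_sgl (a : ι × Bool) : Vd some (sgl some a) a := by
  simp [Vd, sgl, iv_ne]

lemma Vd.flp {A : Option (ι × Bool) → Bool} {a : ι × Bool} : Vd some (flp some A a) (iv a) := by
  simp [Vd, H46.flp, (iv_ne a).symm]

variable [Fintype ι]

/-- the cut function -/
noncomputable def kp (φ : MulAut (FreeGroup ι)) (B : Option (ι × Bool) → Bool) : ℕ :=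
  ∑ i, (cutS φ B i).ncard

lemma kp_tr {φ ψ : MulAut (FreeGroup ι)} {u : FreeGroup ι} {B B' : Option (ι × Bool) → Bool}
    (h : ∀ g, B' (dir (u * ψ g)) = B (dir g)) : kp (ψ * φ) B' = kp φ B := by
  refine Finset.sum_congr rfl fun i _ => ?_
  have : cutS φ B i = (fun g => (ψ * φ).symm u * g) ⁻¹' cutS (ψ * φ) B' i := by
    ext g
    have e : ψ (φ ((ψ * φ).symm u)) = u := (ψ * φ).apply_symm_apply u
    simp only [cutS, Set.mem_ofPred_eq, Set.mem_preimage, ← h, mul_assoc, _root_.map_mul,
      MulAut.mul_apply, e]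
  rw [this]
  exact (Set.ncard_preimage_of_injective_subset_range (mul_right_injective _)
    (by rw [(mul_left_surjective _).range_eq]; exact Set.subset_univ _)).symm

lemma kp_cmp (φ : MulAut (FreeGroup ι)) (B : Option (ι × Bool) → Bool) :
    kp φ (cmp B) = kp φ B := by
  refine Finset.sum_congr rfl fun i _ => ?_
  congr 1
  ext g
  simp [cutS, H46.cmp]

lemma kp_sub (φ : MulAut (FreeGroup ι)) (A B : Option (ι × Bool) → Bool) :
    kp φ (fun p => A p && B p) + kp φ (fun p => A p || B p) ≤ kp φ A + kp φ B := by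
  unfold kp
  rw [← Finset.sum_add_distrib, ← Finset.sum_add_distrib]
  refine Finset.sum_le_sum fun i _ => ?_
  rw [← Set.ncard_union_add_ncard_inter _ _ (cutS_fin ..) (cutS_fin ..),
    ← Set.ncard_union_add_ncard_inter _ _ (cutS_fin φ A i) (cutS_fin ..)]
  refine add_le_add (Set.ncard_le_ncard ?_ ((cutS_fin ..).union (cutS_fin ..)))
    (Set.ncard_le_ncard ?_ ((cutS_fin ..).inter_of_left _))
  all_goals
    intro g
    simp only [cutS, Set.mem_union, Set.mem_inter_iff, Set.mem_ofPred_eq]
    cases A (dir (φ g)) <;> cases B (dir (φ g)) <;> cases A (dir (φ (g * of i))) <;>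
      cases B (dir (φ (g * of i))) <;> simp

lemma kp_sgl_iv (φ : MulAut (FreeGroup ι)) (y : ι × Bool) :
    kp φ (sgl some (iv y)) = kp φ (sgl some y) := by
  rw [← kp_cmp φ (sgl some y)]
  have := kp_tr (φ := φ) (ψ := 1) (u := (lt y)⁻¹) (B := sgl some (iv y)) (B' := cmp (sgl some y))
    (fun g => by
      have := dir_iv y g
      by_cases e : dir g = some (iv y)
      · simp [H46.cmp, sgl, e, this.1 e]
      · have e2 : dir ((lt y)⁻¹ * g) = some y := by
          by_contra k; exact e (this.2 k)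
        simp [H46.cmp, sgl, e, e2])
  simpa using this.symm

lemma kp_sgl_pos (φ : MulAut (FreeGroup ι)) (y : ι × Bool) :
    kp φ (sgl some (y.1, true)) = kp φ (sgl some y) := by
  rcases y with ⟨i, _ | _⟩
  · exact kp_sgl_iv φ (i, false)
  · rfl

lemma kp_star {σ : MulAut (FreeGroup ι)} {A : Option (ι × Bool) → Bool} {a : ι × Bool}
    (v : Vd some A a) (w : IsWh σ A a) {B : Option (ι × Bool) → Bool} (dj : Dj A B)
    (φ : MulAut (FreeGroup ι)) : kp (σ * φ) (star some A a B) = kp φ B :=
  kp_tr (star_dir v w dj)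

lemma kp_pm {σ : MulAut (FreeGroup ι)} {π : ι → ι × Bool} (v : VW π) (h : IsPm σ π)
    (A : Option (ι × Bool) → Bool) (φ : MulAut (FreeGroup ι)) :
    kp (σ * φ) A = kp φ (A ∘ Option.map (act π)) :=
  kp_tr (u := 1) fun g => by simp [dir_pm v h]

lemma kp_wh_off {σ : MulAut (FreeGroup ι)} {A : Option (ι × Bool) → Bool} {a : ι × Bool}
    (v : Vd some A a) (w : IsWh σ A a) {y : ι × Bool} (hy : y.1 ≠ a.1)
    (φ : MulAut (FreeGroup ι)) : kp (σ * φ) (sgl some y) = kp φ (sgl some y) := by
  have aux : ∀ {A : Option (ι × Bool) → Bool} {a : ι × Bool}, Vd some A a → IsWh σ A a →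
      y.1 ≠ a.1 → A (some y) = false → kp (σ * φ) (sgl some y) = kp φ (sgl some y) := by
    intro A a v w hy h
    have dj : Dj A (sgl some y) := fun p hp => by
      simp only [sgl, decide_eq_false_iff_not]
      rintro rfl; simp [h] at hp
    rw [← kp_star v w dj φ]
    congr 1
    funext p
    have : iv a ≠ y := fun k => hy (by rw [← k]; rfl)
    simp [star, sgl, this]
  rcases h : A (some y) with _ | _
  · exact aux v w hy h
  · exact aux v.cmp w.cmp hy (by simp [H46.cmp, h])

lemma kp_wh_on {σ : MulAut (FreeGroup ι)} {A : Option (ι × Bool) → Bool} {a : ι × Bool}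
    (v : Vd some A a) (w : IsWh σ A a) (φ : MulAut (FreeGroup ι)) :
    kp (σ * φ) (sgl some a) = kp φ A := by
  have dj : Dj A (cmp A) := fun p hp => by simp [H46.cmp, hp]
  rw [← kp_cmp φ A, ← kp_star v w dj φ, ← kp_cmp]
  congr 1
  funext p
  simp [star, sgl, H46.cmp, v.2]

/-- the height: total length of the image of the basis -/
noncomputable def ht (φ : MulAut (FreeGroup ι)) : ℕ := ∑ i, kp φ (sgl some (i, true))

lemma ht_wh {σ : MulAut (FreeGroup ι)} {A : Option (ι × Bool) → Bool} {a : ι × Bool}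
    (v : Vd some A a) (w : IsWh σ A a) (φ : MulAut (FreeGroup ι)) :
    ht (σ * φ) + kp φ (sgl some a) = ht φ + kp φ A := by
  unfold ht
  rw [← Finset.add_sum_erase _ _ (Finset.mem_univ a.1),
    ← Finset.add_sum_erase _ (fun i => kp φ (sgl some (i, true))) (Finset.mem_univ a.1),
    kp_sgl_pos, kp_sgl_pos, kp_wh_on v w,
    Finset.sum_congr rfl fun i hi => kp_wh_off v w (y := (i, true)) (Finset.ne_of_mem_erase hi) φ]
  omega

omit [DecidableEq ι] in
lemma act_surj {π : ι → ι × Bool} (v : VW π) : Function.Surjective (act π) :=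
  Finite.surjective_of_injective (act_inj v)

omit [Fintype ι] in
lemma sgl_act {π : ι → ι × Bool} (v : VW π) (y : ι × Bool) :
    sgl some (act π y) ∘ Option.map (act π) = sgl some y := by
  funext p
  rcases p with _ | z
  · simp [sgl]
  · simp [sgl, (act_inj v).eq_iff]

lemma ht_pm {σ : MulAut (FreeGroup ι)} {π : ι → ι × Bool} (v : VW π) (h : IsPm σ π)
    (φ : MulAut (FreeGroup ι)) : ht (σ * φ) = ht φ := by
  unfold ht
  symm
  refine Fintype.sum_bijective (fun i => (π i).1) (Finite.injective_iff_bijective.1 v) _ _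
    fun i => ?_
  rw [kp_sgl_pos, kp_pm v h]
  exact congrArg _ (sgl_act v (i, true)).symm

lemma kp_one (B : Option (ι × Bool) → Bool) : kp 1 B =
    ∑ y : ι × Bool, if B (some y) = B none then 0 else 1 := by
  rw [Fintype.sum_prod_type]
  refine Finset.sum_congr rfl fun i _ => ?_
  have d1 : dir (of i) = some (i, false) := by
    simpa [lt_true, iv] using dir_mul (y := (i, true)) (g := 1) (by simp)
  have d2 : dir (of i)⁻¹ = some (i, true) := by
    simpa [lt_false, iv] using dir_mul (y := (i, false)) (g := 1) (by simp)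
  have ne : (1 : FreeGroup ι) ≠ (of i)⁻¹ := by simp
  have e : cutS 1 B i = {g | g = 1 ∧ B (some (i, false)) ≠ B none} ∪
      {g | g = (of i)⁻¹ ∧ B (some (i, true)) ≠ B none} := by
    ext g
    simp only [cutS, MulAut.one_apply, Set.mem_union, Set.mem_ofPred_eq]
    rcases dir_mul_right (i, true) g with k | k | k
    · subst k; simp [d1, ne_comm]
    · rw [lt_true] at k; subst k; simp [d2]
    · rw [lt_true] at k
      constructor
      · intro h; exact absurd (by rw [k]) h
      · rintro (⟨rfl, _⟩ | ⟨rfl, _⟩)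
        · simp [d1] at k
        · simp [d2] at k
  rw [e, Fintype.sum_bool]
  by_cases h1 : B (some (i, false)) = B none <;> by_cases h2 : B (some (i, true)) = B none <;>
    simp [h1, h2]

lemma kp_one_sgl (a : ι × Bool) : kp 1 (sgl some a) = 1 := by
  rw [kp_one, Finset.sum_eq_single a] <;> simp [sgl]

lemma kp_one_pos {A : Option (ι × Bool) → Bool} {a : ι × Bool} (v : Vd some A a) :
    1 ≤ kp 1 A := by
  rw [kp_one]
  rcases h : A none with _ | _
  · refine le_trans ?_ (Finset.single_le_sum (fun _ _ => Nat.zero_le _) (Finset.mem_univ a))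
    simp [v.1]
  · refine le_trans ?_ (Finset.single_le_sum (fun _ _ => Nat.zero_le _) (Finset.mem_univ (iv a)))
    simp [v.2]

lemma kp_one_le {A : Option (ι × Bool) → Bool} {a : ι × Bool} (v : Vd some A a)
    (h : kp 1 A ≤ 1) : A = sgl some a ∨ cmp A = sgl some (iv a) := by
  have aux : ∀ {A : Option (ι × Bool) → Bool} {a : ι × Bool}, Vd some A a → kp 1 A ≤ 1 →
      A none = false → A = sgl some a := by
    intro A a v h hn
    funext p
    rcases p with _ | y
    · simp [sgl, hn]
    · by_cases e : y = a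
      · simp [sgl, e, v.1]
      · rw [kp_one, ← Finset.add_sum_erase _ _ (Finset.mem_univ a),
          ← Finset.add_sum_erase _ _ (Finset.mem_erase.2 ⟨e, Finset.mem_univ y⟩)] at h
        rcases hy : A (some y) with _ | _
        · simp [sgl, e]
        · simp [hy, hn, v.1] at h
  rcases hn : A none with _ | _
  · exact Or.inl (aux v h hn)
  · exact Or.inr (aux v.cmp (by rwa [kp_cmp]) (by simp [H46.cmp, hn]))

end Pool.Agent.MP_3ce0a0_al.H46
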