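import Pool.Agent.MP_3ce0a0_al.H46.R3

/-! A presentation of the outer automorphism group of the free group of rank three. -/

namespace Pool.Agent.MP_3ce0a0_al.H46

open FreeGroup

lemma hs3 (π : Fin 3 → Fin 3 × Bool) (v : VW π) : IsPm (tA 3 (T3S π)) π :=
  isPm_T3S (rel3.1 π v)

lemma he3 (A : Option (Fin 3 × Bool) → Bool) (a : Fin 3 × Bool) (v : Vd some A a) :
    IsWh (tA 3 (T3E A a)) A a := isWh_T3E (rel3.2.1 A a v)

lemma Rel.toD {ι : Type} [DecidableEq ι] {H : Type} [Group H] {s : (ι → ι × Bool) → H}
    {e : (ι × Bool → Bool) → ι × Bool → H} (R : Rel id act s e) :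
    Rel some acD s (fun A a => e (A ∘ some) a) where
  hom := R.hom
  perm π A a v w := R.perm π (A ∘ some) a v w
  inv A a v := by
    have : flp some A a ∘ some = flp id (A ∘ some) a := by funext p; simp [flp]
    simp only [this]; exact R.inv _ a v
  cmp A a v := R.cmp (A ∘ some) a v
  triv a := by
    have : sgl some a ∘ some = sgl id a := by funext p; simp [sgl]
    simp only [this]; exact R.triv a
  r1 A a B b v w d n := by
    have : ∀ A a B, star some A a B ∘ some = star (ι := ι) id (A ∘ some) a (B ∘ some) := by
      intro A a B; funext p; simp [star]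
    simp only [this]; exact R.r1 _ a _ b v w (fun p => d _) n
  r2 A a B v w d := by
    have : rest some A B a ∘ some = rest id (A ∘ some) (B ∘ some) a := by funext p; simp [rest]
    simp only [this]; exact R.r2 _ a _ v w fun p => d _
  r3 A a c v w n := by
    have : flp some A a ∘ some = flp id (A ∘ some) a := by funext p; simp [flp]
    simp only [this]; exact R.r3 _ a c v w n

theorem exists_out {H : Type} [Group H] {s : (Fin 3 → Fin 3 × Bool) → H}
    {e : (Fin 3 × Bool → Bool) → Fin 3 × Bool → H} (R : Rel id act s e) :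
    ∃ Φ : MulAut (FreeGroup (Fin 3)) →* H, (∀ π, VW π → Φ (tA 3 (T3S π)) = s π) ∧
      (∀ A a, Vd some A a → Φ (tA 3 (T3E A a)) = e (A ∘ some) a) ∧
      ∀ g, Φ (MulAut.conj g) = 1 := by
  obtain ⟨Φ, h1, h2⟩ := exists_hom hs3 he3 rel3.2.2 R.toD
  refine ⟨Φ, h1, h2, fun g => ?_⟩
  have : Φ.comp MulAut.conj = 1 := FreeGroup.ext_hom _ _ fun i => by
    have v : Vd some (fun p => decide (p = none) || decide (p = some (i, true))) (i, true) := by
      simp [Vd, iv]
    have w := he3 _ _ v
    have e1 : MulAut.conj (of i) = tA 3 (T3E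
        (fun p => decide (p = none) || decide (p = some (i, true))) (i, true)) :=
      H28.aut_ext fun c => by
        by_cases k : c = i
        · subst k
          have := w.1
          rw [lt_true] at this
          simp [this]
        · have := w.2 (c, true) k
          rw [lt_true] at this
          rw [this]
          simp [iv, k, lt_true]
    have e2 : (fun p => decide (p = none) || decide (p = some (i, true))) ∘ some =
        sgl id (i, true) := by funext p; simp [sgl]
    show Φ (MulAut.conj (of i)) = 1
    rw [e1, h2 _ _ v, e2, R.triv]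
  exact DFunLike.congr_fun this g

lemma out_inj {G H : Type} [Group G] [Group H] (Φ : MulAut G →* H)
    (h1 : ∀ g, Φ (MulAut.conj g) = 1) (h2 : ∀ φ, Φ φ = 1 → ∃ g, MulAut.conj g = φ) :
    ∃ f : H79.Out G →* H, Function.Injective f := by
  refine ⟨QuotientGroup.lift (H79.Inn G) Φ (by rintro _ ⟨g, rfl⟩; exact h1 g), ?_⟩
  rw [injective_iff_map_eq_one]
  intro x
  induction x using QuotientGroup.induction_on with
  | H φ => exact fun h => (QuotientGroup.eq_one_iff _).2 (h2 φ h)

/-- all valid data satisfy a test -/
def allE (t : (Option (Fin 3 × Bool) → Bool) → Fin 3 × Bool → Bool) : Bool :=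
  allL.all fun a => allA7.all fun A => !vdB some A a || t A a

lemma allE_sound {t : (Option (Fin 3 × Bool) → Bool) → Fin 3 × Bool → Bool} (h : allE t = true)
    {A : Option (Fin 3 × Bool) → Bool} {a : Fin 3 × Bool} (v : Vd some A a) : t A a = true := by
  simp only [allE, List.all_eq_true, Bool.or_eq_true] at h
  exact (h a (mem_allL a) A (mem_allA7 A)).resolve_left (by simp [vdB_of v])

/-- all signed permutations satisfy a test -/
def allS (t : (Fin 3 → Fin 3 × Bool) → Bool) : Bool :=
  allL.all fun u => (allT u).all fun x => t (mkW x)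

lemma allS_sound {t : (Fin 3 → Fin 3 × Bool) → Bool} (h : allS t = true)
    {π : Fin 3 → Fin 3 × Bool} (v : VW π) : t π = true := by
  simp only [allS, List.all_eq_true] at h
  obtain ⟨x, hx, e⟩ := mem_allT v
  rw [← e]; exact h _ (mem_allL _) x hx

end Pool.Agent.MP_3ce0a0_al.H46
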