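import Pool.Agent.MP_3ce0a0_al.H46.Kap
import Pool.Agent.MP_3ce0a0_al.H28.Niel

/-! Peak reduction with relation tracking: a presentation of the automorphism group of a free
group on signed permutations and Whitehead automorphisms. -/

namespace Pool.Agent.MP_3ce0a0_al.H46

open FreeGroup

variable {ι : Type} [DecidableEq ι]

/-- the defining relations between signed permutations and Whitehead automorphisms -/
structure Rel {P : Type} [DecidableEq P] (j : ι × Bool → P) (ac : (ι → ι × Bool) → P → P)
    {H : Type} [Group H] (s : (ι → ι × Bool) → H) (e : (P → Bool) → ι × Bool → H) : Prop where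
  hom : ∀ π π', VW π → VW π' → s (wmul π π') = s π * s π'
  perm : ∀ π A a, VW π → Vd j (A ∘ ac π) a → s π * e (A ∘ ac π) a = e A (act π a) * s π
  inv : ∀ A a, Vd j A a → e (flp j A a) (iv a) * e A a = 1
  cmp : ∀ A a, Vd j A a → e (cmp A) (iv a) = e A a
  triv : ∀ a, e (sgl j a) a = 1
  r1 : ∀ A a B b, Vd j A a → Vd j B b → Dj A B →
    ¬ (B (j (iv a)) = true ∧ A (j (iv b)) = true) →
    e (star j A a B) b * e A a = e (star j B b A) a * e B b
  r2 : ∀ A a B, Vd j A a → Vd j B (iv a) → Dj A B → e B (iv a) = e (rest j A B a) a * e A a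
  r3 : ∀ A a c, Vd j A a → Vd j A c → c.1 ≠ a.1 →
    e A c = s (rot a c) * e (flp j A a) c * e A a

/-- action on directions -/
def acD (π : ι → ι × Bool) : Option (ι × Bool) → Option (ι × Bool) := Option.map (act π)

lemma Rel.prod {P : Type} [DecidableEq P] {j : ι × Bool → P} {ac : (ι → ι × Bool) → P → P}
    {H K : Type} [Group H] [Group K] {s : (ι → ι × Bool) → H} {e : (P → Bool) → ι × Bool → H}
    {s' : (ι → ι × Bool) → K} {e' : (P → Bool) → ι × Bool → K}
    (R : Rel j ac s e) (R' : Rel j ac s' e') :
    Rel j ac (fun π => (s π, s' π)) (fun A a => (e A a, e' A a)) where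
  hom π π' h h' := Prod.ext (R.hom π π' h h') (R'.hom π π' h h')
  perm π A a h v := Prod.ext (R.perm π A a h v) (R'.perm π A a h v)
  inv A a v := Prod.ext (R.inv A a v) (R'.inv A a v)
  cmp A a v := Prod.ext (R.cmp A a v) (R'.cmp A a v)
  triv a := Prod.ext (R.triv a) (R'.triv a)
  r1 A a B b v w d n := Prod.ext (R.r1 A a B b v w d n) (R'.r1 A a B b v w d n)
  r2 A a B v w d := Prod.ext (R.r2 A a B v w d) (R'.r2 A a B v w d)
  r3 A a c v w n := Prod.ext (R.r3 A a c v w n) (R'.r3 A a c v w n)

omit [DecidableEq ι] in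
lemma Dj.symm {P : Type} {A B : P → Bool} (h : Dj A B) : Dj B A := fun p hp => by
  rcases e : A p with _ | _
  · rfl
  · rw [h p e] at hp; simp at hp

variable [Fintype ι]

section val
variable {X : Type} [Group X] (f : X →* MulAut (FreeGroup ι)) (s : (ι → ι × Bool) → X)
  (e : (Option (ι × Bool) → Bool) → ι × Bool → X)

/-- elements with a strictly descending path to a signed permutation -/
inductive Val : X → Prop
  | base (π : ι → ι × Bool) : VW π → Val (s π)
  | step (A : Option (ι × Bool) → Bool) (a : ι × Bool) (x : X) : Vd some A a →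
      kp (f x) A < kp (f x) (sgl some a) → Val (e A a * x) → Val x

variable {f s e} (R : Rel some acD s e) (hs : ∀ π, VW π → IsPm (f (s π)) π)
  (he : ∀ A a, Vd some A a → IsWh (f (e A a)) A a)

include he in
lemma ht_e {A : Option (ι × Bool) → Bool} {a : ι × Bool} (v : Vd some A a) (x : X) :
    ht (f (e A a * x)) + kp (f x) (sgl some a) = ht (f x) + kp (f x) A := by
  rw [_root_.map_mul]; exact ht_wh v (he A a v) _

omit [DecidableEq ι] in
lemma exists_winv {π : ι → ι × Bool} (v : VW π) :
    ∃ π', VW π' ∧ wmul π π' = wone ∧ wmul π' π = wone := by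
  choose g hg using act_surj v
  have hi : ∀ y, act (fun i => g (i, true)) y = g y := by
    rintro ⟨i, _ | _⟩
    · apply act_inj v
      rw [hg]
      show act π (iv (g (i, true))) = _
      rw [act_iv, hg]; rfl
    · rfl
  refine ⟨fun i => g (i, true), fun i k e => ?_, funext fun i => hg _, funext fun i => ?_⟩
  · have := congrArg (fun t => (π t).1) e
    simp only [← act_fst, hg] at this
    exact this
  · apply act_inj v
    show act π (act _ (π i)) = _
    rw [hi, hg]; rfl

include R hs in
lemma val_pm {x : X} (h : Val f s e x) {π : ι → ι × Bool} (v : VW π) : Val f s e (s π * x) := by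
  induction h with
  | base π' v' => rw [← R.hom π π' v v']; exact Val.base _ (v.mul v')
  | step B b x vb lt _ ih =>
    obtain ⟨π', v', e1, e2⟩ := exists_winv v
    have k : (B ∘ acD π') ∘ acD π = B := by
      funext p
      rcases p with _ | y
      · rfl
      · show B (some (act π' (act π y))) = _
        rw [← act_wmul, e2, act_wone]
    have vA : Vd some (B ∘ acD π') (act π b) := by
      constructor
      · exact (congrFun k (some b)).trans vb.1
      · rw [← act_iv]; exact (congrFun k (some (iv b))).trans vb.2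
    refine Val.step (B ∘ acD π') (act π b) _ vA ?_ ?_
    · rw [_root_.map_mul, kp_pm v (hs π v), kp_pm v (hs π v), sgl_act v]
      exact (congrArg (kp (f x)) k).trans_lt lt
    · rw [← mul_assoc, ← R.perm π _ b v (by rw [k]; exact vb), k, mul_assoc]
      exact ih

include R he in
lemma val_up {x : X} (h : Val f s e x) {A : Option (ι × Bool) → Bool} {a : ι × Bool}
    (v : Vd some A a) (l : ht (f x) < ht (f (e A a * x))) : Val f s e (e A a * x) := by
  have e1 : e (flp some A a) (iv a) * (e A a * x) = x := by
    rw [← mul_assoc, R.inv A a v, one_mul]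
  refine Val.step (flp some A a) (iv a) _ Vd.flp ?_ (by rw [e1]; exact h)
  have := ht_e he (Vd.flp (A := A) (a := a)) (e A a * x)
  rw [e1] at this
  omega

section peak
variable {x : X} (IH : ∀ y, ht (f y) < ht (f x) → Val f s e y →
  ∀ A a, Vd some A a → Val f s e (e A a * y))

include he IH R in
lemma c2 {A B : Option (ι × Bool) → Bool} {a : ι × Bool} (va : Vd some A a)
    (vb : Vd some B (iv a)) (d : Dj A B) (l : kp (f x) A < kp (f x) (sgl some a))
    (h : Val f s e (e A a * x)) : Val f s e (e B (iv a) * x) := by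
  rw [R.r2 A a B va vb d, mul_assoc]
  refine IH _ (by have := ht_e he va x; omega) h _ _ ⟨by simp [rest], ?_⟩
  simp [rest, vb.1, iv_ne]

include he hs IH R in
lemma c3 {A : Option (ι × Bool) → Bool} {a c : ι × Bool} (va : Vd some A a)
    (vc : Vd some A c) (n : c.1 ≠ a.1) (l : kp (f x) A < kp (f x) (sgl some a))
    (h : Val f s e (e A a * x)) : Val f s e (e A c * x) := by
  rw [R.r3 A a c va vc n, mul_assoc, mul_assoc]
  refine val_pm R hs (IH _ (by have := ht_e he va x; omega) h _ _ ⟨?_, ?_⟩) (VW_rot n)
  · have : c ≠ a := fun k => n (by rw [k])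
    simp [flp, vc.1, this]
  · have : iv c ≠ iv a := fun k => n (by rw [iv_inj k])
    simp [flp, vc.2, this]

omit [Fintype ι] in
lemma Vd.star {A B : Option (ι × Bool) → Bool} {a b : ι × Bool} (va : Vd some A a)
    (vb : Vd some B b) (d : Dj A B)
    (n : ¬ (B (some (iv a)) = true ∧ A (some (iv b)) = true)) : Vd some (star some A a B) b := by
  have : b ≠ a := fun k => by
    have := d _ va.1
    rw [← k, vb.1] at this; simp at this
  unfold Vd H46.star
  rcases h : B (some (iv a)) with _ | _
  · simpa [Vd] using vb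
  · have : A (some (iv b)) = false := by simpa [h] using n
    simp [*, vb.1, vb.2]

include he hs IH R in
lemma compat {A B : Option (ι × Bool) → Bool} {a b : ι × Bool} (va : Vd some A a)
    (vb : Vd some B b) (d : Dj A B) (la : kp (f x) A ≤ kp (f x) (sgl some a))
    (lb : kp (f x) B < kp (f x) (sgl some b))
    (h : Val f s e (e B b * x)) : Val f s e (e A a * x) := by
  have nab : b ≠ a := fun k => by
    have := d _ va.1
    rw [← k, vb.1] at this; simp at this
  by_cases n : B (some (iv a)) = true ∧ A (some (iv b)) = true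
  · by_cases k : a = iv b
    · subst k; exact c2 R he IH vb va d.symm lb h
    · have ne : b.1 ≠ a.1 := fun t => by
        rcases eq_or_iv t with u | u
        · exact nab u
        · exact k (by rw [u, iv_iv])
      have v1 : Vd some B (iv a) := ⟨n.1, by rw [iv_iv]; exact d _ va.1⟩
      have v2 : Vd some A (iv b) := ⟨n.2, by rw [iv_iv]; exact d.symm _ vb.1⟩
      by_cases l : kp (f x) B < kp (f x) (sgl some a)
      · have h1 := c3 R hs he IH vb v1 (fun t => ne t.symm) lb h
        have := c2 R he IH (B := A) v1 (by rw [iv_iv]; exact va) d.symm (by rwa [kp_sgl_iv]) h1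
        rwa [iv_iv] at this
      · have h1 := c2 R he IH vb v2 d.symm lb h
        exact c3 R hs he IH v2 va (fun t => ne t.symm) (by rw [kp_sgl_iv]; omega) h1
  · have ne : b.1 ≠ a.1 := fun t => by
      rcases eq_or_iv t with u | u
      · exact nab u
      · exact n ⟨by rw [← u]; exact vb.1, by rw [u, iv_iv]; exact va.1⟩
    have h1 := IH _ (by have := ht_e he vb x; omega) h _ _
      (vb.star va d.symm fun t => n t.symm)
    rw [← mul_assoc, ← R.r1 A a B b va vb d n, mul_assoc] at h1
    refine Val.step _ b _ (va.star vb d n) ?_ h1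
    rw [_root_.map_mul, kp_star va (he A a va) d, kp_wh_off va (he A a va) ne]
    exact lb

/-- quadrants -/
def qd {P : Type} (A B : P → Bool) (u v : Bool) : P → Bool := fun p => (A p == u) && (B p == v)

lemma quad (φ : MulAut (FreeGroup ι)) {A B : Option (ι × Bool) → Bool} {a b : ι × Bool}
    (va : Vd some A a) (vb : Vd some B b) (la : kp φ A ≤ kp φ (sgl some a))
    (lb : kp φ B < kp φ (sgl some b)) :
    ∃ u v q, Vd some (qd A B u v) q ∧ kp φ (qd A B u v) < kp φ (sgl some q) := by
  by_contra k
  push Not at k
  have h1 := k true (B (some a)) a (by simp [Vd, qd, va.1, va.2])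
  have h2 := k false (B (some (iv a))) (iv a) (by simp [Vd, qd, va.1, va.2])
  have h3 := k (A (some b)) true b (by simp [Vd, qd, vb.1, vb.2])
  have h4 := k (A (some (iv b))) false (iv b) (by simp [Vd, qd, vb.1, vb.2])
  rw [kp_sgl_iv] at h2 h4
  have s1 : kp φ (qd A B true true) + kp φ (qd A B false false) ≤ kp φ A + kp φ B := by
    have := kp_sub φ A B
    rw [← kp_cmp φ fun p => A p || B p] at this
    have e1 : qd A B true true = fun p => A p && B p := by funext p; simp [qd]
    have e2 : qd A B false false = cmp fun p => A p || B p := by funext p; simp [qd, cmp]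
    rwa [e1, e2]
  have s2 : kp φ (qd A B true false) + kp φ (qd A B false true) ≤ kp φ A + kp φ B := by
    have := kp_sub φ A (cmp B)
    rw [← kp_cmp φ fun p => A p || cmp B p, kp_cmp φ B] at this
    have e1 : qd A B true false = fun p => A p && cmp B p := by funext p; simp [qd, cmp]
    have e2 : qd A B false true = cmp fun p => A p || cmp B p := by funext p; simp [qd, cmp]
    rwa [e1, e2]
  revert h1 h2 h3 h4
  cases B (some a) <;> cases B (some (iv a)) <;> cases A (some b) <;> cases A (some (iv b)) <;>
    omega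

include he hs IH R in
lemma peak {A B : Option (ι × Bool) → Bool} {a b : ι × Bool} (va : Vd some A a)
    (vb : Vd some B b) (la : kp (f x) A ≤ kp (f x) (sgl some a))
    (lb : kp (f x) B < kp (f x) (sgl some b))
    (h : Val f s e (e B b * x)) : Val f s e (e A a * x) := by
  obtain ⟨u, v, q, vq, lq⟩ := quad (f x) va vb la lb
  have h1 : Val f s e (e (qd A B u v) q * x) := by
    cases v
    · exact compat R hs he IH vq vb (fun p hp => by simp [qd] at hp; exact hp.2) lq.le lb h
    · refine compat R hs he IH vq vb.cmp (fun p hp => by simp [qd] at hp; simp [cmp, hp.2]) lq.le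
        (by rwa [kp_cmp, kp_sgl_iv]) (by rwa [R.cmp B b vb])
  cases u
  · exact compat R hs he IH va vq (fun p hp => by simp [qd, hp]) la lq h1
  · rw [← R.cmp A a va]
    exact compat R hs he IH va.cmp vq (fun p hp => by simp [cmp] at hp; simp [qd, hp])
      (by rwa [kp_cmp, kp_sgl_iv]) lq h1

end peak

omit [Fintype ι] in
include R in
lemma s_one : s wone = 1 := by
  have := R.hom wone wone VW_one VW_one
  rw [show wmul (wone : ι → ι × Bool) wone = wone from funext fun i => act_wone _] at this
  simpa using this

include R hs he in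
lemma val_wh (x : X) : Val f s e x → ∀ A a, Vd some A a → Val f s e (e A a * x) := by
  induction hn : ht (f x) using Nat.strong_induction_on generalizing x with
  | _ n ih =>
  intro h A a v
  by_cases l : ht (f x) < ht (f (e A a * x))
  · exact val_up R he h v l
  have la : kp (f x) A ≤ kp (f x) (sgl some a) := by have := ht_e he v x; omega
  cases h with
  | base π vπ =>
    obtain ⟨a', rfl⟩ := act_surj vπ a
    have v' : Vd some (A ∘ acD π) a' := ⟨v.1, by
      show A (some (act π (iv a'))) = false
      rw [act_iv]; exact v.2⟩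
    have k := kp_pm vπ (hs π vπ) A 1
    have k2 := kp_pm vπ (hs π vπ) (sgl some (act π a')) 1
    rw [mul_one] at k k2
    rw [k, k2, sgl_act vπ, kp_one_sgl] at la
    have : e (A ∘ acD π) a' = 1 := by
      rcases kp_one_le v' la with t | t
      · exact (congrArg (fun B => e B a') t).trans (R.triv a')
      · rw [← R.cmp _ _ v']
        exact (congrArg (fun B => e B (iv a')) t).trans (R.triv _)
    rw [← R.perm π A a' vπ v', this, mul_one]
    exact Val.base π vπ
  | step B b _ vb lb h =>
    exact peak R hs he (fun y hy => ih _ (hn ▸ hy) y rfl) v vb la lb h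

omit [Fintype ι] in
lemma lt_inj : Function.Injective (lt : ι × Bool → FreeGroup ι) := fun y z h => by
  have h1 := dir_mul (y := y) (g := 1) (by simp)
  have h2 := dir_mul (y := z) (g := 1) (by simp)
  rw [h, h2] at h1
  exact (iv_inj (Option.some.inj h1)).symm

include R hs in
lemma val_one {x : X} (h : Val f s e x) (h1 : f x = 1) : x = 1 := by
  cases h with
  | base π vπ =>
    have : π = wone := funext fun i => by
      have := hs π vπ (i, true)
      rw [h1] at this
      exact (lt_inj this).symm
    rw [this, s_one R]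
  | step B b _ vb lb h =>
    rw [h1, kp_one_sgl] at lb
    have := kp_one_pos vb
    omega

/-- the generators -/
def gens (s : (ι → ι × Bool) → X) (e : (Option (ι × Bool) → Bool) → ι × Bool → X) : Set X :=
  {x | (∃ π, VW π ∧ x = s π) ∨ ∃ A a, Vd some A a ∧ x = e A a}

include R in
lemma gens_ind {Q : X → Prop} (h1 : Q 1) (h2 : ∀ π x, VW π → Q x → Q (s π * x))
    (h3 : ∀ A a x, Vd some A a → Q x → Q (e A a * x)) {x : X}
    (hx : x ∈ Subgroup.closure (gens s e)) : Q x := by
  induction hx using Subgroup.closure_induction_left with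
  | one => exact h1
  | mul_left g hg y _ ih =>
    rcases hg with ⟨π, v, rfl⟩ | ⟨A, a, v, rfl⟩
    · exact h2 π y v ih
    · exact h3 A a y v ih
  | inv_mul_cancel g hg y _ ih =>
    rcases hg with ⟨π, v, rfl⟩ | ⟨A, a, v, rfl⟩
    · obtain ⟨π', v', -, e2⟩ := exists_winv v
      have : (s π)⁻¹ = s π' := by
        rw [inv_eq_iff_mul_eq_one, mul_eq_one_comm, ← R.hom _ _ v' v, e2, s_one R]
      rw [this]; exact h2 π' y v' ih
    · have : (e A a)⁻¹ = e (flp some A a) (iv a) := by
        rw [inv_eq_iff_mul_eq_one, mul_eq_one_comm, R.inv A a v]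
      rw [this]; exact h3 _ _ y Vd.flp ih

include R hs he in
lemma closure_inj {x : X} (hx : x ∈ Subgroup.closure (gens s e)) (h1 : f x = 1) : x = 1 :=
  val_one R hs (gens_ind R (Q := Val f s e) (by rw [← s_one R]; exact Val.base _ VW_one)
    (fun _ _ v h => val_pm R hs h v) (fun A a x v h => val_wh R hs he x h A a v) hx) h1

end val

section gen
variable {sA : (ι → ι × Bool) → MulAut (FreeGroup ι)}
  {eA : (Option (ι × Bool) → Bool) → ι × Bool → MulAut (FreeGroup ι)}
  (hs : ∀ π, VW π → IsPm (sA π) π) (he : ∀ A a, Vd some A a → IsWh (eA A a) A a)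

include hs he in
lemma gens_top : Subgroup.closure (gens sA eA) = ⊤ := by
  refine H28.sniel ι _ ?_ ?_ ?_
  · intro α a b n h1 h2
    have v : Vd some (fun p => decide (p = some (a, true)) || decide (p = some (b, true)))
        (b, true) := by simp [Vd, iv]
    refine Subgroup.subset_closure (Or.inr ⟨_, _, v, H28.aut_ext fun c => ?_⟩)
    have w := he _ _ v
    by_cases k : c = b
    · subst k; rw [h2 c n.symm]; exact w.1.symm
    · have := w.2 (c, true) k
      rw [lt_true] at this
      rw [this]
      by_cases k2 : c = a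
      · subst k2; simp [h1, iv, lt_true]
      · simp [h2 c k2, iv, k, k2]
  · intro α a h1 h2
    have v : VW (fun i : ι => (i, !decide (i = a))) := fun _ _ e => e
    refine Subgroup.subset_closure (Or.inl ⟨_, v, H28.aut_ext fun c => ?_⟩)
    have := hs _ v (c, true)
    rw [lt_true] at this
    rw [this]
    by_cases k : c = a
    · subst k; simp [act, h1, lt_false]
    · simp [act, h2 c k, k, lt_true]
  · intro α σ h
    have v : VW (fun i : ι => (σ i, true)) := fun _ _ e => σ.injective e
    refine Subgroup.subset_closure (Or.inl ⟨_, v, H28.aut_ext fun c => ?_⟩)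
    have := hs _ v (c, true)
    rw [lt_true] at this
    rw [this, h]; rfl

include hs he in
/-- McCool's presentation, in the form of a universal property. -/
theorem exists_hom (RA : Rel some acD sA eA) {H : Type} [Group H] {s : (ι → ι × Bool) → H}
    {e : (Option (ι × Bool) → Bool) → ι × Bool → H} (R : Rel some acD s e) :
    ∃ Φ : MulAut (FreeGroup ι) →* H, (∀ π, VW π → Φ (sA π) = s π) ∧
      ∀ A a, Vd some A a → Φ (eA A a) = e A a := by
  set G := Subgroup.closure (gens (fun π => (sA π, s π)) (fun A a => (eA A a, e A a))) with hG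
  let p : G →* MulAut (FreeGroup ι) := (MonoidHom.fst _ _).comp G.subtype
  have pi : Function.Injective p := (injective_iff_map_eq_one p).2 fun x hx =>
    Subtype.ext (closure_inj (f := MonoidHom.fst _ _) (RA.prod R) hs he x.2 hx)
  have ps : Function.Surjective p := by
    rw [← MonoidHom.range_eq_top, eq_top_iff, ← gens_top hs he, Subgroup.closure_le]
    rintro _ (⟨π, v, rfl⟩ | ⟨A, a, v, rfl⟩)
    · exact ⟨⟨(sA π, s π), Subgroup.subset_closure (Or.inl ⟨π, v, rfl⟩)⟩, rfl⟩
    · exact ⟨⟨(eA A a, e A a), Subgroup.subset_closure (Or.inr ⟨A, a, v, rfl⟩)⟩, rfl⟩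
  let q := MulEquiv.ofBijective p ⟨pi, ps⟩
  refine ⟨((MonoidHom.snd _ _).comp G.subtype).comp q.symm.toMonoidHom, fun π v => ?_,
    fun A a v => ?_⟩
  · have : q.symm (sA π) = ⟨(sA π, s π), Subgroup.subset_closure (Or.inl ⟨π, v, rfl⟩)⟩ :=
      q.symm_apply_eq.2 rfl
    show (q.symm (sA π)).1.2 = _
    rw [this]
  · have : q.symm (eA A a) = ⟨(eA A a, e A a), Subgroup.subset_closure (Or.inr ⟨A, a, v, rfl⟩)⟩ :=
      q.symm_apply_eq.2 rfl
    show (q.symm (eA A a)).1.2 = _
    rw [this]

include hs he in
lemma aut_ind (RA : Rel some acD sA eA) {Q : MulAut (FreeGroup ι) → Prop} (h1 : Q 1)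
    (h2 : ∀ π x, VW π → Q x → Q (sA π * x))
    (h3 : ∀ A a x, Vd some A a → Q x → Q (eA A a * x)) (x : MulAut (FreeGroup ι)) : Q x :=
  gens_ind RA h1 h2 h3 (by rw [gens_top hs he]; trivial)

end gen

end Pool.Agent.MP_3ce0a0_al.H46
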