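import Pool.Agent.MP_3ce0a0_al.H46.Tab
import Pool.Agent.MP_3ce0a0_al.H46.D10

/-! Kernel checks of the relations. -/

namespace Pool.Agent.MP_3ce0a0_al.H46

lemma one10_0 : cOne id allA6 (lkS d10S) (lkE d10E) (chkE 10) (0, true) = true := by decide +kernel
lemma one10_1 : cOne id allA6 (lkS d10S) (lkE d10E) (chkE 10) (0, false) = true := by decide +kernel
lemma one10_2 : cOne id allA6 (lkS d10S) (lkE d10E) (chkE 10) (1, true) = true := by decide +kernel
lemma one10_3 : cOne id allA6 (lkS d10S) (lkE d10E) (chkE 10) (1, false) = true := by decide +kernel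
lemma one10_4 : cOne id allA6 (lkS d10S) (lkE d10E) (chkE 10) (2, true) = true := by decide +kernel
lemma one10_5 : cOne id allA6 (lkS d10S) (lkE d10E) (chkE 10) (2, false) = true := by decide +kernel

lemma one10 (a : Fin 3 × Bool) : cOne id allA6 (lkS d10S) (lkE d10E) (chkE 10) a = true := by
  have := mem_allL a
  simp only [allL, List.mem_cons, List.not_mem_nil, or_false] at this
  rcases this with rfl | rfl | rfl | rfl | rfl | rfl
  exacts [one10_0, one10_1, one10_2, one10_3, one10_4, one10_5]

lemma hom10 : cHom (lkS d10S) (chkE 10) = true := by decide +kernel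

lemma perm10_0 : cPerm id act allA6 (lkS d10S) (lkE d10E) (chkE 10) (0, true) = true := by decide +kernel
lemma perm10_1 : cPerm id act allA6 (lkS d10S) (lkE d10E) (chkE 10) (0, false) = true := by decide +kernel
lemma perm10_2 : cPerm id act allA6 (lkS d10S) (lkE d10E) (chkE 10) (1, true) = true := by decide +kernel
lemma perm10_3 : cPerm id act allA6 (lkS d10S) (lkE d10E) (chkE 10) (1, false) = true := by decide +kernel
lemma perm10_4 : cPerm id act allA6 (lkS d10S) (lkE d10E) (chkE 10) (2, true) = true := by decide +kernel
lemma perm10_5 : cPerm id act allA6 (lkS d10S) (lkE d10E) (chkE 10) (2, false) = true := by decide +kernel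

lemma perm10 (a : Fin 3 × Bool) : cPerm id act allA6 (lkS d10S) (lkE d10E) (chkE 10) a = true := by
  have := mem_allL a
  simp only [allL, List.mem_cons, List.not_mem_nil, or_false] at this
  rcases this with rfl | rfl | rfl | rfl | rfl | rfl
  exacts [perm10_0, perm10_1, perm10_2, perm10_3, perm10_4, perm10_5]

lemma two10_0 : cTwo id allL allA6 (lkE d10E) (chkE 10) (0, true) = true := by decide +kernel
lemma two10_1 : cTwo id allL allA6 (lkE d10E) (chkE 10) (0, false) = true := by decide +kernel
lemma two10_2 : cTwo id allL allA6 (lkE d10E) (chkE 10) (1, true) = true := by decide +kernel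
lemma two10_3 : cTwo id allL allA6 (lkE d10E) (chkE 10) (1, false) = true := by decide +kernel
lemma two10_4 : cTwo id allL allA6 (lkE d10E) (chkE 10) (2, true) = true := by decide +kernel
lemma two10_5 : cTwo id allL allA6 (lkE d10E) (chkE 10) (2, false) = true := by decide +kernel

lemma two10 (a : Fin 3 × Bool) : cTwo id allL allA6 (lkE d10E) (chkE 10) a = true := by
  have := mem_allL a
  simp only [allL, List.mem_cons, List.not_mem_nil, or_false] at this
  rcases this with rfl | rfl | rfl | rfl | rfl | rfl
  exacts [two10_0, two10_1, two10_2, two10_3, two10_4, two10_5]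

theorem rel10 : (∀ π, VW π → Good 10 (lkS d10S π)) ∧ (∀ A a, Vd id A a → Good 10 (lkE d10E A a)) ∧
    Rel id act (fun π => tA 10 (lkS d10S π)) (fun A a => tA 10 (lkE d10E A a)) :=
  rel_of (soundE 10) Function.injective_id (fun _ _ => rfl) act_wone act_wmul
    mem_allA6 one10 hom10 perm10 two10

end Pool.Agent.MP_3ce0a0_al.H46
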