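import Pool.Agent.MP_3ce0a0_al.H46.Tab

/-! Kernel checks of the relations. -/

namespace Pool.Agent.MP_3ce0a0_al.H46

lemma one3_0 : cOne some allA7 T3S T3E (chkE 3) (0, true) = true := by decide +kernel
lemma one3_1 : cOne some allA7 T3S T3E (chkE 3) (0, false) = true := by decide +kernel
lemma one3_2 : cOne some allA7 T3S T3E (chkE 3) (1, true) = true := by decide +kernel
lemma one3_3 : cOne some allA7 T3S T3E (chkE 3) (1, false) = true := by decide +kernel
lemma one3_4 : cOne some allA7 T3S T3E (chkE 3) (2, true) = true := by decide +kernel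
lemma one3_5 : cOne some allA7 T3S T3E (chkE 3) (2, false) = true := by decide +kernel

lemma one3 (a : Fin 3 × Bool) : cOne some allA7 T3S T3E (chkE 3) a = true := by
  have := mem_allL a
  simp only [allL, List.mem_cons, List.not_mem_nil, or_false] at this
  rcases this with rfl | rfl | rfl | rfl | rfl | rfl
  exacts [one3_0, one3_1, one3_2, one3_3, one3_4, one3_5]

lemma hom3 : cHom T3S (chkE 3) = true := by decide +kernel

lemma perm3_0 : cPerm some acD allA7 T3S T3E (chkE 3) (0, true) = true := by decide +kernel
lemma perm3_1 : cPerm some acD allA7 T3S T3E (chkE 3) (0, false) = true := by decide +kernel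
lemma perm3_2 : cPerm some acD allA7 T3S T3E (chkE 3) (1, true) = true := by decide +kernel
lemma perm3_3 : cPerm some acD allA7 T3S T3E (chkE 3) (1, false) = true := by decide +kernel
lemma perm3_4 : cPerm some acD allA7 T3S T3E (chkE 3) (2, true) = true := by decide +kernel
lemma perm3_5 : cPerm some acD allA7 T3S T3E (chkE 3) (2, false) = true := by decide +kernel

lemma perm3 (a : Fin 3 × Bool) : cPerm some acD allA7 T3S T3E (chkE 3) a = true := by
  have := mem_allL a
  simp only [allL, List.mem_cons, List.not_mem_nil, or_false] at this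
  rcases this with rfl | rfl | rfl | rfl | rfl | rfl
  exacts [perm3_0, perm3_1, perm3_2, perm3_3, perm3_4, perm3_5]

lemma two3_0 : cTwo some allD allA7 T3E (chkE 3) (0, true) = true := by decide +kernel
lemma two3_1 : cTwo some allD allA7 T3E (chkE 3) (0, false) = true := by decide +kernel
lemma two3_2 : cTwo some allD allA7 T3E (chkE 3) (1, true) = true := by decide +kernel
lemma two3_3 : cTwo some allD allA7 T3E (chkE 3) (1, false) = true := by decide +kernel
lemma two3_4 : cTwo some allD allA7 T3E (chkE 3) (2, true) = true := by decide +kernel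
lemma two3_5 : cTwo some allD allA7 T3E (chkE 3) (2, false) = true := by decide +kernel

lemma two3 (a : Fin 3 × Bool) : cTwo some allD allA7 T3E (chkE 3) a = true := by
  have := mem_allL a
  simp only [allL, List.mem_cons, List.not_mem_nil, or_false] at this
  rcases this with rfl | rfl | rfl | rfl | rfl | rfl
  exacts [two3_0, two3_1, two3_2, two3_3, two3_4, two3_5]

theorem rel3 : (∀ π, VW π → Good 3 (T3S π)) ∧ (∀ A a, Vd some A a → Good 3 (T3E A a)) ∧
    Rel some acD (fun π => tA 3 (T3S π)) (fun A a => tA 3 (T3E A a)) :=
  rel_of (soundE 3) (Option.some_injective _) (fun _ _ => rfl)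
    (fun p => by cases p <;> simp [acD, act_wone])
    (fun π π' p => by cases p <;> simp [acD, act_wmul]) mem_allA7 one3 hom3 perm3 two3

end Pool.Agent.MP_3ce0a0_al.H46
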