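import Pool.Agent.MP_3ce0a0_al.H46.Tab
import Pool.Agent.MP_3ce0a0_al.H46.D7

/-! Kernel checks of the relations. -/

namespace Pool.Agent.MP_3ce0a0_al.H46

lemma one7_0 : cOne id allA6 (lkS d7S) (lkE d7E) (chkI 7) (0, true) = true := by decide +kernel
lemma one7_1 : cOne id allA6 (lkS d7S) (lkE d7E) (chkI 7) (0, false) = true := by decide +kernel
lemma one7_2 : cOne id allA6 (lkS d7S) (lkE d7E) (chkI 7) (1, true) = true := by decide +kernel
lemma one7_3 : cOne id allA6 (lkS d7S) (lkE d7E) (chkI 7) (1, false) = true := by decide +kernel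
lemma one7_4 : cOne id allA6 (lkS d7S) (lkE d7E) (chkI 7) (2, true) = true := by decide +kernel
lemma one7_5 : cOne id allA6 (lkS d7S) (lkE d7E) (chkI 7) (2, false) = true := by decide +kernel

lemma one7 (a : Fin 3 × Bool) : cOne id allA6 (lkS d7S) (lkE d7E) (chkI 7) a = true := by
  have := mem_allL a
  simp only [allL, List.mem_cons, List.not_mem_nil, or_false] at this
  rcases this with rfl | rfl | rfl | rfl | rfl | rfl
  exacts [one7_0, one7_1, one7_2, one7_3, one7_4, one7_5]

lemma hom7 : cHom (lkS d7S) (chkI 7) = true := by decide +kernel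

lemma perm7_0 : cPerm id act allA6 (lkS d7S) (lkE d7E) (chkI 7) (0, true) = true := by decide +kernel
lemma perm7_1 : cPerm id act allA6 (lkS d7S) (lkE d7E) (chkI 7) (0, false) = true := by decide +kernel
lemma perm7_2 : cPerm id act allA6 (lkS d7S) (lkE d7E) (chkI 7) (1, true) = true := by decide +kernel
lemma perm7_3 : cPerm id act allA6 (lkS d7S) (lkE d7E) (chkI 7) (1, false) = true := by decide +kernel
lemma perm7_4 : cPerm id act allA6 (lkS d7S) (lkE d7E) (chkI 7) (2, true) = true := by decide +kernel
lemma perm7_5 : cPerm id act allA6 (lkS d7S) (lkE d7E) (chkI 7) (2, false) = true := by decide +kernel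

lemma perm7 (a : Fin 3 × Bool) : cPerm id act allA6 (lkS d7S) (lkE d7E) (chkI 7) a = true := by
  have := mem_allL a
  simp only [allL, List.mem_cons, List.not_mem_nil, or_false] at this
  rcases this with rfl | rfl | rfl | rfl | rfl | rfl
  exacts [perm7_0, perm7_1, perm7_2, perm7_3, perm7_4, perm7_5]

lemma two7_0 : cTwo id allL allA6 (lkE d7E) (chkI 7) (0, true) = true := by decide +kernel
lemma two7_1 : cTwo id allL allA6 (lkE d7E) (chkI 7) (0, false) = true := by decide +kernel
lemma two7_2 : cTwo id allL allA6 (lkE d7E) (chkI 7) (1, true) = true := by decide +kernel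
lemma two7_3 : cTwo id allL allA6 (lkE d7E) (chkI 7) (1, false) = true := by decide +kernel
lemma two7_4 : cTwo id allL allA6 (lkE d7E) (chkI 7) (2, true) = true := by decide +kernel
lemma two7_5 : cTwo id allL allA6 (lkE d7E) (chkI 7) (2, false) = true := by decide +kernel

lemma two7 (a : Fin 3 × Bool) : cTwo id allL allA6 (lkE d7E) (chkI 7) a = true := by
  have := mem_allL a
  simp only [allL, List.mem_cons, List.not_mem_nil, or_false] at this
  rcases this with rfl | rfl | rfl | rfl | rfl | rfl
  exacts [two7_0, two7_1, two7_2, two7_3, two7_4, two7_5]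

theorem rel7 : (∀ π, VW π → Good 7 (lkS d7S π)) ∧ (∀ A a, Vd id A a → Good 7 (lkE d7E A a)) ∧
    Rel id act (fun π => tO 7 (lkS d7S π)) (fun A a => tO 7 (lkE d7E A a)) :=
  rel_of (soundI 7) Function.injective_id (fun _ _ => rfl) act_wone act_wmul
    mem_allA6 one7 hom7 perm7 two7

end Pool.Agent.MP_3ce0a0_al.H46
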