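import Pool.Agent.MP_3ce0a0_al.H46.OutHom
import Pool.Agent.MP_3ce0a0_al.H46.R7

/-! The embedding of Out(F_3) in Out(F_7). -/

namespace Pool.Agent.MP_3ce0a0_al.H46

open FreeGroup

/-- monodromy of the two-sheeted cover followed by the map to the handlebody group -/
def thD : List (List ℕ × List ℕ) :=
  [([], []), ([], []), ([2], [3]), ([2], [3]), ([5, 2], [3, 4]), ([5, 2], [3, 4]), ([5], [4]),
   ([5], [4]), ([3, 1, 2, 0], []), ([1, 3, 0, 2], []), ([0], [1]), ([1], [0]), ([0], [5, 1, 4]),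
   ([1], [5, 0, 4])]

/-- the cocycle -/
noncomputable def thc (y : ℕ) (s : Bool) : List ℕ :=
  cond s (gd thD ([], []) y).2 (gd thD ([], []) y).1

/-- the action on sheets -/
def ths (y : ℕ) (s : Bool) : Bool := xor s (Nat.blt y 8)

/-- action of a coded letter -/
noncomputable def thl (y : ℕ) (z : FreeGroup (Fin 3) × Bool) : FreeGroup (Fin 3) × Bool :=
  (ev 3 (thc y z.2) * z.1, ths y z.2)

lemma thl_fl (y : ℕ) (hy : y < 14) (z : FreeGroup (Fin 3) × Bool) : thl (fl y) (thl y z) = z := by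
  have : ∀ y ∈ List.range 14, ∀ s : Bool,
      eqw (mr (thc (fl y) (ths y s)) (thc y s)) [] = true ∧ ths (fl y) (ths y s) = s := by
    decide +kernel
  obtain ⟨h1, h2⟩ := this y (List.mem_range.2 hy) z.2
  have := congrArg (ev 3) (eqw_eq h1)
  rw [ev_mr] at this
  refine Prod.ext ?_ h2
  show ev 3 (thc (fl y) (ths y z.2)) * (ev 3 (thc y z.2) * z.1) = z.1
  rw [← mul_assoc, this]; simp

lemma fl_two (i : ℕ) : fl (2 * i) = 2 * i + 1 := by
  have h1 := fl_div (2 * i)
  have h2 := fl_mod (2 * i)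
  omega

lemma fl_two' (i : ℕ) : fl (2 * i + 1) = 2 * i := by
  have h1 := fl_div (2 * i + 1)
  have h2 := fl_mod (2 * i + 1)
  omega

/-- the permutation of a generator -/
noncomputable def thp (i : Fin 7) : Equiv.Perm (FreeGroup (Fin 3) × Bool) where
  toFun := thl (2 * i.val)
  invFun := thl (2 * i.val + 1)
  left_inv z := by rw [← fl_two]; exact thl_fl _ (by omega) z
  right_inv z := by
    have := thl_fl (2 * i.val + 1) (by omega) z
    rwa [fl_two'] at this

/-- the action of the free group of rank seven -/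
noncomputable def th : FreeGroup (Fin 7) →* Equiv.Perm (FreeGroup (Fin 3) × Bool) := lift thp

lemma th_gn (y : ℕ) (z : FreeGroup (Fin 3) × Bool) : th (gn 7 y) z = thl y z := by
  unfold gn
  split_ifs with h
  · by_cases b : y % 2 = 0
    · simp only [b, decide_true, lt_true, th, lift_apply_of]
      show thl (2 * (y / 2)) z = _
      rw [show 2 * (y / 2) = y by omega]
    · simp only [b, decide_false, lt_false, th, _root_.map_inv, lift_apply_of]
      show thl (2 * (y / 2) + 1) z = _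
      rw [show 2 * (y / 2) + 1 = y by omega]
  · have : gd thD ([], []) y = ([], []) := gd_big _ _ _ (by simp [thD]; omega)
    have b : Nat.blt y 8 = false := by
      rcases e : Nat.blt y 8 with _ | _
      · rfl
      · rw [Nat.blt_eq] at e; omega
    simp [thl, thc, ths, this, b]

/-- action of a coded word -/
noncomputable def run (w : List ℕ) (z : List ℕ × Bool) : List ℕ × Bool :=
  List.rec z (fun y _ acc => (mr (thc y acc.2) acc.1, ths y acc.2)) w

lemma th_run (w : List ℕ) (z : List ℕ × Bool) :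
    th (ev 7 w) (ev 3 z.1, z.2) = (ev 3 (run w z).1, (run w z).2) := by
  induction w with
  | nil => simp [run]
  | cons y t ih =>
    rw [ev_cons, _root_.map_mul, Equiv.Perm.mul_apply, ih, th_gn]
    exact Prod.ext (ev_mr ..).symm rfl

/-- right multiplication -/
def rm (z : FreeGroup (Fin 3) × Bool) (c : FreeGroup (Fin 3)) : FreeGroup (Fin 3) × Bool :=
  (z.1 * c, z.2)

lemma ext_act {β : FreeGroup (Fin 3) × Bool → FreeGroup (Fin 3) × Bool}
    {h : FreeGroup (Fin 7) →* FreeGroup (Fin 7)}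
    (g : ∀ i z, β (th (of i) z) = th (h (of i)) (β z)) (x : FreeGroup (Fin 7)) :
    ∀ z, β (th x z) = th (h x) (β z) := by
  induction x using FreeGroup.induction_on with
  | C1 => simp
  | of i => exact g i
  | inv_of i ih =>
    intro z
    have := ih (th (of i)⁻¹ z)
    rw [← Equiv.Perm.mul_apply, ← _root_.map_mul, mul_inv_cancel, _root_.map_one,
      Equiv.Perm.one_apply] at this
    rw [this, ← Equiv.Perm.mul_apply (th (h (of i)⁻¹)), ← _root_.map_mul, ← _root_.map_mul,
      inv_mul_cancel, _root_.map_one, _root_.map_one, Equiv.Perm.one_apply]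
  | mul x y ihx ihy =>
    intro z
    simp only [_root_.map_mul, Equiv.Perm.mul_apply, ihx, ihy]

lemma th_rm (x : FreeGroup (Fin 7)) (z : FreeGroup (Fin 3) × Bool) (c : FreeGroup (Fin 3)) :
    th x (rm z c) = rm (th x z) c := by
  refine (ext_act (β := fun z => rm z c) (h := MonoidHom.id _) (fun i z => ?_) x z).symm
  rw [← gn_two, MonoidHom.id_apply, th_gn, th_gn]
  simp [thl, rm, mul_assoc]

/-- the outer class `O` covers `φ` -/
def Rec7 (φ : MulAut (FreeGroup (Fin 3))) (O : H79.Out (FreeGroup (Fin 7))) : Prop :=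
  ∃ h : MulAut (FreeGroup (Fin 7)), QuotientGroup.mk h = O ∧
    ∃ β : FreeGroup (Fin 3) × Bool → FreeGroup (Fin 3) × Bool,
      (∀ z c, β (rm z c) = rm (β z) (φ c)) ∧ ∀ x z, β (th x z) = th (h x) (β z)

lemma Rec7.mul {φ ψ : MulAut (FreeGroup (Fin 3))} {O Q : H79.Out (FreeGroup (Fin 7))}
    (a : Rec7 φ O) (b : Rec7 ψ Q) : Rec7 (φ * ψ) (O * Q) := by
  obtain ⟨h, rfl, β, h1, h2⟩ := a
  obtain ⟨k, rfl, γ, k1, k2⟩ := b
  exact ⟨h * k, rfl, β ∘ γ, fun z c => by simp [h1, k1], fun x z => by simp [h2, k2]⟩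

/-- certificate test -/
noncomputable def chk7 (T3 T7 C : List (List ℕ)) : Bool :=
  Nat.ble T3.length 3 && (List.range 7).all fun i => [false, true].all fun s =>
    eqw (mr (gd C [] (cond (run [2 * i] ([], s)).2 2 1)) (ap T3 (run [2 * i] ([], s)).1))
      (run (gd T7 [] i) (gd C [] (cond s 2 1), xor s (eqw (gd C [] 0) [1]))).1 &&
    (xor (run [2 * i] ([], s)).2 (eqw (gd C [] 0) [1]) ==
      (run (gd T7 [] i) (gd C [] (cond s 2 1), xor s (eqw (gd C [] 0) [1]))).2)

lemma chk7_sound {T3 T7 C : List (List ℕ)} (g3 : Good 3 T3) (g7 : Good 7 T7)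
    (h : chk7 T3 T7 C = true) : Rec7 (tA 3 T3) (tO 7 T7) := by
  simp only [chk7, Bool.and_eq_true, List.all_eq_true, Nat.ble_eq, List.mem_range,
    beq_iff_eq] at h
  let β : FreeGroup (Fin 3) × Bool → FreeGroup (Fin 3) × Bool := fun z =>
    (ev 3 (gd C [] (cond z.2 2 1)) * tA 3 T3 z.1, xor z.2 (eqw (gd C [] 0) [1]))
  have h1 : ∀ z c, β (rm z c) = rm (β z) (tA 3 T3 c) := fun z c => by simp [β, rm, mul_assoc]
  refine ⟨tA 7 T7, rfl, β, h1, ext_act (h := (tA 7 T7).toMonoidHom) fun i z => ?_⟩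
  have e : z = rm (1, z.2) z.1 := by simp [rm]
  rw [e, th_rm, h1, h1, th_rm]
  congr 1
  obtain ⟨k1, k2⟩ := h.2 i.val i.2 z.2 (by cases z.2 <;> simp)
  have k1 := congrArg (ev 3) (eqw_eq k1)
  rw [ev_mr, ev_ap h.1, ← tA_apply g3] at k1
  have a := th_run [2 * i.val] ([], z.2)
  have b := th_run (gd T7 [] i.val) (gd C [] (cond z.2 2 1), xor z.2 (eqw (gd C [] 0) [1]))
  have c : (tA 7 T7).toMonoidHom (of i) = ev 7 (gd T7 [] i.val) := by
    show tA 7 T7 (of i) = _
    rw [tA_apply g7]; simp [hm]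
  simp only [ev_cons, ev_nil, mul_one, gn_two] at a
  rw [a, c]
  simp only [β, _root_.map_one, mul_one]
  rw [b]
  exact Prod.ext k1 k2

lemma cert7E : allE (fun A a => chk7 (T3E A a) (lkE d7E (A ∘ some) a) (lkO c7E A a)) = true := by
  decide +kernel

lemma cert7S : allS (fun π => chk7 (T3S π) (lkS d7S π) (lkS c7S π)) = true := by
  decide +kernel

lemma rec7_one {φ : MulAut (FreeGroup (Fin 3))} (h : Rec7 φ 1) : ∃ g, MulAut.conj g = φ := by
  obtain ⟨h, e, β, h1, h2⟩ := h
  obtain ⟨u, rfl⟩ := (QuotientGroup.eq_one_iff _).1 e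
  have k2 : ∀ x z, th u⁻¹ (β (th x z)) = th x (th u⁻¹ (β z)) := fun x z => by
    rw [h2]; simp [mul_assoc]
  rcases hy : th u⁻¹ (β (1, false)) with ⟨g, s⟩
  have hg : ∀ s, (g, s) = rm (1, s) g := fun s => by simp [rm]
  cases s
  · refine ⟨g⁻¹, H28.aut_ext fun i => ?_⟩
    have : ∃ x, th x (1, false) = (of i, false) := by
      fin_cases i
      · exact ⟨ev 7 [10], (th_run [10] ([], false)).trans (by decide +kernel)⟩
      · exact ⟨ev 7 [0, 2], (th_run [0, 2] ([], false)).trans (by decide +kernel)⟩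
      · exact ⟨ev 7 [6, 0], (th_run [6, 0] ([], false)).trans (by decide +kernel)⟩
    obtain ⟨x, hx⟩ := this
    have a := k2 x (1, false)
    rw [hy, hg, th_rm, hx, show ((of i, false) : FreeGroup (Fin 3) × Bool) = rm (1, false) (of i) by
      simp [rm], h1, th_rm, hy] at a
    have := congrArg Prod.fst a
    simp only [rm, one_mul] at this
    simp [mul_assoc, ← this]
  · exfalso
    have a := k2 (ev 7 [10, 13]) (1, false)
    have b : th (ev 7 [10, 13]) (1, false) = (1, false) :=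
      (th_run [10, 13] ([], false)).trans (by decide +kernel)
    have c : th (ev 7 [10, 13]) (1, true) ≠ (1, true) := by
      rw [show th (ev 7 [10, 13]) (1, true) = _ from th_run [10, 13] ([], true)]
      decide +kernel
    rw [b, hy, hg, th_rm] at a
    apply c
    simp only [rm, Prod.mk.injEq, mul_left_inj] at a
    exact Prod.ext a.1.symm a.2.symm

theorem seven : ∃ f : H79.Out (FreeGroup (Fin 3)) →* H79.Out (FreeGroup (Fin 7)),
    Function.Injective f := by
  obtain ⟨Φ, h1, h2, h3⟩ := exists_out rel7.2.2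
  refine out_inj Φ h3 fun φ h => rec7_one (h ▸ ?_)
  refine aut_ind hs3 he3 rel3.2.2 (Q := fun φ => Rec7 φ (Φ φ)) ?_ (fun π x v q => ?_)
    (fun A a x v q => ?_) φ
  · exact ⟨1, by simp, id, fun _ _ => rfl, fun _ _ => rfl⟩
  · simp only [_root_.map_mul, h1 π v]
    exact (chk7_sound (rel3.1 π v) (rel7.1 π v) (allS_sound cert7S v)).mul q
  · simp only [_root_.map_mul, h2 A a v]
    exact (chk7_sound (rel3.2.1 A a v) (rel7.2.1 (A ∘ some) a v) (allE_sound cert7E v)).mul q

end Pool.Agent.MP_3ce0a0_al.H46
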