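import Pool.Agent.MP_3ce0a0_al.H46.Chk

/-! Enumerations, and the tables of rank three. -/

namespace Pool.Agent.MP_3ce0a0_al.H46

open FreeGroup

/-- code of a letter -/
def cd (y : Fin 3 × Bool) : ℕ := Nat.add (Nat.mul 2 y.1.val) (cond y.2 0 1)

/-- code of a direction -/
def cdO (p : Option (Fin 3 × Bool)) : ℕ := Option.rec 6 cd p

/-- bit mask of a set of letters -/
def mask (A : Fin 3 × Bool → Bool) : ℕ :=
  Nat.add (Nat.add (Nat.add (cond (A (0, true)) 1 0) (cond (A (0, false)) 2 0))
    (Nat.add (cond (A (1, true)) 4 0) (cond (A (1, false)) 8 0)))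
    (Nat.add (cond (A (2, true)) 16 0) (cond (A (2, false)) 32 0))

/-- bit mask of a set of directions -/
def maskO (A : Option (Fin 3 × Bool) → Bool) : ℕ :=
  Nat.add (mask fun y => A (some y)) (cond (A none) 64 0)

/-- bit test -/
def bit (n i : ℕ) : Bool := Nat.beq (Nat.mod (Nat.shiftRight n i) 2) 1

/-- all sets of letters -/
def allA6 : List (Fin 3 × Bool → Bool) := (List.range 64).map fun n y => bit n (cd y)

/-- all sets of directions -/
def allA7 : List (Option (Fin 3 × Bool) → Bool) := (List.range 128).map fun n p => bit n (cdO p)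

/-- all directions -/
def allD : List (Option (Fin 3 × Bool)) := none :: allL.map some

lemma mem_allA6 (A : Fin 3 × Bool → Bool) : A ∈ allA6 := by
  have : mask A < 64 ∧ ∀ y ∈ allL, bit (mask A) (cd y) = A y := by
    simp only [allL, List.forall_mem_cons, mask, List.not_mem_nil, false_imp_iff, implies_true]
    generalize A (0, true) = b0, A (0, false) = b1, A (1, true) = b2, A (1, false) = b3,
      A (2, true) = b4, A (2, false) = b5
    revert b0 b1 b2 b3 b4 b5
    decide +kernel
  exact List.mem_map.2 ⟨mask A, List.mem_range.2 this.1, funext fun y => this.2 y (mem_allL y)⟩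

lemma mem_allD (p : Option (Fin 3 × Bool)) : p ∈ allD := by revert p; decide

lemma mem_allA7 (A : Option (Fin 3 × Bool) → Bool) : A ∈ allA7 := by
  have : maskO A < 128 ∧ ∀ y ∈ allD, bit (maskO A) (cdO y) = A y := by
    simp only [allD, allL, List.map_cons, List.map_nil, List.forall_mem_cons, mask, maskO,
      List.not_mem_nil, false_imp_iff, implies_true]
    generalize A (some (0, true)) = b0, A (some (0, false)) = b1, A (some (1, true)) = b2,
      A (some (1, false)) = b3, A (some (2, true)) = b4, A (some (2, false)) = b5, A none = b6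
    revert b0 b1 b2 b3 b4 b5 b6
    decide +kernel
  exact List.mem_map.2 ⟨maskO A, List.mem_range.2 this.1, funext fun y => this.2 y (mem_allD y)⟩

/-- a letter or nothing -/
def pl (b : Bool) (y : Fin 3 × Bool) (w : List ℕ) : List ℕ := cond b (cd y :: w) w

/-- a row of the table of a Whitehead automorphism -/
def row3 (A : Option (Fin 3 × Bool) → Bool) (a : Fin 3 × Bool) (i : Fin 3) : List ℕ :=
  cond (Nat.beq i.val a.1.val) [cd (i, true)]
    (pl (A none) a (pl (A (some (i, false))) (iv a) (cd (i, true) ::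
      pl (A (some (i, true))) a (pl (A none) (iv a) []))))

/-- the table of a Whitehead automorphism -/
def T3E (A : Option (Fin 3 × Bool) → Bool) (a : Fin 3 × Bool) : List (List ℕ) :=
  [row3 A a 0, row3 A a 1, row3 A a 2]

/-- the table of a signed permutation -/
def T3S (π : Fin 3 → Fin 3 × Bool) : List (List ℕ) := [[cd (π 0)], [cd (π 1)], [cd (π 2)]]

/-- lookup for a Whitehead datum on letters -/
noncomputable def lkE (d : List (List (List (List ℕ)))) (A : Fin 3 × Bool → Bool)
    (a : Fin 3 × Bool) : List (List ℕ) := gd (gd d [] (cd a)) [] (mask A)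

/-- lookup for a Whitehead datum on directions -/
noncomputable def lkO (d : List (List (List (List ℕ)))) (A : Option (Fin 3 × Bool) → Bool)
    (a : Fin 3 × Bool) : List (List ℕ) := gd (gd d [] (cd a)) [] (maskO A)

/-- lookup for a signed permutation -/
noncomputable def lkS (d : List (List (List (List ℕ)))) (π : Fin 3 → Fin 3 × Bool) :
    List (List ℕ) := gd (gd d [] (cd (π 0))) [] (Nat.add (Nat.mul 6 (cd (π 1))) (cd (π 2)))

lemma gn_cd (y : Fin 3 × Bool) : gn 3 (cd y) = lt y := by
  rcases y with ⟨i, _ | _⟩ <;> fin_cases i <;> rfl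

lemma ev_pl (b : Bool) (y : Fin 3 × Bool) (w : List ℕ) : ev 3 (pl b y w) = pw b y * ev 3 w := by
  cases b <;> simp [pl, gn_cd]

lemma pw_iv (b : Bool) (y : Fin 3 × Bool) : pw b (iv y) = (pw b y)⁻¹ := by
  cases b <;> simp [lt_iv]

lemma isPm_T3S {π : Fin 3 → Fin 3 × Bool} (g : Good 3 (T3S π)) : IsPm (tA 3 (T3S π)) π := by
  have : ∀ i, hm 3 (T3S π) (of i) = lt (π i) := fun i => by
    have : gd (T3S π) [] i.val = [cd (π i)] := by fin_cases i <;> rfl
    simp [hm, this, gn_cd]
  rintro ⟨i, _ | _⟩
  · rw [tA_apply g, lt_false, _root_.map_inv, this]; exact (lt_iv _).symm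
  · rw [tA_apply g, lt_true, this]; rfl

lemma isWh_T3E {A : Option (Fin 3 × Bool) → Bool} {a : Fin 3 × Bool} (g : Good 3 (T3E A a)) :
    IsWh (tA 3 (T3E A a)) A a := by
  have h : ∀ i, hm 3 (T3E A a) (of i) = ev 3 (row3 A a i) := fun i => by
    have : gd (T3E A a) [] i.val = row3 A a i := by fin_cases i <;> rfl
    simp [hm, this]
  constructor
  · have : hm 3 (T3E A a) (of a.1) = of a.1 := by
      rw [h]; simp [row3, gn_cd, lt_true]
    rw [tA_apply g]
    rcases a with ⟨i, _ | _⟩
    · rw [lt_false, _root_.map_inv, this]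
    · exact this
  · rintro ⟨i, b⟩ hy
    have n : Nat.beq i.val a.1.val = false := by
      rcases e : Nat.beq i.val a.1.val with _ | _
      · rfl
      · exact absurd (Fin.ext (Nat.eq_of_beq_eq_true e)) hy
    have := h i
    simp only [row3, n, cond_false, ev_pl, ev_cons, gn_cd, pw_iv, ev_nil, mul_one] at this
    rw [tA_apply g]
    cases b
    · rw [lt_false, _root_.map_inv, this, lt_true]; simp [iv, mul_assoc]
    · rw [lt_true, this, lt_true]; simp [iv, mul_assoc]

end Pool.Agent.MP_3ce0a0_al.H46
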