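import Pool.Agent.MP_3ce0a0_al.H46.OutHom
import Pool.Agent.MP_3ce0a0_al.H46.R10

/-! The embedding of Out(F_3) in Aut(F_10) and in Out(F_m) for all m at least ten. -/

namespace Pool.Agent.MP_3ce0a0_al.H46

open FreeGroup

/-- inclusion of the first three generators -/
def io : FreeGroup (Fin 3) →* FreeGroup (Fin 10) := map (Fin.castLE (by omega))

/-- translation of coded words -/
noncomputable def ioL (w : List ℕ) : List ℕ := w.filter fun y => Nat.blt y 6

lemma ev_ioL (w : List ℕ) : ev 10 (ioL w) = io (ev 3 w) := by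
  induction w with
  | nil => simp [ioL]
  | cons y t ih =>
    unfold ioL at ih ⊢
    rw [List.filter_cons, ev_cons, _root_.map_mul, ← ih]
    split_ifs with h
    · rw [Nat.blt_eq] at h
      rw [ev_cons]
      congr 1
      interval_cases y <;> rfl
    · rw [Nat.blt_eq] at h
      simp [gn, show ¬ y / 2 < 3 by omega]

/-- the connecting arcs -/
def tw (j : ℕ) : List ℕ := cond (Nat.beq j 0) [] [Nat.mul 2 (Nat.add 2 j)]

/-- `h` permutes the eight vertex groups and covers `φ` -/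
def Rec10 (φ : MulAut (FreeGroup (Fin 3))) (h : MulAut (FreeGroup (Fin 10))) : Prop :=
  ∀ i < 8, ∃ j < 8, ∃ c, ∀ γ, h ((ev 10 (tw i))⁻¹ * io γ * ev 10 (tw i)) =
    (ev 10 (tw j))⁻¹ * io (c⁻¹ * φ γ * c) * ev 10 (tw j)

lemma Rec10.mul {φ ψ : MulAut (FreeGroup (Fin 3))} {h k : MulAut (FreeGroup (Fin 10))}
    (a : Rec10 φ h) (b : Rec10 ψ k) : Rec10 (φ * ψ) (h * k) := by
  intro i hi
  obtain ⟨j, hj, c, e⟩ := b i hi
  obtain ⟨l, hl, d, f⟩ := a j hj
  refine ⟨l, hl, φ c * d, fun γ => ?_⟩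
  rw [MulAut.mul_apply, e, f]
  simp [mul_assoc]

/-- certificate test -/
noncomputable def chk10 (T3 T C : List (List ℕ)) : Bool :=
  Nat.ble T3.length 3 && Nat.ble T.length 10 && (List.range 8).all fun i =>
    Nat.blt (gd (gd C [] i) 0 0) 8 && (List.range 3).all fun l =>
      eqw (ap T (mi (tw i) (ioL [2 * l] ++ tw i)))
        (mi (tw (gd (gd C [] i) 0 0)) (mr (ioL (mi (gd C [] i).tail
          (mr (ap T3 [2 * l]) (gd C [] i).tail))) (tw (gd (gd C [] i) 0 0))))

lemma ev_append (k : ℕ) (u w : List ℕ) : ev k (u ++ w) = ev k u * ev k w := by simp [ev]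

lemma chk10_sound {T3 T C : List (List ℕ)} (g3 : Good 3 T3) (g : Good 10 T)
    (h : chk10 T3 T C = true) : Rec10 (tA 3 T3) (tA 10 T) := by
  simp only [chk10, Bool.and_eq_true, List.all_eq_true, Nat.ble_eq, Nat.blt_eq,
    List.mem_range] at h
  intro i hi
  refine ⟨_, (h.2 i hi).1, ev 3 (gd C [] i).tail, fun γ => ?_⟩
  have : (tA 10 T).toMonoidHom.comp ((MulAut.conj (ev 10 (tw i))⁻¹).toMonoidHom.comp io) =
      (MulAut.conj (ev 10 (tw (gd (gd C [] i) 0 0)))⁻¹).toMonoidHom.comp (io.comp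
        ((MulAut.conj (ev 3 (gd C [] i).tail)⁻¹).toMonoidHom.comp (tA 3 T3).toMonoidHom)) :=
    FreeGroup.ext_hom _ _ fun l => by
      have := congrArg (ev 10) (eqw_eq ((h.2 i hi).2 l.val l.2))
      rw [ev_ap h.1.2, ev_mi, ev_mi, ev_append, ev_mr, ev_ioL, ev_ioL, ev_mi, ev_mr, ev_ap h.1.1,
        ← tA_apply g, ← tA_apply g3] at this
      simpa [gn_two, mul_assoc] using this
  simpa [mul_assoc] using DFunLike.congr_fun this γ

lemma cert10E :
    allE (fun A a => chk10 (T3E A a) (lkE d10E (A ∘ some) a) (lkO c10E A a)) = true := by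
  decide +kernel

lemma cert10S : allS (fun π => chk10 (T3S π) (lkS d10S π) (lkS c10S π)) = true := by
  decide +kernel

theorem ten_aut : ∃ Φ : MulAut (FreeGroup (Fin 3)) →* MulAut (FreeGroup (Fin 10)),
    (∀ g, Φ (MulAut.conj g) = 1) ∧ ∀ φ, Rec10 φ (Φ φ) := by
  obtain ⟨Φ, h1, h2, h3⟩ := exists_out rel10.2.2
  refine ⟨Φ, h3, aut_ind hs3 he3 rel3.2.2 ?_ (fun π x v q => ?_) (fun A a x v q => ?_)⟩
  · exact fun i hi => ⟨i, hi, 1, fun γ => by simp⟩
  · simp only [_root_.map_mul, h1 π v]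
    exact (chk10_sound (rel3.1 π v) (rel10.1 π v) (allS_sound cert10S v)).mul q
  · simp only [_root_.map_mul, h2 A a v]
    exact (chk10_sound (rel3.2.1 A a v) (rel10.2.1 (A ∘ some) a v) (allE_sound cert10E v)).mul q

section ext
variable {n m : ℕ} (h : n ≤ m)

/-- extension of an endomorphism by the identity -/
def extE (φ : FreeGroup (Fin n) →* FreeGroup (Fin n)) : FreeGroup (Fin m) →* FreeGroup (Fin m) :=
  lift fun i => if hi : i.val < n then map (Fin.castLE h) (φ (of ⟨i.val, hi⟩)) else of i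

lemma extE_map (φ : FreeGroup (Fin n) →* FreeGroup (Fin n)) (x : FreeGroup (Fin n)) :
    extE h φ (map (Fin.castLE h) x) = map (Fin.castLE h) (φ x) := by
  have : (extE h φ).comp (map (Fin.castLE h)) = (map (Fin.castLE h)).comp φ :=
    FreeGroup.ext_hom _ _ fun i => by simp [extE]
  exact DFunLike.congr_fun this x

lemma extE_comp (φ ψ : FreeGroup (Fin n) →* FreeGroup (Fin n)) :
    extE h (φ.comp ψ) = (extE h φ).comp (extE h ψ) := FreeGroup.ext_hom _ _ fun i => by
  by_cases hi : i.val < n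
  · have : ∀ χ, extE h χ (of i) = map (Fin.castLE h) (χ (of ⟨i.val, hi⟩)) := fun χ => by
      simp [extE, hi]
    rw [MonoidHom.comp_apply, this, this, extE_map]; rfl
  · simp [extE, hi]

lemma extE_id : extE h (MonoidHom.id _) = MonoidHom.id _ := FreeGroup.ext_hom _ _ fun i => by
  by_cases hi : i.val < n <;> simp [extE, hi]

/-- extension of automorphisms -/
def extA : MulAut (FreeGroup (Fin n)) →* MulAut (FreeGroup (Fin m)) where
  toFun φ := MonoidHom.toMulEquiv (extE h φ.toMonoidHom) (extE h φ.symm.toMonoidHom)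
    (by rw [← extE_comp, ← extE_id h]; congr 1; ext; simp)
    (by rw [← extE_comp, ← extE_id h]; congr 1; ext; simp)
  map_one' := MulEquiv.ext fun x => DFunLike.congr_fun (extE_id h) x
  map_mul' φ ψ := MulEquiv.ext fun x =>
    DFunLike.congr_fun (extE_comp h φ.toMonoidHom ψ.toMonoidHom) x

lemma extA_map (φ : MulAut (FreeGroup (Fin n))) (x : FreeGroup (Fin n)) :
    extA h φ (map (Fin.castLE h) x) = map (Fin.castLE h) (φ x) := extE_map h φ.toMonoidHom x

end ext

/-- retraction onto the first three generators -/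
def rt (m : ℕ) : FreeGroup (Fin m) →* FreeGroup (Fin 3) :=
  lift fun i => if hi : i.val < 3 then of ⟨i.val, hi⟩ else 1

theorem ten {m : ℕ} (hm : 10 ≤ m) :
    ∃ f : H79.Out (FreeGroup (Fin 3)) →* H79.Out (FreeGroup (Fin m)), Function.Injective f := by
  obtain ⟨Φ, h1, h2⟩ := ten_aut
  refine out_inj (((QuotientGroup.mk' _).comp (extA hm)).comp Φ) (fun g => by simp [h1])
    fun φ h => ?_
  obtain ⟨u, hu⟩ := (QuotientGroup.eq_one_iff (extA hm (Φ φ))).1 h
  obtain ⟨j, hj, c, e⟩ := h2 φ 0 (by omega)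
  have r1 : ∀ γ, rt m (map (Fin.castLE hm) (io γ)) = γ := fun γ => by
    have : (rt m).comp ((map (Fin.castLE hm)).comp io) = MonoidHom.id _ :=
      FreeGroup.ext_hom _ _ fun i => by simp [rt, io]
    exact DFunLike.congr_fun this γ
  have r2 : rt m (map (Fin.castLE hm) (ev 10 (tw j))) = 1 := by
    interval_cases j <;> simp [tw, Nat.beq, gn, lt_true, rt]
  refine ⟨c * rt m u, MulEquiv.ext fun γ => ?_⟩
  have a := extA_map hm (Φ φ) (io γ)
  have e' := e γ
  rw [show ev 10 (tw 0) = 1 from rfl, inv_one, one_mul, mul_one] at e'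
  rw [← hu, e'] at a
  have := congrArg (rt m) a
  simp only [MulAut.conj_apply, _root_.map_mul, _root_.map_inv, r1, r2] at this
  rw [MulAut.conj_apply, mul_inv_rev, mul_assoc c, mul_assoc c, ← mul_assoc _ _ c⁻¹, this]
  group

end Pool.Agent.MP_3ce0a0_al.H46
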